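import Pool.Agent.Lib.MP_216314_pr.CF.Def

/-!
# Fusion of the sums `FU`, `FLL`, `FLR`
-/

set_option autoImplicit false

noncomputable section

namespace CF

open Finset PX

/-- the factor of a fusion -/
def mp (s : Multiset ℂ) (c : ℂ) : ℂ := (s.map fun r => r - c).prod

theorem mp_zero (c : ℂ) : mp 0 c = 1 := by
  unfold mp
  rw [Multiset.map_zero, Multiset.prod_zero]

theorem mp_cons (a : ℂ) (s : Multiset ℂ) (c : ℂ) : mp (a ::ₘ s) c = (a - c) * mp s c := by
  unfold mp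
  rw [Multiset.map_cons, Multiset.prod_cons]

theorem mp_add (s t : Multiset ℂ) (c : ℂ) : mp (s + t) c = mp s c * mp t c := by
  unfold mp
  rw [Multiset.map_add, Multiset.prod_add]

theorem val_erase {A : Finset ℂ} {a : ℂ} (ha : a ∈ A) : A.val = a ::ₘ (A.erase a).val := by
  rw [Finset.erase_val]
  exact (Multiset.cons_erase ha).symm

theorem val_insert {A : Finset ℂ} {a : ℂ} (ha : a ∉ A) : (insert a A).val = a ::ₘ A.val :=
  Finset.insert_val_of_notMem ha

theorem erase_ins {A : Finset ℂ} {a Y : ℂ} (hY : Y ∉ A) (ha : a ∈ A) :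
    (insert Y A).erase a = insert Y (A.erase a) := by
  refine Finset.erase_insert_of_ne ?_
  rintro rfl
  exact hY ha

theorem notMem_er {A : Finset ℂ} {a Y : ℂ} (hY : Y ∉ A) : Y ∉ A.erase a :=
  fun h => hY (Finset.mem_of_mem_erase h)

theorem Wa_insert {A : Finset ℂ} {a Y : ℂ} (hY : Y ∉ A) (ha : a ∈ A) :
    Wa (insert Y A) a = TT a Y / (a - Y) * Wa A a := by
  unfold Wa
  rw [erase_ins hY ha, Finset.prod_insert (notMem_er hY)]

theorem TT_fac {a x Y X : ℂ} (h1 : x + Y + X = 0) (h2 : x * Y + Y * X + X * x = -3) :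
    TT a Y = (a - x) * (a - X) := by
  unfold TT
  linear_combination (a + Y) * h1 - h2

theorem er_ne {A : Finset ℂ} {a Y : ℂ} (hY : Y ∉ A) (ha : a ∈ A) : a - Y ≠ 0 := by
  intro h
  rw [sub_eq_zero] at h
  exact hY (h ▸ ha)

theorem TU_left {S : Multiset ℂ → ℂ} (hS : SC S) {A : Finset ℂ} (B : Multiset ℂ) {x Y X : ℂ} (hY : Y ∉ A)
    (h1 : x + Y + X = 0) (h2 : x * Y + Y * X + X * x = -3) :
    TU S (insert Y A) B x = mp (A.val + B) X * TLL S A B Y := by
  unfold TU TLL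
  rw [val_insert hY, Multiset.cons_add, hS.fus x Y X _ h1 h2]
  unfold mp
  ring

theorem FU_left {S : Multiset ℂ → ℂ} (hS : SC S) {A : Finset ℂ} (B : Multiset ℂ) {x Y X : ℂ} (hY : Y ∉ A)
    (h1 : x + Y + X = 0) (h2 : x * Y + Y * X + X * x = -3) :
    FU S (insert Y A) B x Y = mp (A.val + B) X * FLL S A B Y x := by
  unfold FU FLL
  rw [Finset.sum_insert hY, Finset.mul_sum, sub_self, zero_mul, zero_mul, zero_mul, zero_mul, zero_add]
  refine Finset.sum_congr rfl fun a ha => ?_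
  have h3 := er_ne hY ha
  have h4 : mp (A.val + B) X = (a - X) * mp ((A.erase a).val + B) X := by
    rw [val_erase ha, Multiset.cons_add, mp_cons]
  rw [Wa_insert hY ha, TT_fac h1 h2, erase_ins hY ha, val_insert (notMem_er hY), Multiset.cons_add,
    hS.fus x Y X _ h1 h2, h4]
  unfold mp
  field_simp

theorem TU_right {S : Multiset ℂ → ℂ} (hS : SC S) (A : Finset ℂ) (B : Multiset ℂ) {x X Y : ℂ}
    (h1 : x + X + Y = 0) (h2 : x * X + X * Y + Y * x = -3) :
    TU S A (X ::ₘ B) x = mp (A.val + B) Y * TLR S A B X := by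
  unfold TU TLR
  rw [Multiset.add_cons, hS.fus x X Y _ h1 h2]
  unfold mp
  ring

theorem FU_right {S : Multiset ℂ → ℂ} (hS : SC S) (A : Finset ℂ) (B : Multiset ℂ) {x X Y : ℂ}
    (h1 : x + X + Y = 0) (h2 : x * X + X * Y + Y * x = -3) :
    FU S A (X ::ₘ B) x Y = mp (A.val + B) Y * FLR S A B X := by
  unfold FU FLR
  rw [Finset.mul_sum]
  refine Finset.sum_congr rfl fun a ha => ?_
  have h4 : mp (A.val + B) Y = (a - Y) * mp ((A.erase a).val + B) Y := by
    rw [val_erase ha, Multiset.cons_add, mp_cons]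
  rw [Multiset.add_cons, hS.fus x X Y _ h1 h2, h4]
  unfold mp
  ring

theorem TLL_fus {S : Multiset ℂ → ℂ} (hS : SC S) {A : Finset ℂ} (B : Multiset ℂ) {x X Z : ℂ} (hX : X ∉ A)
    (h1 : x + X + Z = 0) (h2 : x * X + X * Z + Z * x = -3) :
    TLL S (insert X A) B x = mp A.val Z * TU S A B X := by
  unfold TU TLL
  rw [val_insert hX, Multiset.cons_add, hS.fus x X Z _ h1 h2]
  unfold mp
  ring

theorem FLL_fus {S : Multiset ℂ → ℂ} (hS : SC S) {A : Finset ℂ} (B : Multiset ℂ) {x X Z : ℂ} (hX : X ∉ A)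
    (h1 : x + X + Z = 0) (h2 : x * X + X * Z + Z * x = -3) :
    FLL S (insert X A) B x X = mp A.val Z * FU S A B X x := by
  unfold FU FLL
  rw [Finset.sum_insert hX, Finset.mul_sum, sub_self, zero_mul, zero_mul, zero_mul, zero_mul, zero_add]
  refine Finset.sum_congr rfl fun a ha => ?_
  have h3 := er_ne hX ha
  have h4 : mp A.val Z = (a - Z) * mp (A.erase a).val Z := by
    rw [val_erase ha, mp_cons]
  rw [Wa_insert hX ha, TT_fac h1 h2, erase_ins hX ha, val_insert (notMem_er hX), Multiset.cons_add,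
    hS.fus x X Z _ h1 h2, h4]
  unfold mp
  field_simp

theorem TLR_fus {S : Multiset ℂ → ℂ} (hS : SC S) (A : Finset ℂ) (B : Multiset ℂ) {x w Z : ℂ}
    (h1 : x + w + Z = 0) (h2 : x * w + w * Z + Z * x = -3) :
    TLR S A (w ::ₘ B) x = mp B Z * TU S A B w := by
  unfold TU TLR
  rw [Multiset.add_cons, hS.fus x w Z _ h1 h2]
  unfold mp
  ring

theorem FLR_fus {S : Multiset ℂ → ℂ} (hS : SC S) (A : Finset ℂ) (B : Multiset ℂ) {x w Z : ℂ}
    (h1 : x + w + Z = 0) (h2 : x * w + w * Z + Z * x = -3) :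
    FLR S A (w ::ₘ B) x = mp B Z * FU S A B w Z := by
  unfold FU FLR
  rw [Finset.mul_sum]
  refine Finset.sum_congr rfl fun a ha => ?_
  have h3 : a ::ₘ x ::ₘ w ::ₘ B = x ::ₘ w ::ₘ (a ::ₘ B) := by
    rw [Multiset.cons_swap a x, Multiset.cons_swap a w]
  rw [Multiset.add_cons, h3, hS.fus x w Z _ h1 h2, Multiset.map_cons, Multiset.prod_cons]
  unfold mp
  ring

/-! ### the degenerate cases -/

theorem TLL_empty {S : Multiset ℂ → ℂ} (hS : SC S) (B : Multiset ℂ) (x : ℂ) : TLL S ∅ B x = S B ^ 2 := by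
  unfold TLL
  have h : x ::ₘ (∅ : Finset ℂ).val = {x} := rfl
  rw [h, hS.one, Finset.empty_val, zero_add]
  ring

theorem FLL_empty (S : Multiset ℂ → ℂ) (B : Multiset ℂ) (x X : ℂ) : FLL S ∅ B x X = 0 := by
  unfold FLL
  rw [Finset.sum_empty]

theorem TLR_zero {S : Multiset ℂ → ℂ} (hS : SC S) (A : Finset ℂ) (x : ℂ) : TLR S A 0 x = S A.val ^ 2 := by
  unfold TLR
  have h : x ::ₘ (0 : Multiset ℂ) = {x} := rfl
  rw [h, hS.one, add_zero]
  ring

end CF
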