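import Pool.Agent.Lib.MP_216314_pr.CF.Def
import Pool.Agent.Lib.MP_216314_pr.X.BE

/-!
# Degrees of the right hand sides in the variable of the tip
-/

set_option autoImplicit false

noncomputable section

namespace CF

open Finset PX

/-- `t^d f` is a polynomial of degree at most `2 d` -/
def Mir (d : ℕ) (f : ℂ → ℂ) : Prop :=
  ∃ p : Polynomial ℂ, p.natDegree ≤ 2 * d ∧ ∀ t : ℂ, t ≠ 0 → t ^ d * f t = p.eval t

theorem Mir.congr {d : ℕ} {f g : ℂ → ℂ} (h : Mir d f) (hfg : ∀ t, t ≠ 0 → f t = g t) : Mir d g := by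
  obtain ⟨p, hp, hpe⟩ := h
  exact ⟨p, hp, fun t ht => by rw [← hfg t ht, hpe t ht]⟩

theorem Mir.const (c : ℂ) : Mir 0 (fun _ => c) :=
  ⟨Polynomial.C c, (Polynomial.natDegree_C c).le, fun t _ => by
    rw [Polynomial.eval_C, pow_zero, one_mul]⟩

theorem Mir.mono {d e : ℕ} {f : ℂ → ℂ} (h : Mir d f) (hde : d ≤ e) : Mir e f := by
  obtain ⟨p, hp, hpe⟩ := h
  refine ⟨Polynomial.X ^ (e - d) * p, ?_, fun t ht => ?_⟩
  · refine Polynomial.natDegree_mul_le.trans ?_
    rw [Polynomial.natDegree_X_pow]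
    omega
  · rw [Polynomial.eval_mul, Polynomial.eval_pow, Polynomial.eval_X, ← hpe t ht, ← mul_assoc, ← pow_add]
    congr 2
    omega

theorem Mir.mul {d e : ℕ} {f g : ℂ → ℂ} (h : Mir d f) (h' : Mir e g) : Mir (d + e) (fun t => f t * g t) := by
  obtain ⟨p, hp, hpe⟩ := h
  obtain ⟨q, hq, hqe⟩ := h'
  refine ⟨p * q, Polynomial.natDegree_mul_le.trans (by omega), fun t ht => ?_⟩
  rw [Polynomial.eval_mul, ← hpe t ht, ← hqe t ht, pow_add]
  ring

theorem Mir.add {d : ℕ} {f g : ℂ → ℂ} (h : Mir d f) (h' : Mir d g) : Mir d (fun t => f t + g t) := by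
  obtain ⟨p, hp, hpe⟩ := h
  obtain ⟨q, hq, hqe⟩ := h'
  refine ⟨p + q, (Polynomial.natDegree_add_le _ _).trans (max_le hp hq), fun t ht => ?_⟩
  rw [Polynomial.eval_add, ← hpe t ht, ← hqe t ht]
  ring

theorem Mir.sum {ι : Type*} {d : ℕ} (s : Finset ι) {f : ι → ℂ → ℂ} (h : ∀ i ∈ s, Mir d (f i)) :
    Mir d (fun t => ∑ i ∈ s, f i t) := by
  classical
  induction s using Finset.induction_on with
  | empty =>
    refine ((Mir.const 0).mono (Nat.zero_le d)).congr fun t _ => ?_
    rw [Finset.sum_empty]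
  | insert a s ha ih =>
    refine ((h a (Finset.mem_insert_self a s)).add
      (ih fun i hi => h i (Finset.mem_insert_of_mem hi))).congr fun t _ => ?_
    rw [Finset.sum_insert ha]

theorem Mir.cmul {d : ℕ} {f : ℂ → ℂ} (h : Mir d f) (c : ℂ) : Mir d (fun t => c * f t) := by
  have h1 := (Mir.const c).mul h
  rw [zero_add] at h1
  exact h1

/-- characters -/
theorem Mir.char {S : Multiset ℂ → ℂ} (hS : SC S) (s : Multiset ℂ) {d : ℕ} (hd : s.card / 2 ≤ d) :
    Mir d (fun t => S (XX t ::ₘ s)) := by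
  obtain ⟨p, hp, -, hpe⟩ := hS.pol s
  obtain ⟨q, hq, hqe⟩ := exists_mirror p d (hp.trans hd)
  refine ⟨q, hq, fun t ht => ?_⟩
  rw [← hqe t ht, ← hpe (XX t)]

/-- linear factors -/
theorem Mir.lin (a : ℂ) {c : ℂ} (hc : c ≠ 0) : Mir 1 (fun t => a - XX (c * t)) := by
  refine ⟨Polynomial.C a * Polynomial.X - Polynomial.C c * Polynomial.X ^ 2 - Polynomial.C c⁻¹, ?_,
    fun t ht => ?_⟩
  · refine (Polynomial.natDegree_sub_le _ _).trans (max_le ((Polynomial.natDegree_sub_le _ _).trans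
      (max_le ?_ ?_)) ?_)
    · exact (Polynomial.natDegree_C_mul_le _ _).trans (by rw [Polynomial.natDegree_X]; omega)
    · exact (Polynomial.natDegree_C_mul_le _ _).trans (by rw [Polynomial.natDegree_X_pow])
    · rw [Polynomial.natDegree_C]
      exact Nat.zero_le _
  · rw [Polynomial.eval_sub, Polynomial.eval_sub, Polynomial.eval_mul, Polynomial.eval_mul,
      Polynomial.eval_pow, Polynomial.eval_X, Polynomial.eval_C, Polynomial.eval_C, Polynomial.eval_C]
    unfold XX
    field_simp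
    ring

theorem Al_upd (k : ℕ) (y : ℕ → ℂ) (t : ℂ) : Al k (Function.update y k t) = Al k y := by
  unfold Al
  refine Finset.image_congr fun i hi => ?_
  have h : i ≠ k := (Finset.mem_range.1 hi).ne
  show XX (Function.update y k t i) = XX (y i)
  rw [Function.update_of_ne h]

theorem Br_upd (k m : ℕ) (y : ℕ → ℂ) (t : ℂ) : Br k m (Function.update y k t) = Br k m y := by
  unfold Br
  refine Multiset.map_congr rfl fun i _ => ?_
  have h : i + (k + 1) ≠ k := by omega
  rw [Function.update_of_ne h]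

theorem Al_card (k : ℕ) (y : ℕ → ℂ) : (Al k y).val.card ≤ k := by
  unfold Al
  exact Finset.card_image_le.trans (Finset.card_range k).le

theorem Al_card_erase {k : ℕ} {y : ℕ → ℂ} {a : ℂ} (ha : a ∈ Al k y) :
    ((Al k y).erase a).val.card + 1 ≤ k := by
  have h := Finset.card_erase_add_one ha
  have h1 := Al_card k y
  change (((Al k y).erase a).card) + 1 ≤ k
  rw [h]
  exact h1

theorem Br_card (k m : ℕ) (y : ℕ → ℂ) : (Br k m y).card = m := by
  unfold Br
  rw [Multiset.card_map]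
  exact Finset.card_range m

theorem om2_ne : om ^ 2 ≠ 0 := pow_ne_zero 2 om_ne_zero

theorem RU_deg {S : Multiset ℂ → ℂ} (hS : SC S) {k m : ℕ} (hk : Odd k) (hm : Odd m) :
    ∀ y, Mir ((k + m) / 2) (fun t => RU S k m (Function.update y k t)) := by
  intro y
  obtain ⟨a, ha⟩ := hk
  obtain ⟨b, hb⟩ := hm
  have h1 := Al_card k y
  have h2 := Br_card k m y
  unfold RU
  have hTU : Mir ((k + m) / 2) (fun t => TU S (Al k y) (Br k m y) (XX t)) := by
    unfold TU
    have h3 : Mir ((k + m) / 2) (fun t => S (XX t ::ₘ ((Al k y).val + Br k m y))) :=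
      Mir.char hS _ (by rw [Multiset.card_add, h2]; omega)
    refine (h3.cmul (S (Al k y).val * S (Br k m y))).congr fun t _ => ?_
    ring
  have hFU : Mir ((k + m) / 2) (fun t => FU S (Al k y) (Br k m y) (XX t) (XX (om ^ 2 * t))) := by
    unfold FU
    refine Mir.sum _ fun c hc => ?_
    have h4 := Al_card_erase hc
    have h3 : Mir ((k + m) / 2 - 1) (fun t => S (XX t ::ₘ (((Al k y).erase c).val + Br k m y))) :=
      Mir.char hS _ (by rw [Multiset.card_add, h2]; omega)
    have h5 := ((Mir.lin c om2_ne).mul h3).cmul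
      (Wa (Al k y) c * S (c ::ₘ Br k m y) * S ((Al k y).erase c).val)
    refine (h5.mono (by omega)).congr fun t _ => ?_
    ring
  refine (((hTU.cmul (om ^ 2)).add (hFU.cmul om)).cmul ((-om ^ 2) ^ ((k + m) / 2 - 1))).congr fun t _ => ?_
  rw [Al_upd, Br_upd, Function.update_self]

theorem RLL_deg {S : Multiset ℂ → ℂ} (hS : SC S) {k : ℕ} (m : ℕ) (hk : Even k) :
    ∀ y, Mir (k / 2) (fun t => RLL S k m (Function.update y k t)) := by
  intro y
  obtain ⟨a, ha⟩ := hk
  have h1 := Al_card k y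
  have h2 := Br_card k m y
  unfold RLL
  have hTU : Mir (k / 2) (fun t => TLL S (Al k y) (Br k m y) (XX t)) := by
    unfold TLL
    have h3 : Mir (k / 2) (fun t => S (XX t ::ₘ (Al k y).val)) :=
      Mir.char hS _ (by omega)
    refine (h3.cmul (S ((Al k y).val + Br k m y) * S (Br k m y))).congr fun t _ => ?_
    ring
  have hFU : Mir (k / 2) (fun t => FLL S (Al k y) (Br k m y) (XX t) (XX (om * t))) := by
    unfold FLL
    refine Mir.sum _ fun c hc => ?_
    have h4 := Al_card_erase hc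
    have h3 : Mir (k / 2 - 1) (fun t => S (XX t ::ₘ ((Al k y).erase c).val)) :=
      Mir.char hS _ (by omega)
    have h5 := ((Mir.lin c om_ne_zero).mul h3).cmul
      (Wa (Al k y) c * S (((Al k y).erase c).val + Br k m y) * S (c ::ₘ Br k m y))
    refine (h5.mono (by omega)).congr fun t _ => ?_
    ring
  refine (((hTU.cmul (-om ^ 2)).add (hFU.cmul (-om))).cmul ((-om ^ 2) ^ ((k + m - 1) / 2))).congr fun t _ => ?_
  rw [Al_upd, Br_upd, Function.update_self]
  ring

theorem RLR_deg {S : Multiset ℂ → ℂ} (hS : SC S) (k : ℕ) {m : ℕ} (hm : Even m) :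
    ∀ y, Mir (m / 2) (fun t => RLR S k m (Function.update y k t)) := by
  intro y
  obtain ⟨a, ha⟩ := hm
  have h1 := Al_card k y
  have h2 := Br_card k m y
  unfold RLR
  have hTU : Mir (m / 2) (fun t => TLR S (Al k y) (Br k m y) (XX t)) := by
    unfold TLR
    have h3 : Mir (m / 2) (fun t => S (XX t ::ₘ Br k m y)) :=
      Mir.char hS _ (by omega)
    exact h3.cmul _
  have hFU : Mir (m / 2) (fun t => FLR S (Al k y) (Br k m y) (XX t)) := by
    unfold FLR
    refine Mir.sum _ fun c hc => ?_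
    have h3 : Mir (m / 2) (fun t => S (XX t ::ₘ c ::ₘ Br k m y)) :=
      Mir.char hS _ (by rw [Multiset.card_cons, h2]; omega)
    refine (h3.cmul (Wa (Al k y) c * S (((Al k y).erase c).val + Br k m y) *
      S ((Al k y).erase c).val)).congr fun t _ => ?_
    rw [Multiset.cons_swap c (XX t)]
    ring
  refine (((hTU.cmul (-om ^ 2)).add (hFU.cmul (-om))).cmul ((-om ^ 2) ^ ((k + m - 1) / 2))).congr fun t _ => ?_
  rw [Al_upd, Br_upd, Function.update_self]
  ring

end CF
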