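import Pool.Agent.Lib.MP_216314_pr.CF.AlgA
import Pool.Agent.Lib.MP_216314_pr.X.BF

/-!
# The right hand sides at fused points
-/

set_option autoImplicit false

noncomputable section

namespace CF

open Finset PX

theorem XX_om {u : ℂ} (_ : u ≠ 0) : XX (om * u) = om * u + om ^ 2 * u⁻¹ := by
  unfold XX
  rw [mul_inv, om_inv]

theorem XX_om2 {u : ℂ} (_ : u ≠ 0) : XX (om ^ 2 * u) = om ^ 2 * u + om * u⁻¹ := by
  unfold XX
  have h : (om ^ 2)⁻¹ = om := by
    apply inv_eq_of_mul_eq_one_right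
    linear_combination om_cube
  rw [mul_inv, h]

theorem roots_sum {u : ℂ} (hu : u ≠ 0) : XX u + XX (om * u) + XX (om ^ 2 * u) = 0 := by
  rw [XX_om hu, XX_om2 hu]
  unfold XX
  linear_combination (u + u⁻¹) * om_eq

theorem roots_pair {u : ℂ} (hu : u ≠ 0) :
    XX u * XX (om * u) + XX (om * u) * XX (om ^ 2 * u) + XX (om ^ 2 * u) * XX u = -3 := by
  rw [XX_om hu, XX_om2 hu]
  unfold XX
  have h : u * u⁻¹ = 1 := mul_inv_cancel₀ hu
  have h3 := om_cube
  have h1 := om_eq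
  have e : (u + u⁻¹) * (om * u + om ^ 2 * u⁻¹) + (om * u + om ^ 2 * u⁻¹) * (om ^ 2 * u + om * u⁻¹) +
      (om ^ 2 * u + om * u⁻¹) * (u + u⁻¹) =
      (om + om ^ 3 + om ^ 2) * u ^ 2 + (om ^ 2 + om ^ 3 + om) * (u⁻¹) ^ 2 +
        (2 * om + 3 * om ^ 2 + om * om ^ 3) * (u * u⁻¹) := by ring
  rw [e, h, h3]
  linear_combination (u ^ 2 + u⁻¹ ^ 2 + 3) * h1

theorem XX_om_inv {u : ℂ} (_ : u ≠ 0) : XX (om ^ 2 * u⁻¹) = XX (om * u) := by
  rw [← XX_inv (om * u)]
  congr 1
  rw [mul_inv, om_inv]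

theorem om3_mul (u : ℂ) : om ^ 2 * (om * u) = u := by
  linear_combination u * om_cube

theorem om3_mul' (u : ℂ) : om * (om ^ 2 * u) = u := by
  linear_combination u * om_cube

theorem om4_mul (u : ℂ) : om ^ 2 * (om ^ 2 * u) = om * u := by
  linear_combination om * u * om_cube

/-- distinct values -/
theorem GT.ne {k L : ℕ} {y : ℕ → ℂ} (h : GT k L y) {i j : ℕ} (hik : i ≠ k) (hi : i < L) (hjk : j ≠ k)
    (hj : j < L) (hij : i ≠ j) : XX (y i) ≠ XX (y j) := by
  intro heq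
  obtain ⟨h1, -, h3⟩ := h
  obtain ⟨h4, h5⟩ := h3 i j hik hi hjk hj hij
  rcases (XX_eq_iff (h1 i hi) (h1 j hj)).mp heq with h6 | h6
  · exact h4 (by rw [h6])
  · exact h5 (by rw [← mul_pow, h6, one_pow])

theorem Al_succ (a : ℕ) (y : ℕ → ℂ) : Al (a + 1) y = insert (XX (y a)) (Al a y) := by
  unfold Al
  rw [Finset.range_add_one, Finset.image_insert]

theorem Al_congr {k : ℕ} {y y' : ℕ → ℂ} (h : ∀ i, i < k → y i = y' i) : Al k y = Al k y' := by
  unfold Al
  refine Finset.image_congr fun i hi => ?_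
  show XX (y i) = XX (y' i)
  rw [h i (Finset.mem_range.1 hi)]

theorem Al_rv {a k : ℕ} (h : a ≤ k) (y : ℕ → ℂ) : Al a (rv k y) = Al a y :=
  Al_congr fun i hi => if_pos (by omega)

theorem Al_notMem {a k L : ℕ} {y : ℕ → ℂ} (h : GT k L y) (hak : a < k) (haL : a < L) :
    XX (y a) ∉ Al a y := by
  intro h1
  unfold Al at h1
  obtain ⟨i, hi, hia⟩ := Finset.mem_image.1 h1
  have hi' := Finset.mem_range.1 hi
  exact h.ne (by omega) (by omega) (by omega) haL (by omega) hia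

theorem Al_val {a k L : ℕ} {y : ℕ → ℂ} (h : GT k L y) (hak : a ≤ k) (haL : a ≤ L) :
    (Al a y).val = (range a).val.map fun i => XX (y i) := by
  unfold Al
  refine Finset.image_val_of_injOn fun i hi j hj hij => ?_
  have hi' := Finset.mem_range.1 (Finset.mem_coe.1 hi)
  have hj' := Finset.mem_range.1 (Finset.mem_coe.1 hj)
  by_contra hne
  exact h.ne (by omega) (by omega) (by omega) (by omega) hne hij

theorem Br_rv (k m : ℕ) (y : ℕ → ℂ) : Br k m (rv (k + 1) y) = Br (k + 1) m y := by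
  unfold Br
  refine Multiset.map_congr rfl fun i _ => ?_
  unfold rv
  rw [if_neg (by omega)]
  congr 2

theorem Br_rv' (k m : ℕ) (y : ℕ → ℂ) : Br k m (rv k y) = Br (k + 1) m y := by
  unfold Br
  refine Multiset.map_congr rfl fun i _ => ?_
  unfold rv
  rw [if_neg (by omega)]
  congr 2

theorem Br_succ (k b : ℕ) (y : ℕ → ℂ) : Br k (b + 1) y = XX (y (k + 1)) ::ₘ Br k b (rv k y) := by
  rw [Br_rv']
  unfold Br
  have h : (range (b + 1)).val = 0 ::ₘ (range b).val.map (fun i => i + 1) := by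
    have h1 : range (b + 1) = insert 0 ((range b).image fun i => i + 1) := by
      ext x
      rw [Finset.mem_insert, Finset.mem_image, Finset.mem_range]
      constructor
      · intro hx
        rcases Nat.eq_zero_or_pos x with h0 | h0
        · exact Or.inl h0
        · exact Or.inr ⟨x - 1, Finset.mem_range.2 (by omega), by omega⟩
      · rintro (h0 | ⟨i, hi, hix⟩)
        · omega
        · have := Finset.mem_range.1 hi
          omega
    have h2 : (0 : ℕ) ∉ (range b).image fun i => i + 1 := by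
      intro h0
      obtain ⟨i, -, hi⟩ := Finset.mem_image.1 h0
      omega
    rw [h1, Finset.insert_val_of_notMem h2, Finset.image_val_of_injOn]
    intro i _ j _ hij
    exact Nat.succ_injective hij
  rw [h, Multiset.map_cons, Multiset.map_map, zero_add]
  congr 1
  refine Multiset.map_congr rfl fun i _ => ?_
  show XX (y (i + 1 + (k + 1))) = XX (y (i + (k + 1 + 1)))
  congr 2
  ring

theorem prod_mp (n : ℕ) (f : ℕ → ℂ) (c : ℂ) :
    ∏ j ∈ range n, (c - f j) = (-1) ^ n * mp ((range n).val.map f) c := by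
  unfold mp
  rw [Multiset.map_map]
  change _ = (-1) ^ n * ∏ j ∈ range n, (f j - c)
  have h : ∏ j ∈ range n, (c - f j) = ∏ j ∈ range n, (-1) * (f j - c) :=
    Finset.prod_congr rfl fun j _ => by ring
  rw [h, Finset.prod_mul_distrib, Finset.prod_const, Finset.card_range]

/-- the first `a` entries and the entries after the removed pair -/
theorem map_dl (a m : ℕ) (y : ℕ → ℂ) : ((range (a + m)).val.map fun i => XX (dl a y i)) =
    ((range a).val.map fun i => XX (y i)) + Br (a + 1) m y := by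
  induction m with
  | zero =>
    have h : Br (a + 1) 0 y = 0 := by
      unfold Br
      rfl
    rw [h, add_zero, add_zero]
    refine Multiset.map_congr rfl fun i hi => ?_
    rw [Finset.mem_val, Finset.mem_range] at hi
    unfold dl
    rw [if_pos hi]
  | succ m ih =>
    have h : Br (a + 1) (m + 1) y = XX (y (m + (a + 1 + 1))) ::ₘ Br (a + 1) m y := by
      unfold Br
      rw [Finset.range_val, Finset.range_val, Multiset.range_succ, Multiset.map_cons]
    rw [h, Multiset.add_cons, ← ih]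
    have h2 : a + (m + 1) = (a + m) + 1 := by ring
    rw [h2, Finset.range_val, Finset.range_val, Multiset.range_succ, Multiset.map_cons]
    congr 1
    unfold dl
    rw [if_neg (by omega)]
    congr 2
    ring

theorem Kf_dl {a m k L : ℕ} {y : ℕ → ℂ} (h : GT k L y) (hak : a ≤ k) (haL : a ≤ L) (u : ℂ) :
    Kf (a + m) u (dl a y) = (-1) ^ (a + m) * mp ((Al a y).val + Br (a + 1) m y) (XX (om ^ 2 * u)) := by
  unfold Kf
  rw [prod_mp, map_dl, Al_val h hak haL]

theorem Kf_left {a k L : ℕ} {y : ℕ → ℂ} (h : GT k L y) (hak : a ≤ k) (haL : a ≤ L) {u : ℂ} (hu : u ≠ 0) :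
    Kf a u⁻¹ (ivs y) = (-1) ^ a * mp (Al a y).val (XX (om * u)) := by
  unfold Kf
  have h1 : ∏ j ∈ range a, (XX (om ^ 2 * u⁻¹) - XX (ivs y j)) = ∏ j ∈ range a, (XX (om * u) - XX (y j)) := by
    refine Finset.prod_congr rfl fun j _ => ?_
    rw [XX_om_inv hu]
    congr 1
    exact XX_inv _
  rw [h1, prod_mp, Al_val h hak haL]

theorem Kf_right (k b : ℕ) (y : ℕ → ℂ) {u : ℂ} (hu : u ≠ 0) :
    Kf b u⁻¹ (ivs (sh (k + 2) y)) = (-1) ^ b * mp (Br (k + 1) b y) (XX (om * u)) := by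
  unfold Kf
  have h1 : ∏ j ∈ range b, (XX (om ^ 2 * u⁻¹) - XX (ivs (sh (k + 2) y) j)) =
      ∏ j ∈ range b, (XX (om * u) - XX (y (j + (k + 1 + 1)))) := by
    refine Finset.prod_congr rfl fun j _ => ?_
    rw [XX_om_inv hu]
    congr 1
    exact XX_inv _
  rw [h1, prod_mp]
  rfl

theorem RU_left {S : Multiset ℂ → ℂ} (hS : SC S) {a m : ℕ} (ha : Even a) (hm : Odd m) {y : ℕ → ℂ}
    (hy : GT (a + 1) (a + 1 + m + 1) y) (h : y (a + 1) = om * y a) :
    RU S (a + 1) m y = Kf (a + m) (y a) (dl a y) * RLL S a m (rv (a + 1) y) := by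
  have hu : y a ≠ 0 := hy.1 a (by omega)
  obtain ⟨p, hp⟩ := ha
  obtain ⟨q, hq⟩ := hm
  have hA : XX (y a) ∉ Al a y := Al_notMem hy (by omega) (by omega)
  have e1 : rv (a + 1) y a = y a := if_pos (by omega)
  have h1 : XX (om * y a) + XX (y a) + XX (om ^ 2 * y a) = 0 := by
    linear_combination roots_sum hu
  have h2 : XX (om * y a) * XX (y a) + XX (y a) * XX (om ^ 2 * y a) + XX (om ^ 2 * y a) * XX (om * y a) = -3 := by
    linear_combination roots_pair hu
  have hs : (-1 : ℂ) ^ (a + m) = -1 := Odd.neg_one_pow ⟨p + q, by omega⟩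
  have hexp : (a + 1 + m) / 2 - 1 = (a + m - 1) / 2 := by omega
  unfold RU RLL
  rw [Kf_dl hy (by omega) (by omega), hs, e1, Al_rv (by omega), Br_rv, h, om3_mul, Al_succ,
    TU_left hS _ hA h1 h2, FU_left hS _ hA h1 h2, hexp]
  ring

theorem RU_right {S : Multiset ℂ → ℂ} (hS : SC S) {k b : ℕ} (hk : Odd k) (hb : Even b) {y : ℕ → ℂ}
    (hy : GT k (k + (b + 1) + 1) y) (h : y (k + 1) = om * y k) :
    RU S k (b + 1) y = Kf (k + b) (y k) (dl k y) * RLR S k b (rv k y) := by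
  have hu : y k ≠ 0 := hy.1 k (by omega)
  obtain ⟨p, hp⟩ := hk
  obtain ⟨q, hq⟩ := hb
  have e1 : rv k y k = y (k + 1) := if_neg (by omega)
  have h1 : XX (y k) + XX (om * y k) + XX (om ^ 2 * y k) = 0 := roots_sum hu
  have h2 : XX (y k) * XX (om * y k) + XX (om * y k) * XX (om ^ 2 * y k) + XX (om ^ 2 * y k) * XX (y k) = -3 :=
    roots_pair hu
  have hs : (-1 : ℂ) ^ (k + b) = -1 := Odd.neg_one_pow ⟨p + q, by omega⟩
  have hexp : (k + (b + 1)) / 2 - 1 = (k + b - 1) / 2 := by omega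
  unfold RU RLR
  rw [Kf_dl hy le_rfl (by omega), hs, e1, Al_rv le_rfl, Br_succ, Br_rv', h,
    TU_right hS _ _ h1 h2, FU_right hS _ _ h1 h2, hexp]
  ring

theorem RLL_fus {S : Multiset ℂ → ℂ} (hS : SC S) {a m : ℕ} (ha : Odd a) (hm : Odd m) {y : ℕ → ℂ}
    (hy : GT (a + 1) (a + 1 + m + 1) y) (h : y (a + 1) = om ^ 2 * y a) :
    RLL S (a + 1) m y = -om ^ 2 * Kf a (y a)⁻¹ (ivs y) * RU S a m (rv (a + 1) y) := by
  have hu : y a ≠ 0 := hy.1 a (by omega)
  obtain ⟨p, hp⟩ := ha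
  obtain ⟨q, hq⟩ := hm
  have hA : XX (y a) ∉ Al a y := Al_notMem hy (by omega) (by omega)
  have e1 : rv (a + 1) y a = y a := if_pos (by omega)
  have h1 : XX (om ^ 2 * y a) + XX (y a) + XX (om * y a) = 0 := by
    linear_combination roots_sum hu
  have h2 : XX (om ^ 2 * y a) * XX (y a) + XX (y a) * XX (om * y a) + XX (om * y a) * XX (om ^ 2 * y a) = -3 := by
    linear_combination roots_pair hu
  have hs : (-1 : ℂ) ^ a = -1 := Odd.neg_one_pow ⟨p, by omega⟩
  have hexp : (a + 1 + m - 1) / 2 = ((a + m) / 2 - 1) + 1 := by omega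
  unfold RU RLL
  rw [Kf_left hy (by omega) (by omega) hu, hs, e1, Al_rv (by omega), Br_rv, h, om3_mul', Al_succ,
    TLL_fus hS _ hA h1 h2, FLL_fus hS _ hA h1 h2, hexp, pow_succ]
  ring

theorem RLR_fus {S : Multiset ℂ → ℂ} (hS : SC S) {k b : ℕ} (hk : Odd k) (hb : Odd b) {y : ℕ → ℂ}
    (hy : GT k (k + (b + 1) + 1) y) (h : y (k + 1) = om ^ 2 * y k) :
    RLR S k (b + 1) y = -om ^ 2 * Kf b (y k)⁻¹ (ivs (sh (k + 2) y)) * RU S k b (rv k y) := by
  have hu : y k ≠ 0 := hy.1 k (by omega)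
  obtain ⟨p, hp⟩ := hk
  obtain ⟨q, hq⟩ := hb
  have e1 : rv k y k = y (k + 1) := if_neg (by omega)
  have h1 : XX (y k) + XX (om ^ 2 * y k) + XX (om * y k) = 0 := by
    linear_combination roots_sum hu
  have h2 : XX (y k) * XX (om ^ 2 * y k) + XX (om ^ 2 * y k) * XX (om * y k) + XX (om * y k) * XX (y k) = -3 := by
    linear_combination roots_pair hu
  have hs : (-1 : ℂ) ^ b = -1 := Odd.neg_one_pow ⟨q, by omega⟩
  have hexp : (k + (b + 1) - 1) / 2 = ((k + b) / 2 - 1) + 1 := by omega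
  unfold RU RLR
  rw [Kf_right k b y hu, hs, e1, Al_rv le_rfl, Br_succ, Br_rv', h, om4_mul,
    TLR_fus hS _ _ h1 h2, FLR_fus hS _ _ h1 h2, hexp, pow_succ]
  ring

end CF
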