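import Pool.Agent.Lib.MP_216314_pr.CF.ConfDef

/-! CF/Conf: the explicit conformal map from the upper half plane onto the slit strip
(Cardy's formula, slit strip geometry). -/

open Complex Set Filter Topology

namespace CFM

/-- the numerator -/
noncomputable def gg (a : ℝ) (w : ℂ) : ℂ :=
  (1 - (a : ℂ)) * Complex.log w + (a : ℂ) * Complex.log (w - 1)

lemma ph_eq (a : ℝ) (w : ℂ) :
    ph a w = (gg a w - (cc a : ℂ)) / ((Real.pi : ℂ) * (1 + Complex.I)) := rfl

lemma gg_re (a : ℝ) (w : ℂ) :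
    (gg a w).re = (1 - a) * Real.log ‖w‖ + a * Real.log ‖w - 1‖ := by
  have h1 : (1 - (a : ℂ)) = ((1 - a : ℝ) : ℂ) := by push_cast; ring
  rw [gg, h1, Complex.add_re, Complex.re_ofReal_mul, Complex.re_ofReal_mul, Complex.log_re,
    Complex.log_re]

lemma gg_im (a : ℝ) (w : ℂ) :
    (gg a w).im = (1 - a) * Complex.arg w + a * Complex.arg (w - 1) := by
  have h1 : (1 - (a : ℂ)) = ((1 - a : ℝ) : ℂ) := by push_cast; ring
  rw [gg, h1, Complex.add_im, Complex.im_ofReal_mul, Complex.im_ofReal_mul, Complex.log_im,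
    Complex.log_im]

lemma one_add_I_ne : (1 + Complex.I) ≠ 0 := by
  intro h
  have := congrArg Complex.re h
  simp at this

lemma den_ne : ((Real.pi : ℂ) * (1 + Complex.I)) ≠ 0 :=
  mul_ne_zero (by exact_mod_cast Real.pi_ne_zero) one_add_I_ne

/-- real part minus imaginary part of `ph` -/
lemma ph_sub (a : ℝ) (w : ℂ) :
    (ph a w).re - (ph a w).im = ((gg a w).re - cc a) / Real.pi := by
  have hpi : Real.pi ≠ 0 := Real.pi_ne_zero
  have h : gg a w - (cc a : ℂ) = ((Real.pi : ℂ) * (1 + Complex.I)) * ph a w := by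
    rw [ph_eq, mul_div_cancel₀ _ den_ne]
  have h2 := congrArg Complex.re h
  rw [mul_assoc, Complex.re_ofReal_mul] at h2
  simp only [Complex.sub_re, Complex.ofReal_re, Complex.mul_re, Complex.add_re, Complex.one_re,
    Complex.I_re, Complex.add_im, Complex.one_im, Complex.I_im] at h2
  rw [h2]
  field_simp
  ring

lemma ph_add (a : ℝ) (w : ℂ) :
    (ph a w).re + (ph a w).im = (gg a w).im / Real.pi := by
  have hpi : Real.pi ≠ 0 := Real.pi_ne_zero
  have h : gg a w - (cc a : ℂ) = ((Real.pi : ℂ) * (1 + Complex.I)) * ph a w := by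
    rw [ph_eq, mul_div_cancel₀ _ den_ne]
  have h2 := congrArg Complex.im h
  rw [mul_assoc, Complex.im_ofReal_mul] at h2
  simp only [Complex.sub_im, Complex.ofReal_im, Complex.mul_im, Complex.add_re, Complex.one_re,
    Complex.I_re, Complex.add_im, Complex.one_im, Complex.I_im, sub_zero] at h2
  rw [h2]
  field_simp
  ring

lemma mem_slit {w : ℂ} (h : 0 < w.im) : w ∈ Complex.slitPlane :=
  Complex.mem_slitPlane_iff.2 (Or.inr h.ne')

lemma sub_one_im (w : ℂ) : (w - 1).im = w.im := by simp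

lemma hasDerivAt_gg (a : ℝ) {w : ℂ} (h : 0 < w.im) :
    HasDerivAt (gg a) ((1 - (a : ℂ)) * w⁻¹ + (a : ℂ) * (w - 1)⁻¹) w := by
  have h1 : HasDerivAt Complex.log w⁻¹ w := Complex.hasDerivAt_log (mem_slit h)
  have h2 : HasDerivAt (fun z : ℂ => Complex.log (z - 1)) ((w - 1)⁻¹) w := by
    have h3 : HasDerivAt (fun z : ℂ => z - 1) 1 w := (hasDerivAt_id w).sub_const 1
    have h4 := h3.clog (mem_slit (by rw [sub_one_im]; exact h))
    simpa [one_div] using h4
  exact (h1.const_mul (1 - (a : ℂ))).add (h2.const_mul (a : ℂ))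

/-- (1) -/
theorem ph_diff (a : ℝ) : DifferentiableOn ℂ (ph a) {w : ℂ | 0 < w.im} := by
  intro w hw
  have h1 : DifferentiableAt ℂ (gg a) w := (hasDerivAt_gg a hw).differentiableAt
  have h2 : DifferentiableAt ℂ (fun w => (gg a w - (cc a : ℂ)) /
      ((Real.pi : ℂ) * (1 + Complex.I))) w := (h1.sub_const _).div_const _
  exact h2.differentiableWithinAt

/-! ### arguments -/

lemma arg_pos {w : ℂ} (h : 0 < w.im) : 0 < Complex.arg w := by
  rcases (Complex.arg_nonneg_iff.2 h.le).lt_or_eq with h1 | h1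
  · exact h1
  · exfalso
    have := (Complex.arg_eq_zero_iff.1 h1.symm).2
    linarith

lemma arg_lt {w : ℂ} (h : 0 < w.im) : Complex.arg w < Real.pi :=
  Complex.arg_lt_pi_iff.2 (Or.inr h.ne')

lemma gg_im_pos {a : ℝ} (h0 : 0 < a) (h1 : a < 1) {w : ℂ} (h : 0 < w.im) :
    0 < (gg a w).im := by
  rw [gg_im]
  have e1 := arg_pos h
  have e2 : 0 < Complex.arg (w - 1) := arg_pos (by rw [sub_one_im]; exact h)
  have e3 : 0 < 1 - a := by linarith
  positivity

lemma gg_im_lt {a : ℝ} (h0 : 0 < a) (h1 : a < 1) {w : ℂ} (h : 0 < w.im) :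
    (gg a w).im < Real.pi := by
  rw [gg_im]
  have e1 := arg_lt h
  have e2 : Complex.arg (w - 1) < Real.pi := arg_lt (by rw [sub_one_im]; exact h)
  have e3 : 0 < 1 - a := by linarith
  nlinarith [mul_pos e3 (sub_pos.2 e1), mul_pos h0 (sub_pos.2 e2)]

/-! ### injectivity -/

lemma inv_im_neg {w : ℂ} (h : 0 < w.im) : (w⁻¹).im < 0 := by
  have hw : w ≠ 0 := by
    intro h0
    rw [h0] at h
    simp at h
  rw [Complex.inv_im]
  have : 0 < Complex.normSq w := Complex.normSq_pos.2 hw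
  exact div_neg_of_neg_of_pos (by linarith) this

lemma deriv_im_neg {a : ℝ} (h0 : 0 < a) (h1 : a < 1) {w : ℂ} (h : 0 < w.im) :
    ((1 - (a : ℂ)) * w⁻¹ + (a : ℂ) * (w - 1)⁻¹).im < 0 := by
  have h2 : (1 - (a : ℂ)) = ((1 - a : ℝ) : ℂ) := by push_cast; ring
  rw [h2, Complex.add_im, Complex.im_ofReal_mul, Complex.im_ofReal_mul]
  have e1 := inv_im_neg h
  have e2 : ((w - 1)⁻¹).im < 0 := inv_im_neg (by rw [sub_one_im]; exact h)
  have e3 : 0 < 1 - a := by linarith
  nlinarith [mul_pos e3 (neg_pos.2 e1), mul_pos h0 (neg_pos.2 e2)]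

lemma gg_inj {a : ℝ} (h0 : 0 < a) (h1 : a < 1) : Set.InjOn (gg a) {w : ℂ | 0 < w.im} := by
  intro w1 hw1 w2 hw2 he
  by_contra hne
  have hd : w2 - w1 ≠ 0 := sub_ne_zero.2 (fun h => hne h.symm)
  have hw1 : 0 < w1.im := hw1
  have hw2 : 0 < w2.im := hw2
  have him : ∀ t ∈ Set.Icc (0 : ℝ) 1, 0 < (w1 + (t : ℂ) * (w2 - w1)).im := by
    intro t ht
    have e : (w1 + (t : ℂ) * (w2 - w1)).im = (1 - t) * w1.im + t * w2.im := by
      rw [Complex.add_im, Complex.im_ofReal_mul, Complex.sub_im]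
      ring
    rw [e]
    rcases ht with ⟨t0, t1⟩
    rcases t0.lt_or_eq with h | h
    · have : 0 < t * w2.im := mul_pos h hw2
      have : 0 ≤ (1 - t) * w1.im := mul_nonneg (by linarith) hw1.le
      linarith
    · rw [← h]; simpa using hw1
  set G : ℝ → ℂ := fun t => gg a (w1 + (t : ℂ) * (w2 - w1)) * (starRingEnd ℂ) (w2 - w1) with hG
  have hder : ∀ t ∈ Set.Icc (0 : ℝ) 1, HasDerivAt (fun t : ℝ => (G t).im)
      (Complex.normSq (w2 - w1) * ((1 - (a : ℂ)) * (w1 + (t : ℂ) * (w2 - w1))⁻¹ +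
        (a : ℂ) * ((w1 + (t : ℂ) * (w2 - w1)) - 1)⁻¹).im) t := by
    intro t ht
    have e1 : HasDerivAt (fun t : ℝ => w1 + (t : ℂ) * (w2 - w1)) (w2 - w1) t := by
      have e2 : HasDerivAt (fun t : ℝ => (t : ℂ)) 1 t := Complex.ofRealCLM.hasDerivAt
      have e3 := (e2.mul_const (w2 - w1)).const_add w1
      simpa using e3
    have e4 := (hasDerivAt_gg a (him t ht)).comp t e1
    have e5 := e4.mul_const ((starRingEnd ℂ) (w2 - w1))
    have e6 : HasDerivAt (fun t : ℝ => (G t).im) (((1 - (a : ℂ)) * (w1 + (t : ℂ) * (w2 - w1))⁻¹ +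
        (a : ℂ) * ((w1 + (t : ℂ) * (w2 - w1)) - 1)⁻¹) * (w2 - w1) *
          (starRingEnd ℂ) (w2 - w1)).im t := by
      have e7 := (Complex.imCLM.hasFDerivAt (x := G t)).comp_hasDerivAt t e5
      exact e7
    have e8 : (((1 - (a : ℂ)) * (w1 + (t : ℂ) * (w2 - w1))⁻¹ +
        (a : ℂ) * ((w1 + (t : ℂ) * (w2 - w1)) - 1)⁻¹) * (w2 - w1) *
          (starRingEnd ℂ) (w2 - w1)).im = Complex.normSq (w2 - w1) *
          ((1 - (a : ℂ)) * (w1 + (t : ℂ) * (w2 - w1))⁻¹ +
        (a : ℂ) * ((w1 + (t : ℂ) * (w2 - w1)) - 1)⁻¹).im := by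
      rw [mul_assoc, Complex.mul_conj, mul_comm, Complex.im_ofReal_mul]
    rw [← e8]
    exact e6
  have hcont : ContinuousOn (fun t : ℝ => (G t).im) (Set.Icc 0 1) :=
    fun t ht => (hder t ht).continuousAt.continuousWithinAt
  have hends : (fun t : ℝ => (G t).im) 0 = (fun t : ℝ => (G t).im) 1 := by
    simp only [hG]
    have : (w1 + ((1 : ℝ) : ℂ) * (w2 - w1)) = w2 := by push_cast; ring
    rw [this]
    have : (w1 + ((0 : ℝ) : ℂ) * (w2 - w1)) = w1 := by push_cast; ring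
    rw [this, he]
  obtain ⟨c, hc, hc0⟩ := exists_hasDerivAt_eq_zero zero_lt_one hcont hends
    (fun t ht => hder t (Set.Ioo_subset_Icc_self ht))
  have hn : 0 < Complex.normSq (w2 - w1) := Complex.normSq_pos.2 hd
  have hneg := deriv_im_neg h0 h1 (him c (Set.Ioo_subset_Icc_self hc))
  have := mul_neg_of_pos_of_neg hn hneg
  linarith

/-! ### polar description -/

lemma polar_im (w : ℂ) : ‖w‖ * Real.sin (Complex.arg w) = w.im := by
  rw [Complex.norm_mul_sin_arg]

lemma polar_re (w : ℂ) : ‖w‖ * Real.cos (Complex.arg w) = w.re := by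
  rw [Complex.norm_mul_cos_arg]

/-- concavity of sine at 0 -/
lemma sin_mul_gt {c t : ℝ} (hc0 : 0 < c) (hc1 : c < 1) (ht0 : 0 < t) (ht1 : t < Real.pi) :
    c * Real.sin t < Real.sin (c * t) := by
  have h := strictConcaveOn_sin_Icc.2 (⟨le_rfl, Real.pi_pos.le⟩ : (0 : ℝ) ∈ Set.Icc 0 Real.pi)
    (⟨ht0.le, ht1.le⟩ : t ∈ Set.Icc 0 Real.pi) ht0.ne (show 0 < 1 - c by linarith) hc0 (by ring)
  simpa using h

/-- on the level line of the slit, the image is beyond the tip -/
lemma gg_re_gt {a : ℝ} (h0 : 0 < a) (h1 : a < 1) {w : ℂ} (h : 0 < w.im)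
    (him : (gg a w).im = a * Real.pi) : cc a < (gg a w).re := by
  rw [gg_re, cc]
  rw [gg_im] at him
  have hA0 := arg_pos h
  have hA1 := arg_lt h
  have hB0 : 0 < Complex.arg (w - 1) := arg_pos (by rw [sub_one_im]; exact h)
  have hB1 : Complex.arg (w - 1) < Real.pi := arg_lt (by rw [sub_one_im]; exact h)
  have p1 := polar_im w
  have p2 := polar_re w
  have p3 := polar_im (w - 1)
  have p4 := polar_re (w - 1)
  rw [sub_one_im] at p3
  have p5 : (w - 1).re = w.re - 1 := by simp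
  rw [p5] at p4
  set A := Complex.arg w with hA
  set B := Complex.arg (w - 1) with hB
  set r := ‖w‖ with hr
  set s := ‖w - 1‖ with hs
  set t := A + (Real.pi - B) with ht
  have e1 : A = a * t := by
    rw [ht]; nlinarith
  have e2 : Real.pi - B = (1 - a) * t := by
    rw [ht]; nlinarith
  have ht0 : 0 < t := by rw [ht]; linarith
  have sB : Real.sin B = Real.sin ((1 - a) * t) := by
    rw [← e2, Real.sin_pi_sub]
  have cB : Real.cos B = - Real.cos ((1 - a) * t) := by
    rw [← e2, Real.cos_pi_sub, neg_neg]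
  rw [e1] at p1 p2
  rw [sB] at p3
  rw [cB] at p4
  have st : Real.sin t = Real.sin (a * t) * Real.cos ((1 - a) * t) +
      Real.cos (a * t) * Real.sin ((1 - a) * t) := by
    rw [← Real.sin_add]; congr 1; ring
  have q1 : r * Real.sin (a * t) = s * Real.sin ((1 - a) * t) := by rw [p1, p3]
  have q2 : r * Real.cos (a * t) + s * Real.cos ((1 - a) * t) = 1 := by linarith
  have q3 : r * Real.sin t = Real.sin ((1 - a) * t) := by
    rw [st]
    linear_combination Real.cos ((1 - a) * t) * q1 + Real.sin ((1 - a) * t) * q2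
  have q4 : s * Real.sin t = Real.sin (a * t) := by
    rw [st]
    linear_combination (- Real.cos (a * t)) * q1 + Real.sin (a * t) * q2
  have hr0 : 0 < r := by
    rw [hr, norm_pos_iff]; intro h'; rw [h'] at h; simp at h
  have hs0 : 0 < s := by
    rw [hs, norm_pos_iff]; intro h'
    have h6 : (w - 1).im = 0 := by rw [h']; simp
    rw [sub_one_im] at h6; linarith
  have hsat : 0 < Real.sin (a * t) := by
    rw [← e1]; exact Real.sin_pos_of_pos_of_lt_pi hA0 hA1
  have hst : 0 < Real.sin t := by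
    by_contra hcon
    push Not at hcon
    have := mul_nonpos_of_nonneg_of_nonpos hs0.le hcon
    linarith
  have ht1 : t < Real.pi := by
    by_contra hcon
    push Not at hcon
    have h7 : Real.sin (t - Real.pi) ≤ 0 := by
      have : Real.sin (t - Real.pi) = - Real.sin t := Real.sin_sub_pi t
      linarith
    have h8 : 0 ≤ t - Real.pi := by linarith
    have h9 : t - Real.pi ≤ Real.pi := by rw [ht]; linarith
    have h10 := Real.sin_nonneg_of_nonneg_of_le_pi h8 h9
    have : Real.sin (t - Real.pi) = - Real.sin t := Real.sin_sub_pi t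
    linarith
  have g1 : 1 - a < r := by
    have := sin_mul_gt (c := 1 - a) (by linarith) (by linarith) ht0 ht1
    rw [← q3] at this
    exact lt_of_mul_lt_mul_right this hst.le
  have g2 : a < s := by
    have := sin_mul_gt (c := a) h0 h1 ht0 ht1
    rw [← q4] at this
    exact lt_of_mul_lt_mul_right this hst.le
  have l1 : Real.log (1 - a) < Real.log r := Real.log_lt_log (by linarith) g1
  have l2 : Real.log a < Real.log s := Real.log_lt_log h0 g2
  have m1 := mul_lt_mul_of_pos_left l1 (by linarith : (0 : ℝ) < 1 - a)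
  have m2 := mul_lt_mul_of_pos_left l2 h0
  linarith

/-- the image is in the slit strip -/
lemma ph_maps {a : ℝ} (h0 : 0 < a) (h1 : a < 1) :
    Set.MapsTo (ph a) {w : ℂ | 0 < w.im} (Om a) := by
  intro w hw
  have hw : 0 < w.im := hw
  have hpi := Real.pi_pos
  refine ⟨?_, ?_, ?_⟩
  · rw [ph_add]
    exact div_pos (gg_im_pos h0 h1 hw) hpi
  · rw [ph_add, div_lt_one hpi]
    exact gg_im_lt h0 h1 hw
  · rintro ⟨e1, e2⟩
    rw [ph_add, div_eq_iff hpi.ne'] at e1
    have e3 := gg_re_gt h0 h1 hw e1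
    have e4 := ph_sub a w
    have e5 : 0 < ((gg a w).re - cc a) / Real.pi := div_pos (by linarith) hpi
    linarith


/-! ### surjectivity -/

/-- the real part of `gg` along the level line `v` -/
noncomputable def FF (a v δ : ℝ) : ℝ :=
  (1 - a) * Real.log (Real.sin (v + (1 - a) * δ)) + a * Real.log (Real.sin (v - a * δ)) -
    Real.log (Real.sin δ)

/-- the point with given polar angles -/
lemma point {a v δ : ℝ} (h0 : 0 < a) (h1 : a < 1) (hδ0 : 0 < δ) (hA : 0 < v - a * δ)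
    (hB : v + (1 - a) * δ < Real.pi) :
    ∃ w : ℂ, 0 < w.im ∧ (gg a w).re = FF a v δ ∧ (gg a w).im = v := by
  set A := v - a * δ with hAd
  set B := v + (1 - a) * δ with hBd
  have hAB : B - A = δ := by rw [hAd, hBd]; ring
  have hA1 : A < Real.pi := by linarith
  have hB0 : 0 < B := by linarith
  have hδ1 : δ < Real.pi := by linarith
  have sA : 0 < Real.sin A := Real.sin_pos_of_pos_of_lt_pi hA hA1
  have sB : 0 < Real.sin B := Real.sin_pos_of_pos_of_lt_pi hB0 hB
  have sD : 0 < Real.sin δ := Real.sin_pos_of_pos_of_lt_pi hδ0 hδ1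
  set r := Real.sin B / Real.sin δ with hr
  set s := Real.sin A / Real.sin δ with hs
  have hr0 : 0 < r := div_pos sB sD
  have hs0 : 0 < s := div_pos sA sD
  set w : ℂ := (r : ℂ) * (Complex.cos (A : ℂ) + Complex.sin (A : ℂ) * Complex.I) with hw
  have key : Real.sin δ = Real.sin B * Real.cos A - Real.cos B * Real.sin A := by
    rw [← hAB, Real.sin_sub]
  have hwre : w.re = r * Real.cos A := by
    rw [hw, Complex.re_ofReal_mul, ← Complex.ofReal_cos, ← Complex.ofReal_sin]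
    simp only [Complex.add_re, Complex.ofReal_re, Complex.mul_re, Complex.I_re,
      Complex.ofReal_im, Complex.I_im]
    ring
  have hwim : w.im = r * Real.sin A := by
    rw [hw, Complex.im_ofReal_mul, ← Complex.ofReal_cos, ← Complex.ofReal_sin]
    simp only [Complex.add_im, Complex.ofReal_re, Complex.mul_im, Complex.I_re,
      Complex.ofReal_im, Complex.I_im]
    ring
  have hw1 : w - 1 = (s : ℂ) * (Complex.cos (B : ℂ) + Complex.sin (B : ℂ) * Complex.I) := by
    apply Complex.ext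
    · rw [Complex.sub_re, hwre, Complex.re_ofReal_mul, ← Complex.ofReal_cos,
        ← Complex.ofReal_sin]
      simp only [Complex.add_re, Complex.ofReal_re, Complex.mul_re, Complex.I_re,
        Complex.ofReal_im, Complex.I_im, Complex.one_re]
      rw [hr, hs]
      field_simp
      linear_combination -key
    · rw [Complex.sub_im, hwim, Complex.im_ofReal_mul, ← Complex.ofReal_cos,
        ← Complex.ofReal_sin]
      simp only [Complex.add_im, Complex.ofReal_re, Complex.mul_im, Complex.I_re,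
        Complex.ofReal_im, Complex.I_im, Complex.one_im]
      rw [hr, hs]
      field_simp
      ring
  have narg : ∀ (ρ θ : ℝ), 0 < ρ → 0 < θ → θ < Real.pi →
      ‖(ρ : ℂ) * (Complex.cos (θ : ℂ) + Complex.sin (θ : ℂ) * Complex.I)‖ = ρ ∧
      Complex.arg ((ρ : ℂ) * (Complex.cos (θ : ℂ) + Complex.sin (θ : ℂ) * Complex.I)) = θ := by
    intro ρ θ h2 h3 h4
    refine ⟨?_, ?_⟩
    · rw [norm_mul, Complex.norm_cos_add_sin_mul_I, mul_one, Complex.norm_real, Real.norm_eq_abs,
        abs_of_pos h2]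
    · exact Complex.arg_mul_cos_add_sin_mul_I h2 ⟨by linarith, h4.le⟩
  obtain ⟨n1, n2⟩ := narg r A hr0 hA hA1
  obtain ⟨n3, n4⟩ := narg s B hs0 hB0 hB
  rw [← hw] at n1 n2
  rw [← hw1] at n3 n4
  refine ⟨w, ?_, ?_, ?_⟩
  · rw [hwim]; exact mul_pos hr0 sA
  · rw [gg_re, n1, n3, FF, hr, hs, Real.log_div sB.ne' sD.ne', Real.log_div sA.ne' sD.ne']
    ring
  · rw [gg_im, n2, n4, hAd, hBd]
    ring

lemma FF_cont {a v D : ℝ} (h0 : 0 < a) (h1 : a < 1)
    (hA : ∀ δ ∈ Set.Ioo 0 D, 0 < v - a * δ) (hB : ∀ δ ∈ Set.Ioo 0 D, v + (1 - a) * δ < Real.pi) :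
    ContinuousOn (FF a v) (Set.Ioo 0 D) := by
  intro δ hδ
  have hA' := hA δ hδ
  have hB' := hB δ hδ
  have h2 : 0 < (1 - a) * δ := mul_pos (by linarith) hδ.1
  have h3 : 0 < a * δ := mul_pos h0 hδ.1
  have sA : 0 < Real.sin (v - a * δ) := Real.sin_pos_of_pos_of_lt_pi hA' (by linarith)
  have sB : 0 < Real.sin (v + (1 - a) * δ) := Real.sin_pos_of_pos_of_lt_pi (by linarith) hB'
  have sD : 0 < Real.sin δ := Real.sin_pos_of_pos_of_lt_pi hδ.1 (by nlinarith)
  have c1 : ContinuousAt (fun δ => Real.sin (v + (1 - a) * δ)) δ := by fun_prop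
  have c2 : ContinuousAt (fun δ => Real.sin (v - a * δ)) δ := by fun_prop
  have c3 : ContinuousAt (fun δ => Real.sin δ) δ := by fun_prop
  have c4 := (c1.log sB.ne').const_mul (1 - a)
  have c5 := (c2.log sA.ne').const_mul a
  exact ((c4.add c5).sub (c3.log sD.ne')).continuousWithinAt

lemma ne_bot_left {D : ℝ} : (𝓝[<] D).NeBot := inferInstance

lemma log_sin_atBot : Tendsto (fun δ : ℝ => Real.log (Real.sin δ)) (𝓝[>] 0) atBot := by
  have h1 : Tendsto (fun δ : ℝ => Real.sin δ) (𝓝[>] 0) (𝓝[>] 0) := by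
    apply tendsto_nhdsWithin_iff.2
    refine ⟨?_, ?_⟩
    · have : Tendsto (fun δ : ℝ => Real.sin δ) (𝓝 0) (𝓝 0) := by
        have := Real.continuous_sin.tendsto 0
        rwa [Real.sin_zero] at this
      exact this.mono_left nhdsWithin_le_nhds
    · have : Set.Ioo (0 : ℝ) Real.pi ∈ 𝓝[>] (0 : ℝ) := Ioo_mem_nhdsGT Real.pi_pos
      filter_upwards [this] with x hx
      exact Real.sin_pos_of_pos_of_lt_pi hx.1 hx.2
  exact Real.tendsto_log_nhdsGT_zero.comp h1

lemma FF_top {a v : ℝ} (hv0 : 0 < v) (hv1 : v < Real.pi) :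
    Tendsto (FF a v) (𝓝[>] 0) atTop := by
  have sv : 0 < Real.sin v := Real.sin_pos_of_pos_of_lt_pi hv0 hv1
  have c1 : ContinuousAt (fun δ => Real.sin (v + (1 - a) * δ)) 0 := by fun_prop
  have c2 : ContinuousAt (fun δ => Real.sin (v - a * δ)) 0 := by fun_prop
  have c4 := (c1.log (by simpa using sv.ne')).const_mul (1 - a)
  have c5 := (c2.log (by simpa using sv.ne')).const_mul a
  have c6 := (c4.add c5).tendsto.mono_left (nhdsWithin_le_nhds (s := Set.Ioi (0 : ℝ)))
  have c7 : Tendsto (fun δ : ℝ => -Real.log (Real.sin δ)) (𝓝[>] 0) atTop :=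
    tendsto_neg_atBot_atTop.comp log_sin_atBot
  have c8 := c6.add_atTop c7
  refine c8.congr (fun x => ?_)
  simp only [FF, Pi.add_apply]
  ring

lemma sin_ratio {c : ℝ} : Tendsto (fun τ : ℝ => Real.sin (c * τ) / Real.sin τ) (𝓝[>] 0)
    (𝓝 c) := by
  have h1 : ∀ c : ℝ, Tendsto (fun τ : ℝ => Real.sin (c * τ) / τ) (𝓝[>] 0) (𝓝 c) := by
    intro c
    have h2 : HasDerivAt (fun τ : ℝ => Real.sin (c * τ)) c 0 := by
      have h3 : HasDerivAt (fun τ : ℝ => c * τ) c 0 := by
        simpa using (hasDerivAt_id (0 : ℝ)).const_mul c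
      have h4 := h3.sin
      simpa using h4
    have h5 := h2.tendsto_slope_zero_right
    refine h5.congr (fun x => ?_)
    simp only [zero_add, mul_zero, Real.sin_zero, sub_zero, smul_eq_mul]
    rw [div_eq_inv_mul]
  have h6 := (h1 c).div (h1 1) one_ne_zero
  rw [div_one] at h6
  refine h6.congr' ?_
  have : Set.Ioo (0 : ℝ) Real.pi ∈ 𝓝[>] (0 : ℝ) := Ioo_mem_nhdsGT Real.pi_pos
  filter_upwards [this] with x hx
  have hs : Real.sin x ≠ 0 := (Real.sin_pos_of_pos_of_lt_pi hx.1 hx.2).ne'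
  have hx0 : x ≠ 0 := hx.1.ne'
  simp only [Pi.div_apply, one_mul]
  field_simp

lemma FF_bot_eq {a : ℝ} (h0 : 0 < a) (h1 : a < 1) :
    Tendsto (FF a (a * Real.pi)) (𝓝[<] Real.pi) (𝓝 (cc a)) := by
  have hm : Tendsto (fun δ : ℝ => Real.pi - δ) (𝓝[<] Real.pi) (𝓝[>] 0) := by
    apply tendsto_nhdsWithin_iff.2
    refine ⟨?_, ?_⟩
    · have : ContinuousAt (fun δ : ℝ => Real.pi - δ) Real.pi := by fun_prop
      have h2 := this.tendsto
      rw [sub_self] at h2
      exact h2.mono_left nhdsWithin_le_nhds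
    · filter_upwards [self_mem_nhdsWithin] with x hx
      have hx' : x < Real.pi := hx
      exact sub_pos.2 hx'
  have r1 := ((sin_ratio (c := 1 - a)).comp hm).log (by linarith : (1 - a : ℝ) ≠ 0)
  have r2 := ((sin_ratio (c := a)).comp hm).log h0.ne'
  have r3 := (r1.const_mul (1 - a)).add (r2.const_mul a)
  have r4 : (1 - a) * Real.log (1 - a) + a * Real.log a = cc a := by rw [cc]; ring
  rw [r4] at r3
  refine r3.congr' ?_
  have : Set.Ioo (0 : ℝ) Real.pi ∈ 𝓝[<] Real.pi := Ioo_mem_nhdsLT Real.pi_pos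
  filter_upwards [this] with x hx
  simp only [Function.comp_apply, FF]
  have e1 : Real.sin (a * Real.pi + (1 - a) * x) = Real.sin ((1 - a) * (Real.pi - x)) := by
    rw [← Real.sin_pi_sub]; congr 1; ring
  have e2 : a * Real.pi - a * x = a * (Real.pi - x) := by ring
  have e3 : Real.sin (Real.pi - x) = Real.sin x := Real.sin_pi_sub x
  have p0 : 0 < Real.pi - x := by linarith [hx.2]
  have s1 : 0 < Real.sin ((1 - a) * (Real.pi - x)) :=
    Real.sin_pos_of_pos_of_lt_pi (mul_pos (by linarith) p0) (by nlinarith [hx.1, Real.pi_pos])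
  have s2 : 0 < Real.sin (a * (Real.pi - x)) :=
    Real.sin_pos_of_pos_of_lt_pi (mul_pos h0 p0) (by nlinarith [hx.1, Real.pi_pos])
  have s3 : 0 < Real.sin x := Real.sin_pos_of_pos_of_lt_pi hx.1 hx.2
  rw [e1, e2, e3, Real.log_div s1.ne' s3.ne', Real.log_div s2.ne' s3.ne']
  ring

lemma FF_bot_lt {a v : ℝ} (h0 : 0 < a) (h1 : a < 1) (hv0 : 0 < v) (hv : v < a * Real.pi) :
    Tendsto (FF a v) (𝓝[<] (v / a)) atBot := by
  have hva : v / a < Real.pi := by rw [div_lt_iff₀ h0]; linarith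
  have hva0 : 0 < v / a := div_pos hv0 h0
  have hm : Tendsto (fun δ : ℝ => v - a * δ) (𝓝[<] (v / a)) (𝓝[>] 0) := by
    apply tendsto_nhdsWithin_iff.2
    refine ⟨?_, ?_⟩
    · have : ContinuousAt (fun δ : ℝ => v - a * δ) (v / a) := by fun_prop
      have h2 := this.tendsto
      rw [mul_div_cancel₀ _ h0.ne', sub_self] at h2
      exact h2.mono_left nhdsWithin_le_nhds
    · filter_upwards [self_mem_nhdsWithin] with x hx
      have hx' : x < v / a := hx
      rw [lt_div_iff₀ h0] at hx'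
      show 0 < v - a * x
      linarith
  have r1 := (log_sin_atBot.comp hm).const_mul_atBot h0
  have c1 : ContinuousAt (fun δ => Real.sin (v + (1 - a) * δ)) (v / a) := by fun_prop
  have c2 : ContinuousAt (fun δ => Real.sin δ) (v / a) := by fun_prop
  have e1 : v + (1 - a) * (v / a) = v / a := by field_simp; ring
  have c3 := (c1.log (by
    rw [e1]; exact (Real.sin_pos_of_pos_of_lt_pi hva0 hva).ne')).const_mul (1 - a)
  have c4 := c2.log (Real.sin_pos_of_pos_of_lt_pi hva0 hva).ne'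
  have c5 := (c3.sub c4).tendsto.mono_left (nhdsWithin_le_nhds (s := Set.Iio (v / a)))
  have c6 := c5.add_atBot r1
  refine c6.congr (fun x => ?_)
  simp only [FF, Function.comp_apply, Pi.sub_apply]
  ring

lemma FF_bot_gt {a v : ℝ} (h0 : 0 < a) (h1 : a < 1) (hv1 : v < Real.pi) (hv : a * Real.pi < v) :
    Tendsto (FF a v) (𝓝[<] ((Real.pi - v) / (1 - a))) atBot := by
  have h2 : 0 < 1 - a := by linarith
  set D := (Real.pi - v) / (1 - a) with hD
  have hDe : (1 - a) * D = Real.pi - v := by rw [hD, mul_div_cancel₀ _ h2.ne']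
  have hD1 : D < Real.pi := by rw [hD, div_lt_iff₀ h2]; linarith
  have hD0 : 0 < D := div_pos (by linarith) h2
  have hm : Tendsto (fun δ : ℝ => Real.pi - (v + (1 - a) * δ)) (𝓝[<] D) (𝓝[>] 0) := by
    apply tendsto_nhdsWithin_iff.2
    refine ⟨?_, ?_⟩
    · have : ContinuousAt (fun δ : ℝ => Real.pi - (v + (1 - a) * δ)) D := by fun_prop
      have h3 := this.tendsto
      have e : Real.pi - (v + (1 - a) * D) = 0 := by rw [hDe]; ring
      rw [e] at h3
      exact h3.mono_left nhdsWithin_le_nhds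
    · filter_upwards [self_mem_nhdsWithin] with x hx
      have hx' : x < D := hx
      have := mul_lt_mul_of_pos_left hx' h2
      show 0 < Real.pi - (v + (1 - a) * x)
      linarith
  have r1 := (log_sin_atBot.comp hm).const_mul_atBot h2
  have c1 : ContinuousAt (fun δ => Real.sin (v - a * δ)) D := by fun_prop
  have c2 : ContinuousAt (fun δ => Real.sin δ) D := by fun_prop
  have e1 : v - a * D = Real.pi - D := by linarith
  have e2 : Real.sin (v - a * D) = Real.sin D := by rw [e1, Real.sin_pi_sub]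
  have c3 := (c1.log (by
    rw [e2]; exact (Real.sin_pos_of_pos_of_lt_pi hD0 hD1).ne')).const_mul a
  have c4 := c2.log (Real.sin_pos_of_pos_of_lt_pi hD0 hD1).ne'
  have c5 := (c3.sub c4).tendsto.mono_left (nhdsWithin_le_nhds (s := Set.Iio D))
  have c6 := c5.add_atBot r1
  refine c6.congr (fun x => ?_)
  simp only [FF, Function.comp_apply, Pi.sub_apply, Real.sin_pi_sub]
  ring

lemma surj_core {a : ℝ} (h0 : 0 < a) (h1 : a < 1) {u v : ℝ} (hv0 : 0 < v) (hv1 : v < Real.pi)
    (hu : v = a * Real.pi → cc a < u) :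
    ∃ w : ℂ, 0 < w.im ∧ (gg a w).re = u ∧ (gg a w).im = v := by
  have h2 : 0 < 1 - a := by linarith
  have hpi := Real.pi_pos
  -- it suffices to find δ
  suffices hs : ∃ D : ℝ, (∀ δ ∈ Set.Ioo 0 D, 0 < v - a * δ) ∧
      (∀ δ ∈ Set.Ioo 0 D, v + (1 - a) * δ < Real.pi) ∧ u ∈ FF a v '' Set.Ioo 0 D by
    obtain ⟨D, hA, hB, δ, hδ, he⟩ := hs
    obtain ⟨w, w1, w2, w3⟩ := point h0 h1 hδ.1 (hA δ hδ) (hB δ hδ)
    exact ⟨w, w1, by rw [w2, he], w3⟩
  have htop := FF_top (a := a) hv0 hv1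
  rcases lt_trichotomy v (a * Real.pi) with hlt | heq | hgt
  · have hva0 : 0 < v / a := div_pos hv0 h0
    have hA : ∀ δ ∈ Set.Ioo 0 (v / a), 0 < v - a * δ := by
      intro δ hδ
      have := hδ.2
      rw [lt_div_iff₀ h0] at this
      linarith
    have hB : ∀ δ ∈ Set.Ioo 0 (v / a), v + (1 - a) * δ < Real.pi := by
      intro δ hδ
      have h3 := hδ.2
      have h4 : v / a < Real.pi := by rw [div_lt_iff₀ h0]; linarith
      have h5 := (lt_div_iff₀ h0).1 h3
      nlinarith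
    refine ⟨v / a, hA, hB, ?_⟩
    have hc := FF_cont h0 h1 hA hB
    have l1 : 𝓝[<] (v / a) ≤ 𝓟 (Set.Ioo 0 (v / a)) := le_principal_iff.2 (Ioo_mem_nhdsLT hva0)
    have l2 : 𝓝[>] (0 : ℝ) ≤ 𝓟 (Set.Ioo 0 (v / a)) := le_principal_iff.2 (Ioo_mem_nhdsGT hva0)
    exact isPreconnected_Ioo.intermediate_value_Iii l1 l2 hc (FF_bot_lt h0 h1 hv0 hlt) htop
      (Set.mem_univ u)
  · have hA : ∀ δ ∈ Set.Ioo 0 Real.pi, 0 < v - a * δ := by
      intro δ hδ
      rw [heq]
      nlinarith [hδ.2]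
    have hB : ∀ δ ∈ Set.Ioo 0 Real.pi, v + (1 - a) * δ < Real.pi := by
      intro δ hδ
      rw [heq]
      nlinarith [hδ.2]
    refine ⟨Real.pi, hA, hB, ?_⟩
    have hc := FF_cont h0 h1 hA hB
    have l1 : 𝓝[<] Real.pi ≤ 𝓟 (Set.Ioo 0 Real.pi) := le_principal_iff.2 (Ioo_mem_nhdsLT hpi)
    have l2 : 𝓝[>] (0 : ℝ) ≤ 𝓟 (Set.Ioo 0 Real.pi) := le_principal_iff.2 (Ioo_mem_nhdsGT hpi)
    have hb := FF_bot_eq h0 h1
    rw [← heq] at hb
    exact isPreconnected_Ioo.intermediate_value_Ioi l1 l2 hc hb htop (hu heq)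
  · have hD0 : 0 < (Real.pi - v) / (1 - a) := div_pos (by linarith) h2
    have hB : ∀ δ ∈ Set.Ioo 0 ((Real.pi - v) / (1 - a)), v + (1 - a) * δ < Real.pi := by
      intro δ hδ
      have := (lt_div_iff₀ h2).1 hδ.2
      linarith
    have hA : ∀ δ ∈ Set.Ioo 0 ((Real.pi - v) / (1 - a)), 0 < v - a * δ := by
      intro δ hδ
      have h5 := (lt_div_iff₀ h2).1 hδ.2
      nlinarith [hδ.1]
    refine ⟨(Real.pi - v) / (1 - a), hA, hB, ?_⟩
    have hc := FF_cont h0 h1 hA hB
    have l1 : 𝓝[<] ((Real.pi - v) / (1 - a)) ≤ 𝓟 (Set.Ioo 0 ((Real.pi - v) / (1 - a))) :=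
      le_principal_iff.2 (Ioo_mem_nhdsLT hD0)
    have l2 : 𝓝[>] (0 : ℝ) ≤ 𝓟 (Set.Ioo 0 ((Real.pi - v) / (1 - a))) :=
      le_principal_iff.2 (Ioo_mem_nhdsGT hD0)
    exact isPreconnected_Ioo.intermediate_value_Iii l1 l2 hc (FF_bot_gt h0 h1 hv1 hgt) htop
      (Set.mem_univ u)

/-- (2) -/
theorem ph_bij {a : ℝ} (h0 : 0 < a) (h1 : a < 1) :
    Set.BijOn (ph a) {w : ℂ | 0 < w.im} (Om a) := by
  refine ⟨ph_maps h0 h1, ?_, ?_⟩
  · intro w1 hw1 w2 hw2 he
    apply gg_inj h0 h1 hw1 hw2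
    rw [ph_eq, ph_eq] at he
    have h3 := (div_left_inj' den_ne).1 he
    exact sub_left_inj.1 h3
  · rintro z ⟨z1, z2, z3⟩
    have hpi := Real.pi_pos
    obtain ⟨w, w1, w2, w3⟩ := surj_core h0 h1 (u := Real.pi * (z.re - z.im) + cc a)
      (v := Real.pi * (z.re + z.im)) (mul_pos hpi z1) (by nlinarith) (by
        intro h3
        have h4 : z.re + z.im = a := by
          have : Real.pi * (z.re + z.im) = Real.pi * a := by rw [h3]; ring
          exact mul_left_cancel₀ hpi.ne' this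
        have h5 : ¬ z.re ≤ z.im := fun h6 => z3 ⟨h4, h6⟩
        push Not at h5
        have : 0 < Real.pi * (z.re - z.im) := mul_pos hpi (by linarith)
        linarith)
    refine ⟨w, w1, ?_⟩
    have e1 := ph_sub a w
    have e2 := ph_add a w
    rw [w2] at e1
    rw [w3] at e2
    have e3 : (ph a w).re - (ph a w).im = z.re - z.im := by rw [e1]; field_simp; ring
    have e4 : (ph a w).re + (ph a w).im = z.re + z.im := by rw [e2]; field_simp
    apply Complex.ext <;> linarith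


/-! ### the tip -/

/-- (3) -/
theorem ph_tip {a : ℝ} (h0 : 0 < a) (h1 : a < 1) :
    Tendsto (ph a) (𝓝[{w : ℂ | 0 < w.im}] (1 - (a : ℂ)))
      (𝓝 ((a : ℂ) / 2 + (a : ℂ) / 2 * Complex.I)) := by
  have h2 : (1 - (a : ℂ)) = ((1 - a : ℝ) : ℂ) := by push_cast; ring
  have l1 : Tendsto Complex.log (𝓝[{w : ℂ | 0 < w.im}] (1 - (a : ℂ)))
      (𝓝 (Complex.log (1 - (a : ℂ)))) := by
    have : ContinuousAt Complex.log (1 - (a : ℂ)) := by
      apply continuousAt_clog
      rw [h2]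
      exact Complex.ofReal_mem_slitPlane.2 (by linarith)
    exact this.tendsto.mono_left nhdsWithin_le_nhds
  have l2 : Tendsto (fun w : ℂ => Complex.log (w - 1)) (𝓝[{w : ℂ | 0 < w.im}] (1 - (a : ℂ)))
      (𝓝 ((Real.log a : ℂ) + Real.pi * Complex.I)) := by
    have h3 := Complex.tendsto_log_nhdsWithin_im_nonneg_of_re_neg_of_im_zero
      (z := (-(a : ℂ))) (by simpa using h0) (by simp)
    have h4 : ‖(-(a : ℂ))‖ = a := by
      rw [norm_neg, Complex.norm_real, Real.norm_eq_abs, abs_of_pos h0]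
    rw [h4] at h3
    have h5 : Tendsto (fun w : ℂ => w - 1) (𝓝[{w : ℂ | 0 < w.im}] (1 - (a : ℂ)))
        (𝓝[{z : ℂ | 0 ≤ z.im}] (-(a : ℂ))) := by
      apply tendsto_nhdsWithin_iff.2
      refine ⟨?_, ?_⟩
      · have h6 : ContinuousAt (fun w : ℂ => w - 1) (1 - (a : ℂ)) := by fun_prop
        have h7 := h6.tendsto
        have h8 : (1 - (a : ℂ)) - 1 = -(a : ℂ) := by ring
        rw [h8] at h7
        exact h7.mono_left nhdsWithin_le_nhds
      · filter_upwards [self_mem_nhdsWithin] with x hx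
        have hx' : 0 < x.im := hx
        show 0 ≤ (x - 1).im
        rw [sub_one_im]
        exact hx'.le
    exact h3.comp h5
  have l3 := ((((l1.const_mul (1 - (a : ℂ))).add (l2.const_mul (a : ℂ))).sub_const
    (cc a : ℂ))).div_const ((Real.pi : ℂ) * (1 + Complex.I))
  have e1 : ((1 - (a : ℂ)) * Complex.log (1 - (a : ℂ)) +
      (a : ℂ) * ((Real.log a : ℂ) + Real.pi * Complex.I) - (cc a : ℂ)) /
      ((Real.pi : ℂ) * (1 + Complex.I)) = (a : ℂ) / 2 + (a : ℂ) / 2 * Complex.I := by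
    have e2 : Complex.log (1 - (a : ℂ)) = (Real.log (1 - a) : ℂ) := by
      rw [h2, Complex.ofReal_log (by linarith)]
    rw [div_eq_iff den_ne, e2, cc]
    push_cast
    linear_combination (-(a : ℂ) * Real.pi / 2) * Complex.I_sq
  rw [e1] at l3
  exact l3

/-! ### the three ends -/

lemma end_one_im {a : ℝ} (h0 : 0 < a) (h1 : a < 1) {w : ℂ} (h : 0 < w.im)
    (hn : ‖w - 1‖ < a / 4) : (gg a w).im < a * Real.pi := by
  rw [gg_im]
  have hA0 := arg_pos h
  have hB0 : 0 < Complex.arg (w - 1) := arg_pos (by rw [sub_one_im]; exact h)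
  have hB1 : Complex.arg (w - 1) < Real.pi := arg_lt (by rw [sub_one_im]; exact h)
  have p1 := polar_im w
  have p3 := polar_im (w - 1)
  rw [sub_one_im] at p3
  have hre : 1 / 2 < w.re := by
    have h2 : |(w - 1).re| ≤ ‖w - 1‖ := Complex.abs_re_le_norm _
    have h3 : (w - 1).re = w.re - 1 := by simp
    rw [h3] at h2
    have := abs_le.1 h2
    linarith [this.1]
  have hw : 1 / 2 < ‖w‖ := lt_of_lt_of_le hre (Complex.re_le_norm w)
  have hA : Complex.arg w ≤ Real.pi / 2 := by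
    have := Complex.abs_arg_le_pi_div_two_iff.2 (by linarith : 0 ≤ w.re)
    exact (abs_le.1 this).2
  have hs := Real.mul_le_sin hA0.le hA
  have hs2 : Real.sin (Real.pi - Complex.arg (w - 1)) ≤ Real.pi - Complex.arg (w - 1) :=
    Real.sin_le (by linarith)
  rw [Real.sin_pi_sub] at hs2
  set A := Complex.arg w
  set B := Complex.arg (w - 1)
  have hpi := Real.pi_pos
  have hpi4 := Real.pi_le_four
  have q1 : 2 * A ≤ Real.pi * Real.sin A := by
    have := mul_le_mul_of_nonneg_left hs hpi.le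
    have e : Real.pi * (2 / Real.pi * A) = 2 * A := by field_simp
    rw [e] at this
    exact this
  have hsA : 0 ≤ Real.sin A := by
    have : 0 < 2 * A := by linarith
    nlinarith
  -- norms
  have q2 : ‖w‖ * (2 * A) ≤ Real.pi * w.im := by
    rw [← p1]
    have := mul_le_mul_of_nonneg_left q1 (norm_nonneg w)
    linarith
  have q3 : w.im ≤ ‖w - 1‖ * (Real.pi - B) := by
    rw [← p3]
    exact mul_le_mul_of_nonneg_left hs2 (norm_nonneg _)
  have q4 : A ≤ ‖w‖ * (2 * A) := by nlinarith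
  have q5 : ‖w - 1‖ * (Real.pi - B) < a / 4 * (Real.pi - B) :=
    mul_lt_mul_of_pos_right hn (by linarith)
  have q6 : A < Real.pi * (a / 4 * (Real.pi - B)) := by
    have : Real.pi * w.im < Real.pi * (a / 4 * (Real.pi - B)) :=
      mul_lt_mul_of_pos_left (by linarith) hpi
    linarith
  have q7 : Real.pi * (a / 4 * (Real.pi - B)) ≤ 4 * (a / 4 * (Real.pi - B)) := by
    apply mul_le_mul_of_nonneg_right hpi4
    have : 0 < a / 4 * (Real.pi - B) := mul_pos (by linarith) (by linarith)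
    exact this.le
  nlinarith [mul_pos h0 hA0]

lemma end_zero_im {a : ℝ} (h0 : 0 < a) (h1 : a < 1) {w : ℂ} (h : 0 < w.im)
    (hn : ‖w‖ < (1 - a) / 4) : a * Real.pi < (gg a w).im := by
  rw [gg_im]
  have hA0 := arg_pos h
  have hA1 := arg_lt h
  have hB0 : 0 < Complex.arg (w - 1) := arg_pos (by rw [sub_one_im]; exact h)
  have hB1 : Complex.arg (w - 1) < Real.pi := arg_lt (by rw [sub_one_im]; exact h)
  have p1 := polar_im w
  have p3 := polar_im (w - 1)
  have p4 := polar_re (w - 1)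
  rw [sub_one_im] at p3
  have h3 : (w - 1).re = w.re - 1 := by simp
  rw [h3] at p4
  have hre : w.re < 1 / 2 := by
    have h2 : w.re ≤ ‖w‖ := Complex.re_le_norm w
    linarith
  have hw : 1 / 2 < ‖w - 1‖ := by
    have h2 : |(w - 1).re| ≤ ‖w - 1‖ := Complex.abs_re_le_norm _
    rw [h3] at h2
    have := abs_le.1 h2
    linarith [this.1]
  have hB : Real.pi / 2 ≤ Complex.arg (w - 1) := by
    by_contra hcon
    push Not at hcon
    have hc := Real.cos_pos_of_mem_Ioo (⟨by linarith, hcon⟩ :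
      Complex.arg (w - 1) ∈ Set.Ioo (-(Real.pi / 2)) (Real.pi / 2))
    have : 0 < ‖w - 1‖ * Real.cos (Complex.arg (w - 1)) := mul_pos (by linarith) hc
    linarith
  set A := Complex.arg w
  set B := Complex.arg (w - 1)
  have hpi := Real.pi_pos
  have hpi4 := Real.pi_le_four
  have hs := Real.mul_le_sin (by linarith : 0 ≤ Real.pi - B) (by linarith)
  rw [Real.sin_pi_sub] at hs
  have hs2 : Real.sin A ≤ A := Real.sin_le hA0.le
  have q1 : 2 * (Real.pi - B) ≤ Real.pi * Real.sin B := by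
    have := mul_le_mul_of_nonneg_left hs hpi.le
    have e : Real.pi * (2 / Real.pi * (Real.pi - B)) = 2 * (Real.pi - B) := by field_simp
    rw [e] at this
    exact this
  have q2 : ‖w - 1‖ * (2 * (Real.pi - B)) ≤ Real.pi * w.im := by
    rw [← p3]
    have := mul_le_mul_of_nonneg_left q1 (norm_nonneg (w - 1))
    linarith
  have q3 : w.im ≤ ‖w‖ * A := by
    rw [← p1]
    exact mul_le_mul_of_nonneg_left hs2 (norm_nonneg _)
  have q4 : Real.pi - B ≤ ‖w - 1‖ * (2 * (Real.pi - B)) := by nlinarith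
  have q5 : ‖w‖ * A < (1 - a) / 4 * A := mul_lt_mul_of_pos_right hn hA0
  have q6 : Real.pi - B < Real.pi * ((1 - a) / 4 * A) := by
    have : Real.pi * w.im < Real.pi * ((1 - a) / 4 * A) :=
      mul_lt_mul_of_pos_left (by linarith) hpi
    linarith
  have q7 : Real.pi * ((1 - a) / 4 * A) ≤ 4 * ((1 - a) / 4 * A) := by
    apply mul_le_mul_of_nonneg_right hpi4
    have : 0 < (1 - a) / 4 * A := mul_pos (by linarith) hA0
    exact this.le
  nlinarith [mul_pos (by linarith : (0 : ℝ) < 1 - a) (by linarith : 0 < Real.pi - B)]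

lemma norm_sub_tendsto (p : ℂ) (hp : p.im = 0) :
    Tendsto (fun w : ℂ => Real.log ‖w - p‖) (𝓝[{w : ℂ | 0 < w.im}] p) atBot := by
  have h1 : Tendsto (fun w : ℂ => ‖w - p‖) (𝓝[{w : ℂ | 0 < w.im}] p) (𝓝[>] 0) := by
    apply tendsto_nhdsWithin_iff.2
    refine ⟨?_, ?_⟩
    · have h2 : ContinuousAt (fun w : ℂ => ‖w - p‖) p := by fun_prop
      have h3 := h2.tendsto
      rw [sub_self, norm_zero] at h3
      exact h3.mono_left nhdsWithin_le_nhds
    · filter_upwards [self_mem_nhdsWithin] with x hx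
      have hx' : 0 < x.im := hx
      show 0 < ‖x - p‖
      rw [norm_pos_iff, sub_ne_zero]
      intro h4
      rw [h4, hp] at hx'
      exact lt_irrefl _ hx'
  exact Real.tendsto_log_nhdsGT_zero.comp h1

lemma ev_sub {a : ℝ} {l : Filter ℂ} (h : Tendsto (fun w => (gg a w).re) l atBot) (M : ℝ) :
    ∀ᶠ w in l, (ph a w).re - (ph a w).im < M := by
  have hpi := Real.pi_pos
  filter_upwards [h.eventually_lt_atBot (M * Real.pi + cc a)] with w hw
  rw [ph_sub, div_lt_iff₀ hpi]
  linarith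

/-- (4a): the end of the left strip -/
theorem ph_end_one {a : ℝ} (h0 : 0 < a) (h1 : a < 1) (M : ℝ) :
    ∀ᶠ w in 𝓝[{w : ℂ | 0 < w.im}] (1 : ℂ),
      (ph a w).re - (ph a w).im < M ∧ (ph a w).re + (ph a w).im < a := by
  have hpi := Real.pi_pos
  have l1 : Tendsto (fun w => (gg a w).re) (𝓝[{w : ℂ | 0 < w.im}] (1 : ℂ)) atBot := by
    have c1 : ContinuousAt (fun w : ℂ => ‖w‖) 1 := by fun_prop
    have c2 := ((c1.log (by simp)).const_mul (1 - a)).tendsto.mono_left
      (nhdsWithin_le_nhds (s := {w : ℂ | 0 < w.im}))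
    have c3 := (norm_sub_tendsto 1 (by simp)).const_mul_atBot h0
    have c4 := c2.add_atBot c3
    refine c4.congr (fun w => ?_)
    rw [gg_re]
  have l2 : ∀ᶠ w in 𝓝[{w : ℂ | 0 < w.im}] (1 : ℂ), ‖w - 1‖ < a / 4 := by
    have h2 : ContinuousAt (fun w : ℂ => ‖w - 1‖) 1 := by fun_prop
    have h3 := h2.tendsto
    rw [sub_self, norm_zero] at h3
    exact (h3.mono_left nhdsWithin_le_nhds).eventually_lt_const (by linarith)
  filter_upwards [ev_sub l1 M, l2, self_mem_nhdsWithin] with w hw1 hw2 hw3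
  refine ⟨hw1, ?_⟩
  rw [ph_add, div_lt_iff₀ hpi]
  exact end_one_im h0 h1 hw3 hw2

/-- (4b): the end of the right strip -/
theorem ph_end_zero {a : ℝ} (h0 : 0 < a) (h1 : a < 1) (M : ℝ) :
    ∀ᶠ w in 𝓝[{w : ℂ | 0 < w.im}] (0 : ℂ),
      (ph a w).re - (ph a w).im < M ∧ a < (ph a w).re + (ph a w).im := by
  have hpi := Real.pi_pos
  have l1 : Tendsto (fun w => (gg a w).re) (𝓝[{w : ℂ | 0 < w.im}] (0 : ℂ)) atBot := by
    have c1 : ContinuousAt (fun w : ℂ => ‖w - 1‖) 0 := by fun_prop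
    have c2 := ((c1.log (by simp)).const_mul a).tendsto.mono_left
      (nhdsWithin_le_nhds (s := {w : ℂ | 0 < w.im}))
    have c3 := (norm_sub_tendsto 0 (by simp)).const_mul_atBot (by linarith : (0 : ℝ) < 1 - a)
    have c4 := c2.add_atBot c3
    refine c4.congr (fun w => ?_)
    rw [gg_re, sub_zero]
    ring
  have l2 : ∀ᶠ w in 𝓝[{w : ℂ | 0 < w.im}] (0 : ℂ), ‖w‖ < (1 - a) / 4 := by
    have h2 : ContinuousAt (fun w : ℂ => ‖w‖) 0 := by fun_prop
    have h3 := h2.tendsto
    rw [norm_zero] at h3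
    exact (h3.mono_left nhdsWithin_le_nhds).eventually_lt_const (by linarith)
  filter_upwards [ev_sub l1 M, l2, self_mem_nhdsWithin] with w hw1 hw2 hw3
  refine ⟨hw1, ?_⟩
  rw [ph_add, lt_div_iff₀ hpi]
  exact end_zero_im h0 h1 hw3 hw2

/-- (4c): the end of the wide strip -/
theorem ph_end_inf {a : ℝ} (h0 : 0 < a) (h1 : a < 1) (M : ℝ) :
    ∀ᶠ w in cocompact ℂ ⊓ 𝓟 {w : ℂ | 0 < w.im}, M < (ph a w).re - (ph a w).im := by
  have hpi := Real.pi_pos
  have t1 : Tendsto (fun w : ℂ => ‖w‖) (cocompact ℂ) atTop := tendsto_norm_cocompact_atTop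
  have t2 : Tendsto (fun w : ℂ => ‖w - 1‖) (cocompact ℂ) atTop := by
    have t3 : Tendsto (fun w : ℂ => ‖w‖ + (-1)) (cocompact ℂ) atTop :=
      tendsto_atTop_add_const_right _ _ t1
    refine tendsto_atTop_mono (fun w => ?_) t3
    have := norm_sub_norm_le w 1
    rw [norm_one] at this
    linarith
  have t4 := (Real.tendsto_log_atTop.comp t1).const_mul_atTop (by linarith : (0 : ℝ) < 1 - a)
  have t5 := (Real.tendsto_log_atTop.comp t2).const_mul_atTop h0
  have t6 := t4.atTop_add_atTop t5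
  have t7 : Tendsto (fun w => (gg a w).re) (cocompact ℂ) atTop := by
    refine t6.congr (fun w => ?_)
    rw [gg_re]
    rfl
  have t8 := t7.mono_left (inf_le_left (b := 𝓟 {w : ℂ | 0 < w.im}))
  filter_upwards [t8.eventually_gt_atTop (M * Real.pi + cc a)] with w hw
  rw [ph_sub, lt_div_iff₀ hpi]
  linarith

end CFM
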