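import Mathlib

/-!
# The continuum slit strip and the explicit conformal map of the upper half plane onto it
-/

namespace CFM

/-- the continuum slit strip: the points with `0 < x + y < 1`, without those with `x + y = a` and `x ≤ y` -/
def Om (a : ℝ) : Set ℂ :=
  {z | 0 < z.re + z.im ∧ z.re + z.im < 1 ∧ ¬ (z.re + z.im = a ∧ z.re ≤ z.im)}

/-- the constant which puts the tip of the slit at the point with `x = y = a / 2` -/
noncomputable def cc (a : ℝ) : ℝ := a * Real.log a + (1 - a) * Real.log (1 - a)

/-- the conformal map of the upper half plane onto the slit strip -/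
noncomputable def ph (a : ℝ) (w : ℂ) : ℂ :=
  ((1 - (a : ℂ)) * Complex.log w + (a : ℂ) * Complex.log (w - 1) - (cc a : ℂ)) /
    ((Real.pi : ℂ) * (1 + Complex.I))

end CFM
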