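import Pool.Agent.Lib.MP_216314_pr.CF.Norm
import Pool.Agent.Lib.MP_216314_pr.X.Cty

/-!
# Continuity of the characters; the norm at the homogeneous point
-/

set_option autoImplicit false

noncomputable section

namespace CF

open Finset PX Filter Topology

theorem hh_tendsto {ι : Type*} {l : Filter ι} {x : ι → ℕ → ℂ} {x0 : ℕ → ℂ}
    (h : ∀ j, Tendsto (fun i => x i j) l (𝓝 (x0 j))) (k : ℕ) :
    ∀ i : ℕ, Tendsto (fun n => Q4.hh (x n) k i) l (𝓝 (Q4.hh x0 k i)) := by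
  induction k with
  | zero =>
    intro i
    by_cases hi : i = 0
    · subst hi
      exact tendsto_const_nhds
    · obtain ⟨i', rfl⟩ := Nat.exists_eq_succ_of_ne_zero hi
      exact tendsto_const_nhds
  | succ k ih =>
    intro i
    rcases i with _ | i
    · exact (h 0).mul (ih 0)
    · exact ((h (i + 1)).mul (ih (i + 1))).add (ih i)

theorem ddp_tendsto {ι : Type*} {l : Filter ι} {x : ι → ℕ → ℂ} {x0 : ℕ → ℂ}
    (h : ∀ j, Tendsto (fun i => x i j) l (𝓝 (x0 j))) (i : ℕ) (f : Polynomial ℂ) :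
    Tendsto (fun n => Q4.DD (x n) i f) l (𝓝 (Q4.DD x0 i f)) := by
  unfold Q4.DD Polynomial.sum
  exact tendsto_finsetSum _ fun k _ => tendsto_const_nhds.mul (hh_tendsto h k i)

theorem PhF_tendsto {ι : Type*} {l : Filter ι} {x : ι → ℕ → ℂ} {x0 : ℕ → ℂ}
    (h : ∀ j, Tendsto (fun i => x i j) l (𝓝 (x0 j))) (N : ℕ) (g : ℕ → Polynomial ℂ) :
    Tendsto (fun n => Q4.PhF N g (x n)) l (𝓝 (Q4.PhF N g x0)) := by
  unfold Q4.PhF
  have e : ∀ z : ℕ → ℂ, (Matrix.of fun i j : Fin N => Q4.DD z i (g j)).det =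
      ∑ σ : Equiv.Perm (Fin N), (Equiv.Perm.sign σ : ℂ) * ∏ i : Fin N, Q4.DD z (σ i : Fin N) (g i) := by
    intro z
    rw [Matrix.det_apply']
    rfl
  simp only [e]
  exact tendsto_finsetSum _ fun σ _ => tendsto_const_nhds.mul
    (tendsto_finsetProd _ fun i _ => ddp_tendsto h _ _)

/-- the value of the character at the homogeneous point -/
def CS (n : ℕ) : ℂ := CZ.SS (Multiset.replicate n 2)

theorem SS_tendsto {ι : Type*} {l : Filter ι} {x : ι → ℕ → ℂ}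
    (h : ∀ j, Tendsto (fun i => x i j) l (𝓝 2)) (N : ℕ) :
    Tendsto (fun n => CZ.SS ((range N).val.map (x n))) l (𝓝 (CS N)) := by
  have h1 := PhF_tendsto (x0 := fun _ => 2) h N CZ.bb
  have h2 : Q4.PhF N CZ.bb (fun _ => 2) = CS N := by
    rw [CZ.PhF_SS, CS]
    congr 1
    rw [Multiset.map_const', Multiset.card_range]
  rw [h2] at h1
  refine h1.congr fun n => ?_
  rw [CZ.PhF_SS]
  rfl

theorem XX_one : XX 1 = 2 := by
  unfold XX
  norm_num

theorem XX_tendsto {ι : Type*} {l : Filter ι} {y : ι → ℂ} (h : Tendsto y l (𝓝 1)) :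
    Tendsto (fun n => XX (y n)) l (𝓝 2) := by
  have h1 : Tendsto (fun n => y n + (y n)⁻¹) l (𝓝 (1 + (1 : ℂ)⁻¹)) := h.add (h.inv₀ one_ne_zero)
  have h2 : (1 : ℂ) + (1 : ℂ)⁻¹ = 2 := by norm_num
  rw [h2] at h1
  exact h1

theorem norm_one' {y : ℕ → ℕ → ℂ} {n : ℕ} (hg : ∀ i, Gen n (y i))
    (h : ∀ j, Tendsto (fun i => y i j) atTop (𝓝 1)) :
    DD n (fun _ => 1) = (-om ^ 2) ^ (n / 2) * CS n ^ 2 := by
  have h1 : Tendsto (fun i => DD n (y i)) atTop (𝓝 (DD n (fun _ => 1))) :=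
    DD_tendsto n h (fun _ => one_ne_zero)
  have h2 : Tendsto (fun i => (-om ^ 2) ^ (n / 2) * CZ.SS ((range n).val.map fun j => XX (y i j)) ^ 2) atTop
      (𝓝 ((-om ^ 2) ^ (n / 2) * CS n ^ 2)) :=
    tendsto_const_nhds.mul ((SS_tendsto (fun j => XX_tendsto (h j)) n).pow 2)
  exact tendsto_nhds_unique h1 (h2.congr fun i => (SS_dd n _ (hg i)).symm)

end CF
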