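import Pool.Agent.Lib.MP_216314_pr.X.PairB
import Pool.Agent.Lib.MP_216314_pr.X.FusC

/-!
# The slit strip: definitions

`gv` is the normalised solution of the open strip. `MU`, `MLL`, `MLR` are the three pairings of the vector of an upper
strip with the vectors of a lower left strip and a lower right strip; the variable number `k` is the one of the strand
at the tip of the slit. `SC` collects the properties of the symplectic characters used in the formulas.
-/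

set_option autoImplicit false

noncomputable section

namespace CF

open Finset PX

/-- the variables from number `a` on -/
def sh (a : ℕ) (y : ℕ → ℂ) : ℕ → ℂ := fun i => y (i + a)

/-- removal of the variable number `k` -/
def rv (k : ℕ) (y : ℕ → ℂ) : ℕ → ℂ := fun i => if i < k then y i else y (i + 1)

/-- shift of a configuration -/
def su (a : ℕ) (s : Finset ℕ) : Finset ℕ := s.map (addRightEmbedding a)

/-- tip strand in the upper strip (`k`, `m` odd) -/
def MU (k m : ℕ) (y : ℕ → ℂ) : ℂ := ∑ s ∈ cfn k (k / 2), ∑ t ∈ cfn m (m / 2),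
  gv (k + m + 1) y (s ∪ insert k (su (k + 1) t)) * gv k (ivs y) s * gv m (ivs (sh (k + 1) y)) t

/-- tip strand in the lower left strip (`k` even, `m` odd) -/
def MLL (k m : ℕ) (y : ℕ → ℂ) : ℂ := ∑ s ∈ cfn k (k / 2), ∑ t ∈ cfn m (m / 2),
  gv (k + m) (rv k y) (s ∪ su k t) * gv (k + 1) (ivs y) s * gv m (ivs (sh (k + 1) y)) t

/-- tip strand in the lower right strip (`k` odd, `m` even) -/
def MLR (k m : ℕ) (y : ℕ → ℂ) : ℂ := ∑ s ∈ cfn k (k / 2), ∑ t ∈ cfn m (m / 2),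
  gv (k + m) (rv k y) (s ∪ su k t) * gv k (ivs y) s * gv (m + 1) (ivs (sh k y)) (su 1 t)

/-- the variables different from the one with number `k` are generic -/
def GT (k L : ℕ) (y : ℕ → ℂ) : Prop :=
  NZ L y ∧ (∀ i, i ≠ k → i < L → y i ^ 6 ≠ 1) ∧
    (∀ i j, i ≠ k → i < L → j ≠ k → j < L → i ≠ j → y i ^ 3 ≠ y j ^ 3 ∧ y i ^ 3 * y j ^ 3 ≠ 1)

/-- the properties of the characters -/
structure SC (S : Multiset ℂ → ℂ) : Prop where
  /-- no variable -/
  zero : S 0 = 1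
  /-- one variable -/
  one : ∀ a, S {a} = 1
  /-- two variables -/
  two : ∀ a b, S (a ::ₘ {b}) = 1
  /-- fusion: `a`, `b`, `c` are the three roots of `X ^ 3 - 3 * X = const` -/
  fus : ∀ (a b c : ℂ) (s : Multiset ℂ), a + b + c = 0 → a * b + b * c + c * a = -3 →
    S (a ::ₘ b ::ₘ s) = (s.map fun r => r - c).prod * S s
  /-- polynomial in every variable, with degree and leading coefficient -/
  pol : ∀ s : Multiset ℂ, ∃ p : Polynomial ℂ, p.natDegree ≤ s.card / 2 ∧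
    (Odd s.card → p.coeff (s.card / 2) = S s) ∧ ∀ x, S (x ::ₘ s) = p.eval x

/-- difference quotient of `X ^ 3 - 3 * X` -/
def TT (a b : ℂ) : ℂ := a ^ 2 + a * b + b ^ 2 - 3

/-- weight of a variable `a` of the left group `A` -/
def Wa (A : Finset ℂ) (a : ℂ) : ℂ := ∏ b ∈ A.erase a, TT a b / (a - b)

def TU (S : Multiset ℂ → ℂ) (A : Finset ℂ) (B : Multiset ℂ) (x : ℂ) : ℂ :=
  S (x ::ₘ (A.val + B)) * S A.val * S B

def TLL (S : Multiset ℂ → ℂ) (A : Finset ℂ) (B : Multiset ℂ) (x : ℂ) : ℂ :=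
  S (A.val + B) * S (x ::ₘ A.val) * S B

def TLR (S : Multiset ℂ → ℂ) (A : Finset ℂ) (B : Multiset ℂ) (x : ℂ) : ℂ :=
  S (A.val + B) * S A.val * S (x ::ₘ B)

def FU (S : Multiset ℂ → ℂ) (A : Finset ℂ) (B : Multiset ℂ) (x Y : ℂ) : ℂ :=
  ∑ a ∈ A, (a - Y) * Wa A a * S (x ::ₘ ((A.erase a).val + B)) * S (a ::ₘ B) * S (A.erase a).val

def FLL (S : Multiset ℂ → ℂ) (A : Finset ℂ) (B : Multiset ℂ) (x X : ℂ) : ℂ :=
  ∑ a ∈ A, (a - X) * Wa A a * S ((A.erase a).val + B) * S (a ::ₘ B) * S (x ::ₘ (A.erase a).val)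

def FLR (S : Multiset ℂ → ℂ) (A : Finset ℂ) (B : Multiset ℂ) (x : ℂ) : ℂ :=
  ∑ a ∈ A, Wa A a * S ((A.erase a).val + B) * S (a ::ₘ x ::ₘ B) * S (A.erase a).val

/-- the left group -/
def Al (k : ℕ) (y : ℕ → ℂ) : Finset ℂ := (range k).image fun i => XX (y i)

/-- the right group -/
def Br (k m : ℕ) (y : ℕ → ℂ) : Multiset ℂ := (range m).val.map fun i => XX (y (i + (k + 1)))

/-- the right hand sides of the three formulas -/
def RU (S : Multiset ℂ → ℂ) (k m : ℕ) (y : ℕ → ℂ) : ℂ := (-om ^ 2) ^ ((k + m) / 2 - 1) *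
  (om ^ 2 * TU S (Al k y) (Br k m y) (XX (y k)) +
    om * FU S (Al k y) (Br k m y) (XX (y k)) (XX (om ^ 2 * y k)))

def RLL (S : Multiset ℂ → ℂ) (k m : ℕ) (y : ℕ → ℂ) : ℂ := (-om ^ 2) ^ ((k + m - 1) / 2) *
  (-om ^ 2 * TLL S (Al k y) (Br k m y) (XX (y k)) -
    om * FLL S (Al k y) (Br k m y) (XX (y k)) (XX (om * y k)))

def RLR (S : Multiset ℂ → ℂ) (k m : ℕ) (y : ℕ → ℂ) : ℂ := (-om ^ 2) ^ ((k + m - 1) / 2) *
  (-om ^ 2 * TLR S (Al k y) (Br k m y) (XX (y k)) - om * FLR S (Al k y) (Br k m y) (XX (y k)))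

end CF
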