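import Pool.Agent.Lib.MP_216314_pr.CF.Fin
import Pool.Agent.Lib.MP_216314_pr.Ca.CaAll

/-!
# Cardy's formula for the slit strip
-/

set_option autoImplicit false

noncomputable section

namespace CF

open Filter Topology

theorem exact : CD.Exact := fun p q => cardy_exact p q

/-- the exact crossing probability of the infinite slit strip -/
theorem cri_eq (p q : ℕ) : CD.cri (2 * p + 1) (2 * p + 2 * q + 3) = CDH.FF (2 * p + 1) (2 * q + 1) :=
  CD.cri_exact exact p q

end CF
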