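import Pool.Agent.Lib.MP_216314_pr.CF.SpB

/-!
# Inversion of the arguments of the two groups

`inv_of_sw`: general: a function invariant under the exchanges inside `[lo, hi)` and under the inversion of the argument `p0` in `[lo, hi)` is invariant under the inversion of every argument `j` in `[lo, hi)`: induction on the distance of `j` and `p0`, `iv j y = sw j (iv (j+1) (sw j y))` and `iv (j+1) y = sw j (iv j (sw j y))` (see `DD_inv` in `X/PairB.lean`).
`*_inv`: the argument `0` of the left group (`refl_left` for the vectors of the upper strip and of the lower left strip; `ivs (iv 0 y) = iv 0 (ivs y)`, `rv k (iv 0 y) = iv 0 (rv k y)` for `1 ≤ k`), and the argument `k + m` of the right group (`refl_right`; `rv k (iv (k+m) y) = iv (k+m-1) (rv k y)`, `sh (k+1) (iv (k+m) y) = iv (m-1) (sh (k+1) y)`, `sh k (iv (k+m) y) = iv m (sh k y)`).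
-/

set_option autoImplicit false

noncomputable section

namespace CF

open Finset PX

private theorem SpC_down (j : ℕ) (y : ℕ → ℂ) : iv j y = sw j (iv (j + 1) (sw j y)) := by
  funext k
  rcases eq_or_ne k j with h | h
  · rw [h, iv_self, sw_left, iv_self, sw_right]
  · rcases eq_or_ne k (j + 1) with h' | h'
    · rw [h', iv_of_ne (by omega), sw_right, iv_of_ne (by omega), sw_left]
    · rw [iv_of_ne h, sw_of_ne _ _ h h', iv_of_ne h', sw_of_ne _ _ h h']

private theorem SpC_up (j : ℕ) (y : ℕ → ℂ) : iv (j + 1) y = sw j (iv j (sw j y)) := by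
  funext k
  rcases eq_or_ne k j with h | h
  · rw [h, iv_of_ne (by omega), sw_left, iv_of_ne (by omega), sw_right]
  · rcases eq_or_ne k (j + 1) with h' | h'
    · rw [h', iv_self, sw_right, iv_self, sw_left]
    · rw [iv_of_ne h', sw_of_ne _ _ h h', iv_of_ne h, sw_of_ne _ _ h h']

theorem inv_of_sw {f : (ℕ → ℂ) → ℂ} {L lo hi p0 : ℕ} (hL : hi ≤ L)
    (hsw : ∀ i y, lo ≤ i → i + 1 < hi → NZ L y → f (sw i y) = f y) (hp1 : lo ≤ p0) (hp2 : p0 < hi)
    (hiv : ∀ y, NZ L y → f (iv p0 y) = f y) {y : ℕ → ℂ} (hy : NZ L y) {j : ℕ}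
    (hj1 : lo ≤ j) (hj2 : j < hi) : f (iv j y) = f y := by
  have hdown : ∀ m j : ℕ, j + m = p0 → lo ≤ j → ∀ y, NZ L y → f (iv j y) = f y := by
    intro m
    induction m with
    | zero =>
      intro j hj _ y hy
      have h1 : j = p0 := by omega
      rw [h1]
      exact hiv y hy
    | succ m ih =>
      intro j hj hlo y hy
      have h1 : NZ L (sw j y) := nz_sw hy (by omega)
      rw [SpC_down, hsw j _ hlo (by omega) (nz_iv h1 (by omega)), ih (j + 1) (by omega) (by omega) _ h1,
        hsw j _ hlo (by omega) hy]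
  have hup : ∀ m j : ℕ, j = p0 + m → j < hi → ∀ y, NZ L y → f (iv j y) = f y := by
    intro m
    induction m with
    | zero =>
      intro j hj _ y hy
      have h1 : j = p0 := by omega
      rw [h1]
      exact hiv y hy
    | succ m ih =>
      intro j hj hlt y hy
      obtain ⟨j', rfl⟩ : ∃ j', j = j' + 1 := ⟨p0 + m, by omega⟩
      have h1 : NZ L (sw j' y) := nz_sw hy (by omega)
      rw [SpC_up, hsw j' _ (by omega) hlt (nz_iv h1 (by omega)), ih j' (by omega) (by omega) _ h1,
        hsw j' _ (by omega) hlt hy]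
  rcases le_or_gt j p0 with h | h
  · exact hdown (p0 - j) j (by omega) hj1 y hy
  · exact hup (j - p0) j (by omega) hj2 y hy

private theorem SpC_ivs (i : ℕ) (y : ℕ → ℂ) : ivs (iv i y) = iv i (ivs y) := by
  funext k
  unfold ivs
  rcases eq_or_ne k i with h | h
  · rw [h, iv_self, iv_self]
  · rw [iv_of_ne h, iv_of_ne h]

private theorem SpC_nz_ivs {L : ℕ} {y : ℕ → ℂ} (h : NZ L y) : NZ L (ivs y) := nz_inv h

private theorem SpC_nz_le {L L' : ℕ} {y : ℕ → ℂ} (h : NZ L y) (hL : L' ≤ L) : NZ L' y :=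
  fun k hk => h k (by omega)

private theorem SpC_nz_rv {k m : ℕ} {y : ℕ → ℂ} (h : NZ (k + m + 1) y) : NZ (k + m) (rv k y) := by
  intro i hi
  unfold rv
  split_ifs with h1
  · exact h i (by omega)
  · exact h (i + 1) (by omega)

private theorem SpC_nz_sh {a L L' : ℕ} {y : ℕ → ℂ} (h : NZ L y) (hL : L' + a ≤ L) : NZ L' (sh a y) :=
  fun i hi => h (i + a) (by omega)

private theorem SpC_sh_zero {a : ℕ} (ha : 1 ≤ a) (y : ℕ → ℂ) : sh a (iv 0 y) = sh a y := by
  funext i
  unfold sh
  rw [iv_of_ne (by omega)]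

private theorem SpC_sh_iv (a b : ℕ) (y : ℕ → ℂ) : sh a (iv (b + a) y) = iv b (sh a y) := by
  funext i
  unfold sh
  rcases eq_or_ne i b with h | h
  · rw [h, iv_self, iv_self]
  · rw [iv_of_ne (by omega), iv_of_ne h]

private theorem SpC_rv_zero {k : ℕ} (hk : 1 ≤ k) (y : ℕ → ℂ) : rv k (iv 0 y) = iv 0 (rv k y) := by
  funext i
  unfold rv
  rcases eq_or_ne i 0 with h | h
  · rw [h, if_pos (by omega), iv_self, iv_self]
    show (y 0)⁻¹ = (if 0 < k then y 0 else y (0 + 1))⁻¹
    rw [if_pos (by omega)]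
  · rw [iv_of_ne h, iv_of_ne h, iv_of_ne (by omega)]

private theorem SpC_rv_iv {k b : ℕ} (hb : k ≤ b) (y : ℕ → ℂ) : rv k (iv (b + 1) y) = iv b (rv k y) := by
  funext i
  unfold rv
  rcases eq_or_ne i b with h | h
  · rw [h, if_neg (by omega), iv_self, iv_self]
    show (y (b + 1))⁻¹ = (if b < k then y b else y (b + 1))⁻¹
    rw [if_neg (by omega)]
  · rw [iv_of_ne h]
    split_ifs with h1
    · rw [iv_of_ne (by omega)]
    · rw [iv_of_ne (by omega)]

private theorem SpC_gv_far {L b : ℕ} (hb : L ≤ b) (y : ℕ → ℂ) : gv L (ivs (iv b y)) = gv L (ivs y) := by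
  apply gv_congr
  intro k hk
  unfold ivs
  rw [iv_of_ne (by omega)]

private theorem SpC_gv_zero {L : ℕ} (hL : 1 ≤ L) {y : ℕ → ℂ} (hy : NZ L y) :
    gv L (ivs (iv 0 y)) = gv L (ivs y) := by
  rw [SpC_ivs, refl_left hL (SpC_nz_ivs hy)]

private theorem SpC_gv_last {L : ℕ} {y : ℕ → ℂ} (hy : NZ (L + 1) y) :
    gv (L + 1) (ivs (iv L y)) = gv (L + 1) (ivs y) := by
  rw [SpC_ivs]
  have h := refl_right (L := L + 1) (by omega) (SpC_nz_ivs hy)
  rw [Nat.add_sub_cancel] at h
  exact h

theorem MU_inv {k m i : ℕ} {y : ℕ → ℂ} (hy : NZ (k + m + 1) y) (hi : i < k + m + 1) (hik : i ≠ k) :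
    MU k m (Function.update y i (y i)⁻¹) = MU k m y := by
  change MU k m (iv i y) = MU k m y
  rcases lt_or_gt_of_ne hik with h | h
  · refine inv_of_sw (f := MU k m) (L := k + m + 1) (lo := 0) (hi := k) (p0 := 0) (by omega) ?_ le_rfl (by omega) ?_ hy
      (Nat.zero_le _) h
    · intro i y _ h2 hy
      exact MU_sw hy (Or.inl h2)
    · intro y hy
      unfold MU
      rw [refl_left (by omega) hy, SpC_gv_zero (by omega) (SpC_nz_le hy (by omega)), SpC_sh_zero (by omega)]
  · obtain ⟨m, rfl⟩ : ∃ m', m = m' + 1 := ⟨m - 1, by omega⟩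
    refine inv_of_sw (f := MU k (m + 1)) (L := k + (m + 1) + 1) (lo := k + 1) (hi := k + (m + 1) + 1) (p0 := k + (m + 1))
      le_rfl ?_ (by omega) (by omega) ?_ hy (by omega) hi
    · intro i y h1 h2 hy
      exact MU_sw hy (Or.inr ⟨by omega, h2⟩)
    · intro y hy
      have h1 := refl_right (L := k + (m + 1) + 1) (by omega) hy
      rw [Nat.add_sub_cancel] at h1
      have h2 : sh (k + 1) (iv (k + (m + 1)) y) = iv m (sh (k + 1) y) := by
        have h3 := SpC_sh_iv (k + 1) m y
        have h4 : m + (k + 1) = k + (m + 1) := by omega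
        rw [h4] at h3
        exact h3
      unfold MU
      rw [h1, SpC_gv_far (by omega), h2, SpC_gv_last (SpC_nz_sh hy (by omega))]

theorem MLL_inv {k m i : ℕ} {y : ℕ → ℂ} (hy : NZ (k + m + 1) y) (hi : i < k + m + 1) (hik : i ≠ k) :
    MLL k m (Function.update y i (y i)⁻¹) = MLL k m y := by
  change MLL k m (iv i y) = MLL k m y
  rcases lt_or_gt_of_ne hik with h | h
  · refine inv_of_sw (f := MLL k m) (L := k + m + 1) (lo := 0) (hi := k) (p0 := 0) (by omega) ?_ le_rfl (by omega) ?_ hy
      (Nat.zero_le _) h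
    · intro i y _ h2 hy
      exact MLL_sw hy (Or.inl h2)
    · intro y hy
      unfold MLL
      rw [SpC_rv_zero (by omega), refl_left (by omega) (SpC_nz_rv hy), SpC_gv_zero (by omega) (SpC_nz_le hy (by omega)),
        SpC_sh_zero (by omega)]
  · obtain ⟨m, rfl⟩ : ∃ m', m = m' + 1 := ⟨m - 1, by omega⟩
    refine inv_of_sw (f := MLL k (m + 1)) (L := k + (m + 1) + 1) (lo := k + 1) (hi := k + (m + 1) + 1) (p0 := k + (m + 1))
      le_rfl ?_ (by omega) (by omega) ?_ hy (by omega) hi
    · intro i y h1 h2 hy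
      exact MLL_sw hy (Or.inr ⟨by omega, h2⟩)
    · intro y hy
      have h0 := SpC_nz_rv hy
      have h1 := refl_right (L := k + (m + 1)) (by omega) h0
      have h5 : k + (m + 1) - 1 = k + m := rfl
      rw [h5] at h1
      have h2 : sh (k + 1) (iv (k + (m + 1)) y) = iv m (sh (k + 1) y) := by
        have h3 := SpC_sh_iv (k + 1) m y
        have h4 : m + (k + 1) = k + (m + 1) := by omega
        rw [h4] at h3
        exact h3
      have h6 : rv k (iv (k + (m + 1)) y) = iv (k + m) (rv k y) :=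
        SpC_rv_iv (k := k) (b := k + m) (by omega) y
      unfold MLL
      rw [h6, h1, SpC_gv_far (by omega), h2, SpC_gv_last (SpC_nz_sh hy (by omega))]

theorem MLR_inv {k m i : ℕ} {y : ℕ → ℂ} (hy : NZ (k + m + 1) y) (hi : i < k + m + 1) (hik : i ≠ k) :
    MLR k m (Function.update y i (y i)⁻¹) = MLR k m y := by
  change MLR k m (iv i y) = MLR k m y
  rcases lt_or_gt_of_ne hik with h | h
  · refine inv_of_sw (f := MLR k m) (L := k + m + 1) (lo := 0) (hi := k) (p0 := 0) (by omega) ?_ le_rfl (by omega) ?_ hy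
      (Nat.zero_le _) h
    · intro i y _ h2 hy
      exact MLR_sw hy (Or.inl h2)
    · intro y hy
      unfold MLR
      rw [SpC_rv_zero (by omega), refl_left (by omega) (SpC_nz_rv hy), SpC_gv_zero (by omega) (SpC_nz_le hy (by omega)),
        SpC_sh_zero (by omega)]
  · refine inv_of_sw (f := MLR k m) (L := k + m + 1) (lo := k + 1) (hi := k + m + 1) (p0 := k + m)
      le_rfl ?_ (by omega) (by omega) ?_ hy (by omega) hi
    · intro i y h1 h2 hy
      exact MLR_sw hy (Or.inr ⟨by omega, h2⟩)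
    · intro y hy
      have h0 := SpC_nz_rv hy
      have h1 := refl_right (L := k + m) (by omega) h0
      have h2 : sh k (iv (k + m) y) = iv m (sh k y) := by
        have h3 := SpC_sh_iv k m y
        have h4 : m + k = k + m := by omega
        rw [h4] at h3
        exact h3
      have h6 : rv k (iv (k + m) y) = iv (k + m - 1) (rv k y) := by
        have h7 := SpC_rv_iv (k := k) (b := k + m - 1) (by omega) y
        have h8 : k + m - 1 + 1 = k + m := by omega
        rw [h8] at h7
        exact h7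
      unfold MLR
      rw [h6, h1, SpC_gv_far (by omega), h2, SpC_gv_last (SpC_nz_sh hy (by omega))]

end CF
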