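import Pool.Agent.Lib.MP_216314_pr.CF.Def

/-!
# Degrees in the argument of the tip strand

As `DD_deg` in `X/PairB.lean`. `MU_deg`: `gv_deg (k+m+1) k` for every configuration; the other factors do not depend on `y k` (`gv_congr`).
`MLL_deg`: `gv_deg_inv (k+1) k` at `ivs y` (`ivs (update y k t) = update (ivs y) k t⁻¹`); `rv k (update y k t) = rv k y`, `sh (k+1) (update y k t) = sh (k+1) y`. `MLR_deg`: `gv_deg_inv (m+1) 0` at `ivs (sh k y)`: `sh k (update y k t) = update (sh k y) 0 t`.
The polynomial is the double sum of constants times the polynomials (`Polynomial.natDegree_sum_le_of_forall_le`, `Polynomial.natDegree_C_mul_le`).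
-/

set_option autoImplicit false

noncomputable section

namespace CF

open Finset PX

private theorem SpD_ivs_update (k : ℕ) (y : ℕ → ℂ) (t : ℂ) :
    ivs (Function.update y k t) = Function.update (ivs y) k t⁻¹ := by
  funext j
  unfold ivs
  rcases eq_or_ne j k with h | h
  · rw [h, Function.update_self, Function.update_self]
  · rw [Function.update_of_ne h, Function.update_of_ne h]

private theorem SpD_rv_update (k : ℕ) (y : ℕ → ℂ) (t : ℂ) : rv k (Function.update y k t) = rv k y := by
  funext j
  unfold rv
  by_cases h : j < k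
  · rw [if_pos h, if_pos h, Function.update_of_ne (by omega)]
  · rw [if_neg h, if_neg h, Function.update_of_ne (by omega)]

private theorem SpD_sh_update (k : ℕ) (y : ℕ → ℂ) (t : ℂ) :
    sh (k + 1) (Function.update y k t) = sh (k + 1) y := by
  funext j
  unfold sh
  rw [Function.update_of_ne (by omega)]

private theorem SpD_sh_update_zero (k : ℕ) (y : ℕ → ℂ) (t : ℂ) :
    sh k (Function.update y k t) = Function.update (sh k y) 0 t := by
  funext j
  rcases eq_or_ne j 0 with h | h
  · rw [h, Function.update_self]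
    unfold sh
    rw [show 0 + k = k by omega, Function.update_self]
  · rw [Function.update_of_ne h]
    unfold sh
    rw [Function.update_of_ne (by omega)]

private theorem SpD_gv_ivs (k : ℕ) (y : ℕ → ℂ) (t : ℂ) :
    gv k (ivs (Function.update y k t)) = gv k (ivs y) := by
  refine gv_congr fun j hj => ?_
  unfold ivs
  rw [Function.update_of_ne (by omega)]

/-- double sum of constants times polynomials -/
private theorem SpD_sum (A B : Finset (Finset ℕ)) (a b : ℕ) (f c : Finset ℕ → Finset ℕ → ℂ → ℂ)
    (F : ℂ → ℂ) (hF : ∀ t, F t = ∑ s ∈ A, ∑ u ∈ B, f s u t * c s u t)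
    (hc : ∀ s u t, c s u t = c s u 1)
    (h : ∀ s u, ∃ p : Polynomial ℂ, p.natDegree ≤ b ∧ ∀ t : ℂ, t ≠ 0 → t ^ a * f s u t = p.eval t) :
    ∃ p : Polynomial ℂ, p.natDegree ≤ b ∧ ∀ t : ℂ, t ≠ 0 → t ^ a * F t = p.eval t := by
  choose p hp he using h
  refine ⟨∑ s ∈ A, ∑ u ∈ B, Polynomial.C (c s u 1) * p s u, ?_, ?_⟩
  · refine Polynomial.natDegree_sum_le_of_forall_le _ _ fun s _ => ?_
    refine Polynomial.natDegree_sum_le_of_forall_le _ _ fun u _ => ?_
    exact (Polynomial.natDegree_C_mul_le _ _).trans (hp s u)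
  · intro t ht
    rw [hF, Polynomial.eval_finsetSum, Finset.mul_sum]
    refine Finset.sum_congr rfl fun s _ => ?_
    rw [Polynomial.eval_finsetSum, Finset.mul_sum]
    refine Finset.sum_congr rfl fun u _ => ?_
    rw [Polynomial.eval_mul, Polynomial.eval_C, ← he s u t ht, hc s u t]
    ring

theorem MU_deg (k m : ℕ) : Deg1 (k + m + 1) k ((k + m) / 2) (2 * ((k + m) / 2)) (MU k m) := by
  intro y hy
  refine SpD_sum (cfn k (k / 2)) (cfn m (m / 2)) _ _
    (fun s u t => gv (k + m + 1) (Function.update y k t) (s ∪ insert k (su (k + 1) u)))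
    (fun s u t => gv k (ivs (Function.update y k t)) s *
      gv m (ivs (sh (k + 1) (Function.update y k t))) u)
    (fun t => MU k m (Function.update y k t)) ?_ ?_ ?_
  · intro t
    show MU k m (Function.update y k t) = _
    unfold MU
    refine Finset.sum_congr rfl fun s _ => Finset.sum_congr rfl fun u _ => ?_
    ring
  · intro s u t
    simp only [SpD_gv_ivs, SpD_sh_update]
  · intro s u
    exact gv_deg (k + m + 1) k (by omega) _ y hy

theorem MLL_deg (k m : ℕ) : Deg1 (k + m + 1) k (k / 2) (2 * (k / 2)) (MLL k m) := by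
  intro y hy
  refine SpD_sum (cfn k (k / 2)) (cfn m (m / 2)) _ _
    (fun s u t => gv (k + 1) (ivs (Function.update y k t)) s)
    (fun s u t => gv (k + m) (rv k (Function.update y k t)) (s ∪ su k u) *
      gv m (ivs (sh (k + 1) (Function.update y k t))) u)
    (fun t => MLL k m (Function.update y k t)) ?_ ?_ ?_
  · intro t
    show MLL k m (Function.update y k t) = _
    unfold MLL
    refine Finset.sum_congr rfl fun s _ => Finset.sum_congr rfl fun u _ => ?_
    ring
  · intro s u t
    simp only [SpD_rv_update, SpD_sh_update]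
  · intro s u
    have h := gv_deg_inv (k + 1) k (by omega) s (ivs y)
      (fun j hj => inv_ne_zero (hy j (by omega)))
    obtain ⟨p, hp, he⟩ := h
    refine ⟨p, hp, fun t ht => ?_⟩
    show t ^ (k / 2) * gv (k + 1) (ivs (Function.update y k t)) s = _
    rw [SpD_ivs_update]
    exact he t ht

theorem MLR_deg (k m : ℕ) : Deg1 (k + m + 1) k (m / 2) (2 * (m / 2)) (MLR k m) := by
  intro y hy
  refine SpD_sum (cfn k (k / 2)) (cfn m (m / 2)) _ _
    (fun s u t => gv (m + 1) (ivs (sh k (Function.update y k t))) (su 1 u))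
    (fun s u t => gv (k + m) (rv k (Function.update y k t)) (s ∪ su k u) *
      gv k (ivs (Function.update y k t)) s)
    (fun t => MLR k m (Function.update y k t)) ?_ ?_ ?_
  · intro t
    show MLR k m (Function.update y k t) = _
    unfold MLR
    refine Finset.sum_congr rfl fun s _ => Finset.sum_congr rfl fun u _ => ?_
    ring
  · intro s u t
    simp only [SpD_rv_update, SpD_gv_ivs]
  · intro s u
    have h := gv_deg_inv (m + 1) 0 (by omega) (su 1 u) (ivs (sh k y))
      (fun j hj => inv_ne_zero (hy (j + k) (by omega)))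
    obtain ⟨p, hp, he⟩ := h
    refine ⟨p, hp, fun t ht => ?_⟩
    show t ^ (m / 2) * gv (m + 1) (ivs (sh k (Function.update y k t))) (su 1 u) = _
    rw [SpD_sh_update_zero, SpD_ivs_update]
    exact he t ht

end CF
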