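import Pool.Agent.Lib.MP_216314_pr.CF.SpG

/-!
# Fusion of the tip strand in the upper strip, pair at the right end of the left group

`y = ip a (y a) (dl a y)` (`ip_dl`), `fusion (a+m) a`: `gv (a+m+2) y = Kf (a+m) (y a) (dl a y) • Ins a (gv (a+m) (dl a y))` (`nz_dl`). At a configuration `D = s ∪ insert (a+1) (su (a+1+1) t)`: `Ins_apply`, `cc (a ∈ D) (a+1 ∈ D)` is `0` if `a ∈ s` and `-om²` if `a ∉ s`, and `rm a D = s ∪ su a t` (`rm_left`).
The configurations `s ∈ cfn (a+1) ((a+1)/2)` with `a ∈ s` give zero; `(a+1)/2 = a/2`, `sum_last0`. `rv a (rv (a+1) y) = dl a y`, `ivs (rv (a+1) y)` agrees with `ivs y` on `0..a` (`gv_congr`), `sh (a+1) (rv (a+1) y) = sh (a+1+1) y`.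
-/

set_option autoImplicit false

noncomputable section

namespace CF

open Finset PX

private theorem SpE_rv (a : ℕ) (y : ℕ → ℂ) : rv a (rv (a + 1) y) = dl a y := by
  funext i
  show (if i < a then (if i < a + 1 then y i else y (i + 1)) else
    (if i + 1 < a + 1 then y (i + 1) else y (i + 1 + 1))) = if i < a then y i else y (i + 2)
  by_cases h : i < a
  · rw [if_pos h, if_pos h, if_pos (by omega)]
  · rw [if_neg h, if_neg h, if_neg (by omega)]

private theorem SpE_sh (a : ℕ) (y : ℕ → ℂ) : sh (a + 1) (rv (a + 1) y) = sh (a + 1 + 1) y := by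
  funext i
  show (if i + (a + 1) < a + 1 then y (i + (a + 1)) else y (i + (a + 1) + 1)) = y (i + (a + 1 + 1))
  rw [if_neg (by omega)]
  rfl

private theorem SpE_ivs (a : ℕ) (y : ℕ → ℂ) :
    gv (a + 1) (ivs (rv (a + 1) y)) = gv (a + 1) (ivs y) := by
  refine gv_congr fun k hk => ?_
  show ((if k < a + 1 then y k else y (k + 1)) : ℂ)⁻¹ = (y k)⁻¹
  rw [if_pos hk]

private theorem SpE_D {a m : ℕ} {y : ℕ → ℂ} (hy : NZ (a + 1 + m + 1) y)
    (h : y (a + 1) = om * y a) (D : Finset ℕ) :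
    gv (a + 1 + m + 1) y D = Kf (a + m) (y a) (dl a y) *
      (cc (a ∈ D) (a + 1 ∈ D) * gv (a + m) (dl a y) (rm a D)) := by
  have e : a + 1 + m + 1 = a + m + 2 := by omega
  rw [e] at hy ⊢
  have h1 := fusion (a + m) a (by omega) (hy a (by omega)) (nz_dl hy a)
  rw [ip_dl a y h] at h1
  rw [h1]
  rfl

theorem MU_left {a m : ℕ} {y : ℕ → ℂ} (ha : Even a) (hm : Odd m) (hy : NZ (a + 1 + m + 1) y)
    (h : y (a + 1) = om * y a) :
    MU (a + 1) m y = -om ^ 2 * Kf (a + m) (y a) (dl a y) * MLL a m (rv (a + 1) y) := by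
  have e : (a + 1) / 2 = a / 2 := by
    obtain ⟨r, hr⟩ := ha
    omega
  unfold MU MLL
  rw [e, sum_last0 a (a / 2) _ ?_, Finset.mul_sum]
  · refine Finset.sum_congr rfl fun s hs => ?_
    have hsr : s ⊆ range a := (mem_cfn.1 hs).1
    rw [Finset.mul_sum]
    refine Finset.sum_congr rfl fun t _ => ?_
    have hn : a ∉ s ∪ insert (a + 1) (su (a + 1 + 1) t) := by
      rw [mem_union, mem_insert, mem_su]
      rintro (h1 | h1 | ⟨z, _, h1⟩)
      · have := mem_range.1 (hsr h1)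
        omega
      · omega
      · omega
    have hp : a + 1 ∈ s ∪ insert (a + 1) (su (a + 1 + 1) t) := by
      rw [mem_union, mem_insert]
      exact Or.inr (Or.inl rfl)
    have hcc : cc (a ∈ s ∪ insert (a + 1) (su (a + 1 + 1) t))
        (a + 1 ∈ s ∪ insert (a + 1) (su (a + 1 + 1) t)) = -om ^ 2 := by
      unfold cc
      rw [if_neg hn, if_pos hp]
    rw [SpE_D hy h, hcc, rm_left hsr t, SpE_rv, SpE_sh, SpE_ivs]
    ring
  · intro s hs has
    refine Finset.sum_eq_zero fun t _ => ?_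
    have hp0 : a ∈ s ∪ insert (a + 1) (su (a + 1 + 1) t) := mem_union_left _ has
    have hp : a + 1 ∈ s ∪ insert (a + 1) (su (a + 1 + 1) t) := by
      rw [mem_union, mem_insert]
      exact Or.inr (Or.inl rfl)
    have hcc : cc (a ∈ s ∪ insert (a + 1) (su (a + 1 + 1) t))
        (a + 1 ∈ s ∪ insert (a + 1) (su (a + 1 + 1) t)) = 0 := by
      unfold cc
      rw [if_pos hp0, if_pos hp]
    rw [SpE_D hy h, hcc]
    ring

end CF
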