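import Pool.Agent.Lib.MP_216314_pr.CF.SpG

/-!
# Fusion of the tip strand in the lower left strip

The lower left vector is `gv (a+2) (ivs y)`, `ivs y (a+1) = om * ivs y a` (`(om²)⁻¹ = om`): `fusion a a` with `u = (y a)⁻¹`: `gv (a+2) (ivs y) = Kf a u (ivs y) • Ins a (gv a (ivs y))` (`dl a (ivs y)` agrees with `ivs y` on `0..a-1`: `gv_congr`, and `Kf` is a product over `range a`).
The configurations are `s ∈ cfn (a+1) ((a+1)/2)`, `a+1 ∉ s`: those with `a ∉ s` give zero (`Ins_apply`, `cc`); the others are `insert a s'`, `s' ∈ cfn a (a/2)` (`(a+1)/2 = a/2 + 1`, `sum_last1`) with value `gv a (ivs y) s'` (`rm_last`). The upper vector: `insert a s' ∪ su (a+1) t = s' ∪ insert a (su (a+1) t)`; `sh (a+1) (rv (a+1) y) = sh (a+1+1) y`.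
-/

set_option autoImplicit false

noncomputable section

namespace CF

open Finset PX

private theorem SpF_gv {a : ℕ} {y : ℕ → ℂ} (hy : NZ (a + 2) y) (h : y (a + 1) = om ^ 2 * y a) (s : Finset ℕ) :
    gv (a + 1 + 1) (ivs y) s =
      Kf a (y a)⁻¹ (ivs y) * (cc (a ∈ s) (a + 1 ∈ s) * gv a (ivs y) (rm a s)) := by
  have h1 : ivs y (a + 1) = om * ivs y a := by
    unfold ivs
    rw [h, mul_inv]
    have h2 : (om ^ 2)⁻¹ = om := by
      apply inv_eq_of_mul_eq_one_right
      linear_combination om_cube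
    rw [h2]
  have h3 : ip a (ivs y a) (dl a (ivs y)) = ivs y := ip_dl a (ivs y) h1
  have h4 : ∀ k, k < a → dl a (ivs y) k = ivs y k := by
    intro k hk
    unfold dl
    rw [if_pos hk]
  have h5 : NZ a (dl a (ivs y)) := by
    intro k hk
    rw [h4 k hk]
    exact inv_ne_zero (hy k (by omega))
  have h6 : ivs y a ≠ 0 := inv_ne_zero (hy a (by omega))
  have h7 := fusion a a (le_refl a) h6 h5
  rw [h3] at h7
  have h8 : gv a (dl a (ivs y)) = gv a (ivs y) := gv_congr h4
  have h9 : Kf a (ivs y a) (dl a (ivs y)) = Kf a (y a)⁻¹ (ivs y) := by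
    unfold Kf
    refine prod_congr rfl fun k hk => ?_
    rw [h4 k (mem_range.1 hk)]
    rfl
  rw [h8, h9] at h7
  have h10 : gv (a + 1 + 1) (ivs y) s = (Kf a (y a)⁻¹ (ivs y) • (Ins a) (gv a (ivs y))) s :=
    congrFun h7 s
  rw [h10, Pi.smul_apply, smul_eq_mul, Ins_apply]

theorem MLL_fus {a m : ℕ} {y : ℕ → ℂ} (ha : Odd a) (hm : Odd m) (hy : NZ (a + 1 + m + 1) y)
    (h : y (a + 1) = om ^ 2 * y a) :
    MLL (a + 1) m y = Kf a (y a)⁻¹ (ivs y) * MU a m (rv (a + 1) y) := by
  have _ := hm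
  have hy' : NZ (a + 2) y := fun k hk => hy k (by omega)
  have hg := SpF_gv hy' h
  have hn : (a + 1) / 2 = a / 2 + 1 := by
    obtain ⟨b, hb⟩ := ha
    omega
  have hc : a + 1 + m = a + m + 1 := by omega
  have hrv : ∀ k, k < a + 1 → rv (a + 1) y k = y k := by
    intro k hk
    unfold rv
    rw [if_pos hk]
  have hiv : gv a (ivs (rv (a + 1) y)) = gv a (ivs y) := gv_congr fun k hk => by
    unfold ivs
    rw [hrv k (by omega)]
  have hsh : sh (a + 1) (rv (a + 1) y) = sh (a + 1 + 1) y := by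
    funext i
    unfold sh rv
    rw [if_neg (by omega)]
    rfl
  unfold MLL MU
  rw [hn, sum_last1 a (a / 2) (fun s => ∑ t ∈ cfn m (m / 2),
    gv (a + 1 + m) (rv (a + 1) y) (s ∪ su (a + 1) t) * gv (a + 1 + 1) (ivs y) s *
      gv m (ivs (sh (a + 1 + 1) y)) t) ?_, mul_sum]
  · refine sum_congr rfl fun s hs => ?_
    rw [mul_sum]
    refine sum_congr rfl fun t _ => ?_
    have hs' : s ⊆ range a := (mem_cfn.1 hs).1
    have h1 : a + 1 ∉ insert a s := by
      intro hx
      rcases mem_insert.1 hx with h2 | h2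
      · omega
      · have := mem_range.1 (hs' h2)
        omega
    have h3 : cc (a ∈ insert a s) (a + 1 ∈ insert a s) = 1 := by
      unfold cc
      rw [if_pos (mem_insert_self a s), if_neg h1]
    rw [hg, h3, rm_last hs', one_mul, hiv, hsh, hc, insert_union, union_insert]
    ring
  · intro s hs ha'
    refine sum_eq_zero fun t _ => ?_
    have h1 : a + 1 ∉ s := by
      intro hx
      have := mem_range.1 (hs hx)
      omega
    have h3 : cc (a ∈ s) (a + 1 ∈ s) = 0 := by
      unfold cc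
      rw [if_neg ha', if_neg h1]
    rw [hg, h3]
    ring

end CF
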