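import Pool.Agent.Lib.MP_216314_pr.CF.SpG

/-!
# Fusion of the tip strand in the upper strip, pair at the left end of the right group
-/

set_option autoImplicit false

noncomputable section

namespace CF

open Finset PX

private theorem SpH_rv (k : ℕ) (y : ℕ → ℂ) : rv k (rv k y) = dl k y := by
  funext i
  show (if i < k then (if i < k then y i else y (i + 1)) else
    (if i + 1 < k then y (i + 1) else y (i + 1 + 1))) = if i < k then y i else y (i + 2)
  by_cases h : i < k
  · rw [if_pos h, if_pos h, if_pos h]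
  · rw [if_neg h, if_neg h, if_neg (by omega)]

private theorem SpH_sh (k : ℕ) (y : ℕ → ℂ) : sh k (rv k y) = sh (k + 1) y := by
  funext i
  show (if i + k < k then y (i + k) else y (i + k + 1)) = y (i + (k + 1))
  rw [if_neg (by omega)]
  rfl

private theorem SpH_ivs (k : ℕ) (y : ℕ → ℂ) : gv k (ivs (rv k y)) = gv k (ivs y) := by
  refine gv_congr fun i hi => ?_
  show ((if i < k then y i else y (i + 1)) : ℂ)⁻¹ = (y i)⁻¹
  rw [if_pos hi]

private theorem SpH_D {k b : ℕ} {y : ℕ → ℂ} (hy : NZ (k + (b + 1) + 1) y)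
    (h : y (k + 1) = om * y k) (D : Finset ℕ) :
    gv (k + (b + 1) + 1) y D = Kf (k + b) (y k) (dl k y) *
      (cc (k ∈ D) (k + 1 ∈ D) * gv (k + b) (dl k y) (rm k D)) := by
  have e : k + (b + 1) + 1 = k + b + 2 := by omega
  rw [e] at hy ⊢
  have h1 := fusion (k + b) k (by omega) (hy k (by omega)) (nz_dl hy k)
  rw [ip_dl k y h] at h1
  rw [h1]
  rfl

theorem MU_right {k b : ℕ} {y : ℕ → ℂ} (hk : Odd k) (hb : Even b) (hy : NZ (k + (b + 1) + 1) y)
    (h : y (k + 1) = om * y k) :
    MU k (b + 1) y = Kf (k + b) (y k) (dl k y) * MLR k b (rv k y) := by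
  have e : (b + 1) / 2 = b / 2 := by
    obtain ⟨r, hr⟩ := hb
    omega
  unfold MU MLR
  rw [e, Finset.mul_sum]
  refine Finset.sum_congr rfl fun s hs => ?_
  have hsr : s ⊆ range k := (mem_cfn.1 hs).1
  rw [sum_first0 b (b / 2) _ ?_, Finset.mul_sum]
  · refine Finset.sum_congr rfl fun t _ => ?_
    have hp : k ∈ s ∪ insert k (su (k + 1) (su 1 t)) := by
      rw [mem_union, mem_insert]
      exact Or.inr (Or.inl rfl)
    have hn : k + 1 ∉ s ∪ insert k (su (k + 1) (su 1 t)) := by
      rw [mem_union, mem_insert, mem_su]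
      rintro (h1 | h1 | ⟨z, hz, h1⟩)
      · have := mem_range.1 (hsr h1)
        omega
      · omega
      · rw [mem_su] at hz
        obtain ⟨z', -, hz'⟩ := hz
        omega
    have hcc : cc (k ∈ s ∪ insert k (su (k + 1) (su 1 t)))
        (k + 1 ∈ s ∪ insert k (su (k + 1) (su 1 t))) = 1 := by
      unfold cc
      rw [if_pos hp, if_neg hn]
    rw [SpH_D hy h, hcc, rm_right hsr t, SpH_rv, SpH_sh, SpH_ivs]
    ring
  · intro t _ h0
    have hp : k ∈ s ∪ insert k (su (k + 1) t) := by
      rw [mem_union, mem_insert]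
      exact Or.inr (Or.inl rfl)
    have hp1 : k + 1 ∈ s ∪ insert k (su (k + 1) t) := by
      rw [mem_union, mem_insert, mem_su]
      exact Or.inr (Or.inr ⟨0, h0, by omega⟩)
    have hcc : cc (k ∈ s ∪ insert k (su (k + 1) t)) (k + 1 ∈ s ∪ insert k (su (k + 1) t)) = 0 := by
      unfold cc
      rw [if_pos hp, if_pos hp1]
    rw [SpH_D hy h, hcc]
    ring

end CF
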