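import Pool.Agent.Lib.MP_216314_pr.CF.SpG

/-!
# Fusion of the tip strand in the lower right strip

The lower right vector is `gv (b+2) (ivs (sh k y))`, `ivs (sh k y) 1 = om * ivs (sh k y) 0` (`(om²)⁻¹ = om`): `fusion b 0` with `u = (y k)⁻¹`, `dl 0 (ivs (sh k y)) = ivs (sh (k+2) y)`. The configurations `su 1 t`, `t ∈ cfn (b+1) ((b+1)/2)`: `0` is not in; those with `0 ∉ t` give zero (`Ins_apply`, `cc`), the others `t = insert 0 (su 1 t')`, `t' ∈ cfn b (b/2)` (`(b+1)/2 = b/2 + 1`, `sum_first1`) have the value `-om² gv b (ivs (sh (k+2) y)) t'` (`rm_first`).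
The upper vector: `s ∪ su k (insert 0 (su 1 t')) = s ∪ insert k (su (k+1) t')`; `sh (k+1) (rv k y) = sh (k+2) y`, `ivs (rv k y)` agrees with `ivs y` on `0..k-1`.
-/

set_option autoImplicit false

noncomputable section

namespace CF

open Finset PX

private theorem SpJ_val {k b : ℕ} {y : ℕ → ℂ} (hy : NZ (k + (b + 1) + 1) y)
    (h : y (k + 1) = om ^ 2 * y k) (t : Finset ℕ) :
    gv (b + 1 + 1) (ivs (sh k y)) t =
      Kf b (y k)⁻¹ (ivs (sh (k + 2) y)) * Ins 0 (gv b (ivs (sh (k + 2) y))) t := by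
  have h0 : ivs (sh k y) 0 = (y k)⁻¹ := by
    show (y (0 + k))⁻¹ = (y k)⁻¹
    rw [Nat.zero_add]
  have h1 : ivs (sh k y) (0 + 1) = om * ivs (sh k y) 0 := by
    rw [h0]
    show (y (0 + 1 + k))⁻¹ = om * (y k)⁻¹
    have e : 0 + 1 + k = k + 1 := by omega
    rw [e, h, mul_inv]
    have e2 : (om ^ 2)⁻¹ = om := by
      rw [← om_inv, inv_inv]
    rw [e2]
  have h2 := ip_dl 0 (ivs (sh k y)) h1
  have h3 : dl 0 (ivs (sh k y)) = ivs (sh (k + 2) y) := by
    funext i
    show (if i < 0 then ivs (sh k y) i else ivs (sh k y) (i + 2)) = ivs (sh (k + 2) y) i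
    rw [if_neg (Nat.not_lt_zero i)]
    show (y (i + 2 + k))⁻¹ = (y (i + (k + 2)))⁻¹
    have e : i + 2 + k = i + (k + 2) := by omega
    rw [e]
  rw [h3, h0] at h2
  have hu : (y k)⁻¹ ≠ 0 := inv_ne_zero (hy k (by omega))
  have hw : NZ b (ivs (sh (k + 2) y)) := by
    intro i hi
    exact inv_ne_zero (hy (i + (k + 2)) (by omega))
  have h4 := fusion b 0 (Nat.zero_le b) hu hw
  rw [h2] at h4
  have h5 := congrFun h4 t
  rw [Pi.smul_apply, smul_eq_mul] at h5
  exact h5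

private theorem SpJ_cc0 {t : Finset ℕ} (ht : 0 ∉ t) (v : Vec) : Ins 0 v (su 1 t) = 0 := by
  have e0 : 0 ∉ su 1 t := by
    intro h
    have := (mem_su'.mp h).1
    omega
  have e1 : (0 + 1) ∉ su 1 t := by
    intro h
    exact ht (add_mem_su.mp h)
  rw [Ins_apply]
  simp only [cc, e0, e1, if_false, zero_mul]

private theorem SpJ_cc1 (t : Finset ℕ) (v : Vec) :
    Ins 0 v (su 1 (insert 0 (su 1 t))) = -om ^ 2 * v t := by
  have e0 : 0 ∉ su 1 (insert 0 (su 1 t)) := by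
    intro h
    have := (mem_su'.mp h).1
    omega
  have e1 : (0 + 1) ∈ su 1 (insert 0 (su 1 t)) := by
    rw [add_mem_su]
    exact Finset.mem_insert_self _ _
  rw [Ins_apply, rm_first]
  simp only [cc, e0, e1, if_false, if_true]

theorem MLR_fus {k b : ℕ} {y : ℕ → ℂ} (hk : Odd k) (hb : Odd b) (hy : NZ (k + (b + 1) + 1) y)
    (h : y (k + 1) = om ^ 2 * y k) :
    MLR k (b + 1) y = -om ^ 2 * Kf b (y k)⁻¹ (ivs (sh (k + 2) y)) * MU k b (rv k y) := by
  have hb2 : (b + 1) / 2 = b / 2 + 1 := by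
    obtain ⟨c, hc⟩ := hb
    omega
  unfold MLR MU
  rw [Finset.mul_sum, hb2]
  refine Finset.sum_congr rfl fun s _ => ?_
  rw [Finset.mul_sum]
  rw [sum_first1 b (b / 2) (fun t => gv (k + (b + 1)) (rv k y) (s ∪ su k t) * gv k (ivs y) s *
    gv (b + 1 + 1) (ivs (sh k y)) (su 1 t)) ?_]
  · refine Finset.sum_congr rfl fun t _ => ?_
    show gv (k + (b + 1)) (rv k y) (s ∪ su k (insert 0 (su 1 t))) * gv k (ivs y) s *
      gv (b + 1 + 1) (ivs (sh k y)) (su 1 (insert 0 (su 1 t))) = _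
    rw [SpJ_val hy h, SpJ_cc1]
    have e1 : su k (insert 0 (su 1 t)) = insert k (su (k + 1) t) := by
      rw [su_insert, su_su, Nat.zero_add, Nat.add_comm 1 k]
    have e2 : gv k (ivs (rv k y)) = gv k (ivs y) := gv_congr fun i hi => by
      show (if i < k then y i else y (i + 1))⁻¹ = (y i)⁻¹
      rw [if_pos hi]
    have e3 : ivs (sh (k + 1) (rv k y)) = ivs (sh (k + 2) y) := by
      funext i
      show (if i + (k + 1) < k then y (i + (k + 1)) else y (i + (k + 1) + 1))⁻¹ =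
        (y (i + (k + 2)))⁻¹
      rw [if_neg (by omega)]
      have e : i + (k + 1) + 1 = i + (k + 2) := by omega
      rw [e]
    have e4 : k + (b + 1) = k + b + 1 := by omega
    rw [e1, e2, e3, e4]
    ring
  · intro t _ ht
    show gv (k + (b + 1)) (rv k y) (s ∪ su k t) * gv k (ivs y) s *
      gv (b + 1 + 1) (ivs (sh k y)) (su 1 t) = 0
    rw [SpJ_val hy h, SpJ_cc0 ht, mul_zero, mul_zero]

theorem MLL_zero {m : ℕ} (y : ℕ → ℂ) (hm : Odd m) : MLL 0 m y = DD m (sh 1 y) := by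
  have h0 : cfn 0 (0 / 2) = {∅} := cfn_zero
  unfold MLL DD BF
  rw [h0, Finset.sum_singleton]
  refine Finset.sum_congr rfl fun t _ => ?_
  have e1 : gv (0 + m) (rv 0 y) = gv m (sh 1 y) := by
    rw [Nat.zero_add]
    refine gv_congr fun i _ => ?_
    show (if i < 0 then y i else y (i + 1)) = y (i + 1)
    rw [if_neg (Nat.not_lt_zero i)]
  rw [e1, su_zero, Finset.empty_union, gv_one]
  show gv m (sh 1 y) t * 1 * gv m (ivs (sh 1 y)) t = 1 * gv m (ivs (sh 1 y)) t * gv m (sh 1 y) t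
  ring

theorem MLR_zero {k : ℕ} (y : ℕ → ℂ) (hk : Odd k) : MLR k 0 y = DD k y := by
  have h0 : cfn 0 (0 / 2) = {∅} := cfn_zero
  unfold MLR DD BF
  refine Finset.sum_congr rfl fun s _ => ?_
  rw [h0, Finset.sum_singleton]
  have e1 : gv (k + 0) (rv k y) = gv k y := by
    rw [Nat.add_zero]
    refine gv_congr fun i hi => ?_
    show (if i < k then y i else y (i + 1)) = y i
    rw [if_pos hi]
  rw [e1, su_empty, su_empty, Finset.union_empty, gv_one]
  ring

end CF
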