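import Pool.Agent.Lib.MP_216314_pr.CF.Main
import Pool.Agent.Lib.MP_216314_pr.CF.SpC
import Pool.Agent.Lib.MP_216314_pr.CF.SpD
import Pool.Agent.Lib.MP_216314_pr.CF.SpE
import Pool.Agent.Lib.MP_216314_pr.CF.SpH
import Pool.Agent.Lib.MP_216314_pr.CF.SpF
import Pool.Agent.Lib.MP_216314_pr.CF.SpJ

/-!
# The spin side of the inhomogeneous formula
-/

set_option autoImplicit false

noncomputable section

namespace CF

open Finset PX

theorem facts : Facts where
  MU_sy := fun _ _ _ _ => ⟨fun _ _ hy h => MU_sw hy h, fun _ _ hy hi hik => MU_inv hy hi hik⟩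
  MLL_sy := fun _ _ _ _ => ⟨fun _ _ hy h => MLL_sw hy h, fun _ _ hy hi hik => MLL_inv hy hi hik⟩
  MLR_sy := fun _ _ _ _ => ⟨fun _ _ hy h => MLR_sw hy h, fun _ _ hy hi hik => MLR_inv hy hi hik⟩
  MU_deg := fun k m y _ _ hy => MU_deg k m y hy
  MLL_deg := fun k m y _ _ hy => MLL_deg k m y hy
  MLR_deg := fun k m y _ _ hy => MLR_deg k m y hy
  MU_left := fun _ _ _ ha hm hy h => MU_left ha hm hy h
  MU_right := fun _ _ _ hk hb hy h => MU_right hk hb hy h
  MLL_fus := fun _ _ _ ha hm hy h => MLL_fus ha hm hy h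
  MLR_fus := fun _ _ _ hk hb hy h => MLR_fus hk hb hy h
  MLL_zero := fun _ y hm => MLL_zero y hm
  MLR_zero := fun _ y hk => MLR_zero y hk

end CF
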