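import Pool.Agent.Lib.MP_216314_pr.CZ.SC

/-!
# The value of `SS` at the homogeneous point

`SS (replicate n 2) = prod_j m_j * prod_(i<j) (m_j^2 - m_i^2) / prod_i (2i+1)!` with `m = mm` (real and nonzero).
-/

set_option autoImplicit false

noncomputable section

namespace CF

open Finset Polynomial

/-- the divided differences of the Chebyshev polynomials at the point 2 -/
private theorem Val_USp : ∀ k i : ℕ,
    Q4.DD (fun _ => 2) i (PX.USp k) = ((k + 1 + i).choose (2 * i + 1) : ℂ)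
  | 0, 0 => by
    show Q4.DD (fun _ => 2) 0 1 = _
    rw [Q4.DD_one, if_pos rfl]
    simp
  | 0, i + 1 => by
    show Q4.DD (fun _ => 2) (i + 1) 1 = _
    rw [Q4.DD_one, if_neg (by omega), Nat.choose_eq_zero_of_lt (by omega), Nat.cast_zero]
  | 1, 0 => by
    show Q4.DD (fun _ => 2) 0 X = _
    have h := Q4.DD_X_mul_zero (fun _ => 2) 1
    rw [mul_one, Q4.DD_one, if_pos rfl] at h
    rw [h]
    simp
  | 1, 1 => by
    show Q4.DD (fun _ => 2) (0 + 1) X = _
    have h := Q4.DD_X_mul (fun _ => 2) 0 1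
    rw [mul_one, Q4.DD_one, Q4.DD_one, if_pos rfl, if_neg (by omega)] at h
    rw [h]
    simp
  | 1, i + 2 => by
    show Q4.DD (fun _ => 2) (i + 1 + 1) X = _
    have h := Q4.DD_X_mul (fun _ => 2) (i + 1) 1
    rw [mul_one, Q4.DD_one, Q4.DD_one, if_neg (by omega), if_neg (by omega)] at h
    rw [h, Nat.choose_eq_zero_of_lt (by omega), Nat.cast_zero]
    ring
  | k + 2, 0 => by
    have e : PX.USp (k + 2) = X * PX.USp (k + 1) - PX.USp k := rfl
    rw [e, Q4.DD_sub, Q4.DD_X_mul_zero, Val_USp (k + 1) 0, Val_USp k 0]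
    simp only [Nat.mul_zero, Nat.zero_add, Nat.choose_one_right, Nat.add_zero]
    push_cast
    ring
  | k + 2, i + 1 => by
    have e : PX.USp (k + 2) = X * PX.USp (k + 1) - PX.USp k := rfl
    rw [e, Q4.DD_sub, Q4.DD_X_mul, Val_USp (k + 1) (i + 1), Val_USp (k + 1) i, Val_USp k (i + 1)]
    have h1 : (k + 2 + 1 + (i + 1)).choose (2 * (i + 1) + 1) =
        (k + 1 + 1 + (i + 1)).choose (2 * i + 1 + 1) + (k + 1 + 1 + (i + 1)).choose (2 * i + 1 + 1 + 1) := by
      rw [show k + 2 + 1 + (i + 1) = (k + 1 + 1 + (i + 1)) + 1 by omega,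
        show 2 * (i + 1) + 1 = (2 * i + 1 + 1) + 1 by omega, Nat.choose_succ_succ]
    have h2 : (k + 1 + 1 + (i + 1)).choose (2 * i + 1 + 1) =
        (k + 1 + 1 + i).choose (2 * i + 1) + (k + 1 + 1 + i).choose (2 * i + 1 + 1) := by
      rw [show k + 1 + 1 + (i + 1) = (k + 1 + 1 + i) + 1 by omega, Nat.choose_succ_succ]
    have h3 : (k + 1 + 1 + (i + 1)).choose (2 * i + 1 + 1 + 1) =
        (k + 1 + 1 + i).choose (2 * i + 1 + 1) + (k + 1 + 1 + i).choose (2 * i + 1 + 1 + 1) := by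
      rw [show k + 1 + 1 + (i + 1) = (k + 1 + 1 + i) + 1 by omega, Nat.choose_succ_succ]
    have e1 : k + 1 + 1 + i = k + 1 + (i + 1) := by omega
    have e2 : 2 * (i + 1) + 1 = 2 * i + 1 + 1 + 1 := by omega
    rw [h1, e2, h2, h3, e1]
    push_cast
    ring

/-- the monic polynomials `prod_(l < i) (X - (l+1)^2)` -/
def ValP (i : ℕ) : ℝ[X] := ∏ l ∈ range i, (X - C (((l : ℝ) + 1) ^ 2))

private theorem ValP_monic (i : ℕ) : (ValP i).Monic := monic_prod_of_monic _ _ fun _ _ => monic_X_sub_C _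

private theorem ValP_deg (i : ℕ) : (ValP i).natDegree = i := by
  unfold ValP
  rw [natDegree_prod_of_monic _ _ fun _ _ => monic_X_sub_C _, Finset.sum_congr rfl fun _ _ => natDegree_X_sub_C _]
  simp

private theorem Val_choose (m : ℕ) (hm : 1 ≤ m) : ∀ i : ℕ,
    ((m + i).choose (2 * i + 1) : ℝ) = ((2 * i + 1).factorial : ℝ)⁻¹ * ((m : ℝ) * (ValP i).eval ((m : ℝ) ^ 2))
  | 0 => by
    unfold ValP
    simp
  | i + 1 => by
    have h0 := Val_choose m hm i
    have hP : (ValP (i + 1)).eval ((m : ℝ) ^ 2) = (ValP i).eval ((m : ℝ) ^ 2) * ((m : ℝ) ^ 2 - ((i : ℝ) + 1) ^ 2) := by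
      unfold ValP
      rw [prod_range_succ, eval_mul, eval_sub, eval_X, eval_C]
    have hf : ((2 * (i + 1) + 1).factorial : ℝ) = (2 * (i : ℝ) + 3) * ((2 * (i : ℝ) + 2) * ((2 * i + 1).factorial : ℝ)) := by
      rw [show 2 * (i + 1) + 1 = (2 * i + 1 + 1) + 1 by omega, Nat.factorial_succ, Nat.factorial_succ]
      push_cast
      ring
    have hf0 : ((2 * i + 1).factorial : ℝ) ≠ 0 := by exact_mod_cast Nat.factorial_ne_zero _
    have hf1 : (2 * (i : ℝ) + 3) ≠ 0 := by positivity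
    have hf2 : (2 * (i : ℝ) + 2) ≠ 0 := by positivity
    have key : ((m + (i + 1)).choose (2 * (i + 1) + 1) : ℝ) * ((2 * (i : ℝ) + 3) * (2 * (i : ℝ) + 2)) =
        ((m + i).choose (2 * i + 1) : ℝ) * ((m : ℝ) ^ 2 - ((i : ℝ) + 1) ^ 2) := by
      have a1 : (m + i + 1) * (m + i).choose (2 * i + 1 + 1) =
          (m + i + 1).choose (2 * i + 1 + 1 + 1) * (2 * i + 1 + 1 + 1) := Nat.add_one_mul_choose_eq _ _
      have a2 : (m + i).choose (2 * i + 1 + 1) * (2 * i + 1 + 1) =
          (m + i).choose (2 * i + 1) * (m + i - (2 * i + 1)) := Nat.choose_succ_right_eq _ _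
      have a1' : ((m : ℝ) + i + 1) * ((m + i).choose (2 * i + 1 + 1) : ℝ) =
          ((m + (i + 1)).choose (2 * (i + 1) + 1) : ℝ) * (2 * (i : ℝ) + 3) := by
        rw [show m + (i + 1) = m + i + 1 by omega, show 2 * (i + 1) + 1 = 2 * i + 1 + 1 + 1 by omega]
        have := congrArg (Nat.cast : ℕ → ℝ) a1
        push_cast at this
        linear_combination this
      have a2' : ((m + i).choose (2 * i + 1 + 1) : ℝ) * (2 * (i : ℝ) + 2) =
          ((m + i).choose (2 * i + 1) : ℝ) * ((m : ℝ) - i - 1) := by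
        by_cases hc : 2 * i + 1 ≤ m + i
        · have := congrArg (Nat.cast : ℕ → ℝ) a2
          rw [Nat.cast_mul, Nat.cast_mul, Nat.cast_sub hc] at this
          push_cast at this
          linear_combination this
        · rw [Nat.choose_eq_zero_of_lt (show m + i < 2 * i + 1 by omega),
            Nat.choose_eq_zero_of_lt (show m + i < 2 * i + 1 + 1 by omega)]
          simp
      linear_combination (-(2 * (i : ℝ) + 2)) * a1' + ((m : ℝ) + i + 1) * a2'
    rw [hP, hf]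
    rw [h0] at key
    field_simp
    field_simp at key
    linear_combination key

/-- the value of the homogeneous determinant -/
def ValR (n : ℕ) : ℝ :=
  (∏ i : Fin n, ((2 * (i : ℕ) + 1).factorial : ℝ)⁻¹) * ((∏ j : Fin n, (PX.mm j : ℝ)) *
    (Matrix.vandermonde fun j : Fin n => (PX.mm j : ℝ) ^ 2).det)

theorem ValR_ne (n : ℕ) : ValR n ≠ 0 := by
  unfold ValR
  refine mul_ne_zero (prod_ne_zero_iff.2 fun i _ => ?_) (mul_ne_zero (prod_ne_zero_iff.2 fun j _ => ?_) ?_)
  · exact inv_ne_zero (by exact_mod_cast Nat.factorial_ne_zero _)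
  · have := PX.mm_pos j
    exact_mod_cast (by omega : PX.mm j ≠ 0)
  · rw [Matrix.det_vandermonde_ne_zero_iff]
    intro a b h
    have h1 : (PX.mm a : ℝ) = PX.mm b := by
      have h2 : (PX.mm a : ℝ) ^ 2 = (PX.mm b : ℝ) ^ 2 := h
      exact (sq_eq_sq₀ (Nat.cast_nonneg _) (Nat.cast_nonneg _)).1 h2
    exact Fin.ext (PX.mm_strictMono.injective (by exact_mod_cast h1))

theorem SS_val (n : ℕ) : CZ.SS (Multiset.replicate n 2) = (ValR n : ℂ) := by
  have h0 : Multiset.replicate n (2 : ℂ) = (Multiset.range n).map fun _ => (2 : ℂ) := by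
    rw [Multiset.map_const', Multiset.card_range]
  rw [h0, ← CZ.PhF_SS]
  have h1 : (Matrix.of fun i j : Fin n => Q4.DD (fun _ => 2) i (CZ.bb j)) =
      (algebraMap ℝ ℂ).mapMatrix (Matrix.of fun i j : Fin n => (((2 * (i : ℕ) + 1).factorial : ℝ)⁻¹) *
        ((Matrix.of fun i j : Fin n => (PX.mm j : ℝ) *
          ((Matrix.of fun a b : Fin n => (ValP b).eval ((PX.mm a : ℝ) ^ 2)).transpose i j)) i j)) := by
    ext i j
    have h2 : PX.mm j - 1 + 1 = PX.mm j := Nat.sub_add_cancel (PX.mm_pos j)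
    rw [Matrix.of_apply, CZ.bb, Val_USp, h2, RingHom.mapMatrix_apply, Matrix.map_apply, Matrix.of_apply, Matrix.of_apply,
      Matrix.transpose_apply, Matrix.of_apply, ← Val_choose (PX.mm j) (PX.mm_pos j) i]
    simp
  unfold Q4.PhF
  rw [h1, ← RingHom.map_det, Matrix.det_mul_column, Matrix.det_mul_row, Matrix.det_transpose,
    ← Matrix.det_eval_matrixOfPolynomials_eq_det_vandermonde (fun a : Fin n => (PX.mm a : ℝ) ^ 2) (fun b : Fin n => ValP b)
      (fun i => ValP_deg i) (fun i => ValP_monic i)]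
  rfl

theorem SS_ne (n : ℕ) : CZ.SS (Multiset.replicate n 2) ≠ 0 := by
  rw [SS_val]
  exact_mod_cast ValR_ne n

theorem SS_real (n : ℕ) : ∃ r : ℝ, CZ.SS (Multiset.replicate n 2) = (r : ℂ) := ⟨_, SS_val n⟩

end CF
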