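import Pool.Agent.Lib.MP_216314_pr.CF.Gsq
import Pool.Agent.Lib.MP_216314_pr.CF.SpM
import Pool.Agent.Lib.MP_216314_pr.CF.Val
import Pool.Agent.Lib.MP_216314_pr.CZ.Fin
import Pool.Agent.Lib.MP_216314_pr.Ca.CaFin

/-!
# The exact crossing probability of the slit strip
-/

set_option autoImplicit false

noncomputable section

namespace CF

open Finset PX Filter Topology

theorem limH {k m : ℕ} (hk : Odd k) (hm : Odd m) : LimH k m (CDH.FF k m : ℂ) := by
  obtain ⟨y, h1, h2, h3, h5⟩ := CZ.lim hk hm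
  exact ⟨y, h1, h2, h3, h5⟩

theorem MU_one {k m : ℕ} (hk : Odd k) (hm : Odd m) :
    MU k m (fun _ => 1) = (-om ^ 2) ^ ((k + m) / 2 - 1) * (om ^ 2 + om * (CDH.FF k m : ℂ)) *
      (CS k * CS m * CS (k + m + 1)) :=
  MU_one_of facts sfacts hk hm (limH hk hm) fun y hy => MU_tendsto k m hy fun _ => one_ne_zero

/-- the exact law -/
theorem cardy_exact (p q : ℕ) :
    Tendsto (fun N => CD.cr (2 * p + 1) (2 * p + 2 * q + 3) (2 * N + 1)) atTop
      (𝓝 (CDH.FF (2 * p + 1) (2 * q + 1))) := by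
  have hv : ∀ n, CS n = ((ValR n : ℝ) : ℂ) := fun n => SS_val n
  have hnm : ∀ n, CD.Nm n = (-om ^ 2) ^ (n / 2) * ((ValR n : ℝ) : ℂ) ^ 2 := by
    intro n
    rw [← hv, ← norm_sum]
    unfold CD.Nm
    refine Finset.sum_congr rfl fun a _ => ?_
    rw [pow_two]
    rfl
  refine CD.cardy_of p q (ValR_ne (2 * (p + q + 1) + 1)) (ValR_ne (2 * p + 1)) (ValR_ne (2 * q + 1)) ?_ ?_ ?_ ?_
  · have h1 := MU_one (k := 2 * p + 1) (m := 2 * q + 1) ⟨p, rfl⟩ ⟨q, rfl⟩
    have e1 : (2 * p + 1 + (2 * q + 1)) / 2 - 1 = p + q := by omega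
    have e2 : 2 * p + 1 + (2 * q + 1) + 1 = 2 * (p + q + 1) + 1 := by ring
    rw [e1, e2, hv, hv, hv] at h1
    have h2 : CD.G0 (2 * p + 1) (2 * q + 1) = MU (2 * p + 1) (2 * q + 1) (fun _ => 1) := by
      unfold CD.G0 MU
      refine Finset.sum_congr rfl fun s _ => Finset.sum_congr rfl fun t _ => ?_
      have e3 : ivs (fun _ : ℕ => (1 : ℂ)) = fun _ => 1 := by
        funext i
        exact inv_one
      have e4 : sh (2 * p + 1 + 1) (fun _ : ℕ => (1 : ℂ)) = fun _ => 1 := rfl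
      rw [e4, e3]
      rfl
    rw [h2, h1]
    ring
  · rw [hnm]
    congr 2
    omega
  · rw [hnm]
    congr 2
    omega
  · rw [hnm]
    congr 2
    omega

end CF
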