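import Pool.Agent.Lib.MP_216314_pr.CF.One

/-!
# A generic sequence and the norm at the homogeneous point
-/

set_option autoImplicit false

noncomputable section

namespace CF

open Finset PX Filter Topology

/-- powers of a real number larger than one -/
def gsq (N i : ℕ) : ℂ := (((1 + 1 / ((N : ℝ) + 1)) ^ (i + 1) : ℝ) : ℂ)

theorem gsq_gt (N : ℕ) : (1 : ℝ) < 1 + 1 / ((N : ℝ) + 1) := by
  have h : (0 : ℝ) < 1 / ((N : ℝ) + 1) := by positivity
  linarith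

theorem gsq_gen (n N : ℕ) : Gen n (gsq N) := by
  have h1 := gsq_gt N
  have h0 : ∀ i : ℕ, (1 : ℝ) < (1 + 1 / ((N : ℝ) + 1)) ^ (i + 1) := fun i => one_lt_pow₀ h1 (by omega)
  refine ⟨fun i _ => ?_, fun i _ => ?_, fun i j _ _ hij => ⟨?_, ?_⟩⟩
  · have h2 : (0 : ℝ) < (1 + 1 / ((N : ℝ) + 1)) ^ (i + 1) := lt_trans one_pos (h0 i)
    unfold gsq
    exact_mod_cast h2.ne'
  · unfold gsq
    intro h
    have h2 : ((1 + 1 / ((N : ℝ) + 1)) ^ (i + 1)) ^ 6 = 1 := by exact_mod_cast h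
    exact absurd h2 (one_lt_pow₀ (h0 i) (by norm_num)).ne'
  · unfold gsq
    intro h
    have h2 : ((1 + 1 / ((N : ℝ) + 1)) ^ (i + 1)) ^ 3 = ((1 + 1 / ((N : ℝ) + 1)) ^ (j + 1)) ^ 3 := by
      exact_mod_cast h
    rw [← pow_mul, ← pow_mul] at h2
    have h3 := pow_right_injective₀ (lt_trans one_pos h1) h1.ne' h2
    omega
  · unfold gsq
    intro h
    have h2 : ((1 + 1 / ((N : ℝ) + 1)) ^ (i + 1)) ^ 3 * ((1 + 1 / ((N : ℝ) + 1)) ^ (j + 1)) ^ 3 = 1 := by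
      exact_mod_cast h
    have h3 := one_lt_pow₀ (h0 i) (show 3 ≠ 0 by norm_num)
    have h4 := one_lt_pow₀ (h0 j) (show 3 ≠ 0 by norm_num)
    nlinarith [h2, h3, h4]

theorem gsq_tendsto (j : ℕ) : Tendsto (fun N => gsq N j) atTop (𝓝 1) := by
  unfold gsq
  have h1 : Tendsto (fun N : ℕ => (1 + 1 / ((N : ℝ) + 1)) ^ (j + 1)) atTop (𝓝 ((1 + 0) ^ (j + 1))) :=
    (tendsto_const_nhds.add tendsto_one_div_add_atTop_nhds_zero_nat).pow _
  rw [add_zero, one_pow] at h1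
  exact_mod_cast (Complex.continuous_ofReal.tendsto 1).comp h1

theorem norm_one (n : ℕ) : DD n (fun _ => 1) = (-om ^ 2) ^ (n / 2) * CS n ^ 2 :=
  norm_one' (y := gsq) (fun N => gsq_gen n N) gsq_tendsto

theorem norm_sum (n : ℕ) : ∑ s ∈ cfn n (n / 2), gv n (fun _ => 1) s ^ 2 = (-om ^ 2) ^ (n / 2) * CS n ^ 2 := by
  rw [← norm_one]
  unfold DD BF
  have h : ivs (fun _ : ℕ => (1 : ℂ)) = fun _ => 1 := by
    funext i
    exact inv_one
  rw [h]
  refine Finset.sum_congr rfl fun s _ => ?_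
  ring

end CF
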