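import Pool.Agent.Lib.MP_216314_pr.CF.AlgA

/-!
# Lemma 3.1: the sum over the left group for an empty right group
-/

set_option autoImplicit false

noncomputable section

namespace CF

open Finset PX Polynomial

/-- the product of the values of a polynomial at the two other roots -/
theorem pair_poly (f : ℂ[X]) (r : ℕ) (hf : f.natDegree ≤ r) : ∃ G : ℂ[X], G.natDegree ≤ 2 * r ∧
    G.coeff (2 * r) = f.coeff r ^ 2 ∧
    ∀ x w w' : ℂ, x + w + w' = 0 → x * w + w * w' + w' * x = -3 → G.eval x = f.eval w * f.eval w' := by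
  have hsp : f.Splits := IsAlgClosed.splits f
  have hcard : f.roots.card = f.natDegree := hsp.natDegree_eq_card_roots.symm
  have hmul : ∀ s : Multiset ℂ, ((s.map fun ρ => (X ^ 2 + C ρ * X + C (ρ ^ 2 - 3) : ℂ[X])).prod).natDegree ≤
      2 * s.card ∧ ((s.map fun ρ => (X ^ 2 + C ρ * X + C (ρ ^ 2 - 3) : ℂ[X])).prod).coeff (2 * s.card) = 1 := by
    intro s
    induction s using Multiset.induction_on with
    | empty =>
      rw [Multiset.map_zero, Multiset.prod_zero, natDegree_one]
      exact ⟨Nat.zero_le _, by simp⟩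
    | cons ρ s ih =>
      have h1 : (X ^ 2 + C ρ * X + C (ρ ^ 2 - 3) : ℂ[X]).natDegree ≤ 2 := by
        compute_degree
      have h2 : (X ^ 2 + C ρ * X + C (ρ ^ 2 - 3) : ℂ[X]).coeff 2 = 1 := by
        rw [coeff_add, coeff_add, coeff_X_pow_self, coeff_C_mul, coeff_X_of_ne_one (by norm_num),
          coeff_C_ne_zero (by norm_num)]
        ring
      rw [Multiset.map_cons, Multiset.prod_cons, Multiset.card_cons]
      refine ⟨natDegree_mul_le.trans (by omega), ?_⟩
      have h3 : 2 * (s.card + 1) = 2 + 2 * s.card := by ring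
      rw [h3, coeff_mul_add_eq_of_natDegree_le h1 ih.1, h2, ih.2, mul_one]
  have hG := hmul f.roots
  refine ⟨C (f.leadingCoeff ^ 2) * (f.roots.map fun ρ => (X ^ 2 + C ρ * X + C (ρ ^ 2 - 3) : ℂ[X])).prod,
    ?_, ?_, ?_⟩
  · refine (natDegree_C_mul_le _ _).trans (hG.1.trans ?_)
    omega
  · rw [coeff_C_mul]
    rcases Nat.lt_or_ge f.natDegree r with h | h
    · rw [coeff_eq_zero_of_natDegree_lt (lt_of_le_of_lt hG.1 (by omega)), coeff_eq_zero_of_natDegree_lt h]
      ring
    · have h1 : f.natDegree = r := le_antisymm hf h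
      have h2 : 2 * r = 2 * f.roots.card := by rw [hcard, h1]
      rw [h2, hG.2, ← h1, mul_one]
      rfl
  · intro x w w' h1 h2
    have e : ∀ z : ℂ, f.eval z = f.leadingCoeff * (f.roots.map fun ρ => z - ρ).prod := fun z =>
      hsp.eval_eq_prod_roots z
    rw [e w, e w', eval_mul, eval_C, eval_multiset_prod, Multiset.map_map]
    have h3 : (f.roots.map fun ρ => eval x (X ^ 2 + C ρ * X + C (ρ ^ 2 - 3) : ℂ[X])).prod =
        (f.roots.map fun ρ => w - ρ).prod * (f.roots.map fun ρ => w' - ρ).prod := by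
      rw [← Multiset.prod_map_mul]
      congr 1
      refine Multiset.map_congr rfl fun ρ _ => ?_
      rw [eval_add, eval_add, eval_pow, eval_mul, eval_X, eval_C, eval_C]
      have hw' : w' = -x - w := by linear_combination h1
      subst hw'
      linear_combination -h2
    have h4 : (f.roots.map ((fun p : ℂ[X] => eval x p) ∘ fun ρ => (X ^ 2 + C ρ * X + C (ρ ^ 2 - 3) : ℂ[X]))).prod =
        (f.roots.map fun ρ => eval x (X ^ 2 + C ρ * X + C (ρ ^ 2 - 3) : ℂ[X])).prod := rfl
    rw [show (f.roots.map (eval x ∘ fun ρ => (X ^ 2 + C ρ * X + C (ρ ^ 2 - 3) : ℂ[X]))).prod =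
        (f.roots.map fun ρ => eval x (X ^ 2 + C ρ * X + C (ρ ^ 2 - 3) : ℂ[X])).prod from rfl, h3]
    ring

/-- the two other roots exist -/
theorem exists_roots (x : ℂ) : ∃ w w' : ℂ, x + w + w' = 0 ∧ x * w + w * w' + w' * x = -3 := by
  obtain ⟨s, hs⟩ := IsAlgClosed.exists_pow_nat_eq (12 - 3 * x ^ 2) (show 0 < 2 by norm_num)
  refine ⟨(-x + s) / 2, (-x - s) / 2, by ring, ?_⟩
  linear_combination (-1 / 4) * hs

theorem lemma31 {S : Multiset ℂ → ℂ} (hS : SC S) (A : Finset ℂ) (hA : Odd A.card) :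
    ∑ a ∈ A, Wa A a * S (A.erase a).val ^ 2 = S A.val ^ 2 := by
  obtain ⟨r, hr⟩ := hA
  obtain ⟨f, hf1, hf2, hf3⟩ := hS.pol A.val
  have hc : A.val.card = 2 * r + 1 := hr
  have hc2 : A.val.card / 2 = r := by omega
  rw [hc2] at hf1 hf2
  obtain ⟨G, hG1, hG2, hG3⟩ := pair_poly f r hf1
  have hdeg : G.degree < (A.card : WithBot ℕ) := by
    refine lt_of_le_of_lt degree_le_natDegree ?_
    rw [hr]
    exact_mod_cast (by omega : G.natDegree < 2 * r + 1)
  have hlag := Lagrange.coeff_eq_sum (s := A) (v := fun a : ℂ => a) (fun a _ b _ h => h) hdeg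
  have h2r : A.card - 1 = 2 * r := by omega
  rw [h2r, hG2, hf2 ⟨r, hc⟩] at hlag
  rw [hlag]
  refine Finset.sum_congr rfl fun a ha => ?_
  obtain ⟨w, w', h1, h2⟩ := exists_roots a
  have e1 : S (w ::ₘ A.val) = mp (A.erase a).val w' * S (A.erase a).val := by
    rw [val_erase ha, hS.fus w a w' _ (by linear_combination h1) (by linear_combination h2)]
    rfl
  have e2 : S (w' ::ₘ A.val) = mp (A.erase a).val w * S (A.erase a).val := by
    rw [val_erase ha, hS.fus w' a w _ (by linear_combination h1) (by linear_combination h2)]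
    rfl
  have e3 : mp (A.erase a).val w' * mp (A.erase a).val w = ∏ b ∈ A.erase a, TT a b := by
    unfold mp
    change (∏ b ∈ A.erase a, (b - w')) * (∏ b ∈ A.erase a, (b - w)) = _
    rw [← Finset.prod_mul_distrib]
    refine Finset.prod_congr rfl fun b _ => ?_
    unfold TT
    have hw' : w' = -a - w := by linear_combination h1
    subst hw'
    linear_combination h2
  have e4 : G.eval a = (∏ b ∈ A.erase a, TT a b) * S (A.erase a).val ^ 2 := by
    rw [hG3 a w w' h1 h2, ← hf3, ← hf3, e1, e2, ← e3]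
    ring
  unfold Wa
  rw [e4, Finset.prod_div_distrib]
  ring

end CF
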