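import Pool.Agent.Lib.MP_216314_pr.CF.Zer

/-!
# The inhomogeneous formula for the slit strip
-/

set_option autoImplicit false

noncomputable section

namespace CF

open Finset PX

/-- the properties of the three pairings -/
structure Facts : Prop where
  MU_sy : ∀ k m, Odd k → Odd m → Sy k (k + m + 1) (MU k m)
  MLL_sy : ∀ k m, Even k → Odd m → Sy k (k + m + 1) (MLL k m)
  MLR_sy : ∀ k m, Odd k → Even m → Sy k (k + m + 1) (MLR k m)
  MU_deg : ∀ k m y, Odd k → Odd m → NZ (k + m + 1) y →
    Mir ((k + m) / 2) (fun t => MU k m (Function.update y k t))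
  MLL_deg : ∀ k m y, Even k → Odd m → NZ (k + m + 1) y →
    Mir (k / 2) (fun t => MLL k m (Function.update y k t))
  MLR_deg : ∀ k m y, Odd k → Even m → NZ (k + m + 1) y →
    Mir (m / 2) (fun t => MLR k m (Function.update y k t))
  MU_left : ∀ a m y, Even a → Odd m → NZ (a + 1 + m + 1) y → y (a + 1) = om * y a →
    MU (a + 1) m y = -om ^ 2 * Kf (a + m) (y a) (dl a y) * MLL a m (rv (a + 1) y)
  MU_right : ∀ k b y, Odd k → Even b → NZ (k + (b + 1) + 1) y → y (k + 1) = om * y k →
    MU k (b + 1) y = Kf (k + b) (y k) (dl k y) * MLR k b (rv k y)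
  MLL_fus : ∀ a m y, Odd a → Odd m → NZ (a + 1 + m + 1) y → y (a + 1) = om ^ 2 * y a →
    MLL (a + 1) m y = Kf a (y a)⁻¹ (ivs y) * MU a m (rv (a + 1) y)
  MLR_fus : ∀ k b y, Odd k → Odd b → NZ (k + (b + 1) + 1) y → y (k + 1) = om ^ 2 * y k →
    MLR k (b + 1) y = -om ^ 2 * Kf b (y k)⁻¹ (ivs (sh (k + 2) y)) * MU k b (rv k y)
  MLL_zero : ∀ m y, Odd m → MLL 0 m y = DD m (sh 1 y)
  MLR_zero : ∀ k y, Odd k → MLR k 0 y = DD k y

/-- the norm of the open strip and Lemma 3.1 for the character `S` -/
structure SFacts (S : Multiset ℂ → ℂ) : Prop where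
  sc : SC S
  dd : ∀ n y, Odd n → Gen n y → DD n y = (-om ^ 2) ^ (n / 2) * S ((range n).val.map fun i => XX (y i)) ^ 2
  lem : ∀ A : Finset ℂ, Odd A.card → ∑ a ∈ A, Wa A a * S (A.erase a).val ^ 2 = S A.val ^ 2

theorem Al_sw {k L i : ℕ} {y : ℕ → ℂ} (h : i + 1 < k ∨ (k < i ∧ i + 1 < L)) : Al k (sw i y) = Al k y := by
  unfold Al sw
  rcases h with h | h
  · ext x
    rw [mem_image, mem_image]
    constructor
    · rintro ⟨n, hn, rfl⟩
      exact ⟨Equiv.swap i (i + 1) n, mem_range.2 (swap_lt (by omega) h (mem_range.1 hn)), rfl⟩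
    · rintro ⟨n, hn, rfl⟩
      refine ⟨Equiv.swap i (i + 1) n, mem_range.2 (swap_lt (by omega) h (mem_range.1 hn)), ?_⟩
      rw [Equiv.swap_apply_self]
  · refine Finset.image_congr fun n hn => ?_
    have hn' := mem_range.1 (mem_coe.1 hn)
    show XX (y (Equiv.swap i (i + 1) n)) = XX (y n)
    rw [Equiv.swap_apply_of_ne_of_ne (by omega) (by omega)]

theorem Br_sw {k m i : ℕ} {y : ℕ → ℂ} (h : i + 1 < k ∨ (k < i ∧ i + 1 < k + m + 1)) :
    Br k m (sw i y) = Br k m y := by
  unfold Br sw
  rcases h with h | h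
  · refine Multiset.map_congr rfl fun n _ => ?_
    rw [Equiv.swap_apply_of_ne_of_ne (by omega) (by omega)]
  · obtain ⟨j, rfl⟩ : ∃ j, i = j + (k + 1) := ⟨i - (k + 1), by omega⟩
    have hj : j + 1 < m := by omega
    have e : ∀ n, Equiv.swap (j + (k + 1)) (j + (k + 1) + 1) (n + (k + 1)) =
        Equiv.swap j (j + 1) n + (k + 1) := by
      intro n
      rw [Equiv.swap_apply_def, Equiv.swap_apply_def]
      split_ifs <;> omega
    have h1 : ((range m).val.map fun n => XX (y (Equiv.swap (j + (k + 1)) (j + (k + 1) + 1) (n + (k + 1))))) =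
        (((range m).val.map fun n => Equiv.swap j (j + 1) n).map fun n => XX (y (n + (k + 1)))) := by
      rw [Multiset.map_map]
      refine Multiset.map_congr rfl fun n _ => ?_
      rw [e n]
      rfl
    have h2 : ((range m).val.map fun n => Equiv.swap j (j + 1) n) = (range m).val := by
      have h3 : ((range m).map (Equiv.swap j (j + 1)).toEmbedding) = range m := by
        ext x
        rw [Finset.mem_map]
        constructor
        · rintro ⟨n, hn, rfl⟩
          exact mem_range.2 (swap_lt (by omega) hj (mem_range.1 hn))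
        · intro hx
          exact ⟨Equiv.swap j (j + 1) x, mem_range.2 (swap_lt (by omega) hj (mem_range.1 hx)),
            Equiv.swap_apply_self _ _ _⟩
      have h4 : ((range m).map (Equiv.swap j (j + 1)).toEmbedding).val = (range m).val := by rw [h3]
      exact h4
    rw [h1, h2]

theorem Al_inv {k i : ℕ} {y : ℕ → ℂ} : Al k (Function.update y i (y i)⁻¹) = Al k y := by
  unfold Al
  refine Finset.image_congr fun n _ => ?_
  show XX (Function.update y i (y i)⁻¹ n) = XX (y n)
  rcases eq_or_ne n i with e | e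
  · rw [e, Function.update_self, XX_inv]
  · rw [Function.update_of_ne e]

theorem Br_inv {k m i : ℕ} {y : ℕ → ℂ} : Br k m (Function.update y i (y i)⁻¹) = Br k m y := by
  unfold Br
  refine Multiset.map_congr rfl fun n _ => ?_
  rcases eq_or_ne (n + (k + 1)) i with e | e
  · rw [e, Function.update_self, XX_inv]
  · rw [Function.update_of_ne e]

theorem sw_tip {k L i : ℕ} {y : ℕ → ℂ} (h : i + 1 < k ∨ (k < i ∧ i + 1 < L)) : sw i y k = y k := by
  unfold sw
  rw [Equiv.swap_apply_of_ne_of_ne (by omega) (by omega)]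

theorem RU_sy (S : Multiset ℂ → ℂ) (k m : ℕ) : Sy k (k + m + 1) (RU S k m) where
  sw := fun i y _ hi => by
    unfold RU
    rw [Al_sw hi, Br_sw hi, sw_tip hi]
  inv := fun i y _ _ hik => by
    unfold RU
    rw [Al_inv, Br_inv, Function.update_of_ne hik.symm]

theorem RLL_sy (S : Multiset ℂ → ℂ) (k m : ℕ) : Sy k (k + m + 1) (RLL S k m) where
  sw := fun i y _ hi => by
    unfold RLL
    rw [Al_sw hi, Br_sw hi, sw_tip hi]
  inv := fun i y _ _ hik => by
    unfold RLL
    rw [Al_inv, Br_inv, Function.update_of_ne hik.symm]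

theorem RLR_sy (S : Multiset ℂ → ℂ) (k m : ℕ) : Sy k (k + m + 1) (RLR S k m) where
  sw := fun i y _ hi => by
    unfold RLR
    rw [Al_sw hi, Br_sw hi, sw_tip hi]
  inv := fun i y _ _ hik => by
    unfold RLR
    rw [Al_inv, Br_inv, Function.update_of_ne hik.symm]

theorem Sy.cmul {k L : ℕ} {F : (ℕ → ℂ) → ℂ} (hF : Sy k L F) (c : ℂ) : Sy k L (fun y => c * F y) where
  sw := fun i y hy hi => by
    show c * F _ = c * F _
    rw [hF.sw i y hy hi]
  inv := fun i y hy hi hik => by
    show c * F _ = c * F _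
    rw [hF.inv i y hy hi hik]

theorem Mir.sub {d : ℕ} {f g : ℂ → ℂ} (h : Mir d f) (h' : Mir d g) : Mir d (fun t => f t - g t) :=
  (h.add (h'.cmul (-1))).congr fun t _ => by ring

/-- genericity after the removal of the tip variable -/
theorem GT_rv_left {a m : ℕ} {y : ℕ → ℂ} (h : GT (a + 1) (a + 1 + m + 1) y) :
    GT a (a + m + 1) (rv (a + 1) y) := by
  have e : ∀ n, rv (a + 1) y n = y (if n < a + 1 then n else n + 1) := by
    intro n
    unfold rv
    split_ifs <;> rfl
  have e1 : ∀ n, n < a + m + 1 → (if n < a + 1 then n else n + 1) < a + 1 + m + 1 := by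
    intro n hn
    split_ifs <;> omega
  have e2 : ∀ n, (if n < a + 1 then n else n + 1) ≠ a + 1 := by
    intro n
    split_ifs <;> omega
  refine ⟨fun n hn => ?_, fun n _ hn => ?_, fun n n' _ hn _ hn' hne => ?_⟩
  · rw [e]
    exact h.1 _ (e1 n hn)
  · rw [e]
    exact h.2.1 _ (e2 n) (e1 n hn)
  · rw [e, e]
    refine h.2.2 _ _ (e2 n) (e1 n hn) (e2 n') (e1 n' hn') ?_
    split_ifs <;> omega

theorem GT_rv_right {k b : ℕ} {y : ℕ → ℂ} (h : GT k (k + (b + 1) + 1) y) :
    GT k (k + b + 1) (rv k y) := by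
  have e : ∀ n, rv k y n = y (if n < k then n else n + 1) := by
    intro n
    unfold rv
    split_ifs <;> rfl
  have e1 : ∀ n, n < k + b + 1 → (if n < k then n else n + 1) < k + (b + 1) + 1 := by
    intro n hn
    split_ifs <;> omega
  have e2 : ∀ n, (if n < k then n else n + 1) ≠ k := by
    intro n
    split_ifs <;> omega
  refine ⟨fun n hn => ?_, fun n _ hn => ?_, fun n n' _ hn _ hn' hne => ?_⟩
  · rw [e]
    exact h.1 _ (e1 n hn)
  · rw [e]
    exact h.2.1 _ (e2 n) (e1 n hn)
  · rw [e, e]
    refine h.2.2 _ _ (e2 n) (e1 n hn) (e2 n') (e1 n' hn') ?_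
    split_ifs <;> omega

theorem om2_cube : (om ^ 2) ^ 3 = 1 := by
  rw [← pow_mul, mul_comm, pow_mul, om_cube, one_pow]

theorem base_LL (H : Facts) {S : Multiset ℂ → ℂ} (hS : SFacts S) {m : ℕ} (hm : Odd m) {y : ℕ → ℂ}
    (hy : GT 0 (0 + m + 1) y) : -om ^ 2 * MLL 0 m y = RLL S 0 m y := by
  have hg : Gen m (sh 1 y) := by
    refine ⟨fun n hn => hy.1 _ (by omega), fun n hn => hy.2.1 _ (by omega) (by omega),
      fun n n' hn hn' hne => hy.2.2 _ _ (by omega) (by omega) (by omega) (by omega) (by omega)⟩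
  have hA : Al 0 y = ∅ := by
    unfold Al
    rw [range_zero, image_empty]
  have hB : Br 0 m y = (range m).val.map fun i => XX (sh 1 y i) := rfl
  obtain ⟨q, hq⟩ := hm
  have hexp : (0 + m - 1) / 2 = m / 2 := by omega
  unfold RLL
  rw [H.MLL_zero m y ⟨q, hq⟩, hS.dd m _ ⟨q, hq⟩ hg, hA, TLL_empty hS.sc, FLL_empty, hB, hexp]
  ring

theorem base_LR (H : Facts) {S : Multiset ℂ → ℂ} (hS : SFacts S) {k : ℕ} (hk : Odd k) {y : ℕ → ℂ}
    (hy : GT k (k + 0 + 1) y) : MLR k 0 y = RLR S k 0 y := by
  have hg : Gen k y := by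
    refine ⟨fun n hn => hy.1 _ (by omega), fun n hn => hy.2.1 _ (by omega) (by omega),
      fun n n' hn hn' hne => hy.2.2 _ _ (by omega) (by omega) (by omega) (by omega) hne⟩
  have hB : Br k 0 y = 0 := rfl
  have hA := Al_val hy le_rfl (by omega)
  have hc : Odd (Al k y).card := by
    have h1 : (Al k y).val.card = k := by
      rw [hA, Multiset.card_map]
      exact card_range k
    have h2 : (Al k y).card = k := h1
    rw [h2]
    exact hk
  have hF : FLR S (Al k y) 0 (XX (y k)) = S (Al k y).val ^ 2 := by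
    rw [← hS.lem _ hc]
    unfold FLR
    refine Finset.sum_congr rfl fun a _ => ?_
    have h1 : a ::ₘ XX (y k) ::ₘ (0 : Multiset ℂ) = a ::ₘ {XX (y k)} := rfl
    rw [h1, hS.sc.two, add_zero]
    ring
  obtain ⟨q, hq⟩ := hk
  have hexp : (k + 0 - 1) / 2 = k / 2 := by omega
  unfold RLR
  rw [H.MLR_zero k y ⟨q, hq⟩, hS.dd k _ ⟨q, hq⟩ hg, hB, TLR_zero hS.sc, hF, hexp, ← hA]
  linear_combination ((-om ^ 2) ^ (k / 2) * S (Al k y).val ^ 2) * om_eq

/-- the three formulas, by induction on the number of strands -/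
theorem main_all (H : Facts) {S : Multiset ℂ → ℂ} (hS : SFacts S) (n : ℕ) : ∀ k m : ℕ, k + m = n →
    (Odd k → Odd m → ∀ y, GT k (k + m + 1) y → MU k m y = RU S k m y) ∧
    (Even k → Odd m → ∀ y, GT k (k + m + 1) y → -om ^ 2 * MLL k m y = RLL S k m y) ∧
    (Odd k → Even m → ∀ y, GT k (k + m + 1) y → MLR k m y = RLR S k m y) := by
  induction n using Nat.strong_induction_on with
  | _ n ih =>
    intro k m hkm
    refine ⟨fun hk hm y hy => ?_, fun hk hm y hy => ?_, fun hk hm y hy => ?_⟩
    · -- upper tip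
      have hk1 : 1 ≤ k := hk.pos
      have hm1 : 1 ≤ m := hm.pos
      have hsy : Sy k (k + m + 1) (fun y => MU k m y - RU S k m y) := (H.MU_sy k m hk hm).sub (RU_sy S k m)
      refine sub_eq_zero.mp (vanish (F := fun y => MU k m y - RU S k m y) hy (by omega)
        ((range (k + m + 1)).erase k) (fun j hj => ?_) (fun j => if j < k then om else om ^ 2)
        (fun j => ?_) (a := (k + m) / 2) ?_ ((H.MU_deg k m y hk hm hy.1).sub (RU_deg hS.sc hk hm y))
        (fun j hj u hu => ?_))
      · rw [mem_erase, mem_range] at hj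
        exact ⟨hj.2, hj.1⟩
      · show (if j < k then om else om ^ 2) ^ 3 = 1
        split_ifs
        · exact om_cube
        · exact om2_cube
      · rw [card_erase_of_mem (mem_range.2 (by omega)), card_range]
        omega
      · rw [mem_erase, mem_range] at hj
        by_cases hjk : j < k
        · have e1 : (if j < k then om else om ^ 2) = om := if_pos hjk
          show (fun y => MU k m y - RU S k m y) (Function.update y k ((if j < k then om else om ^ 2) * u)) = 0
          rw [e1]
          refine zeros_left hsy (by omega) om_ne_zero (fun z hz hzk => ?_) hy hjk hu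
          obtain ⟨a, rfl⟩ : ∃ a, k = a + 1 := ⟨k - 1, by omega⟩
          have ha : Even a := by
            obtain ⟨p, hp⟩ := hk
            exact ⟨p, by omega⟩
          have hzk' : z (a + 1) = om * z a := hzk
          have h1 := (ih (a + m) (by omega) a m rfl).2.1 ha hm (rv (a + 1) z) (GT_rv_left hz)
          show MU (a + 1) m z - RU S (a + 1) m z = 0
          rw [H.MU_left a m z ha hm hz.1 hzk', RU_left hS.sc ha hm hz hzk', ← h1]
          ring
        · have e1 : (if j < k then om else om ^ 2) = om ^ 2 := if_neg hjk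
          show (fun y => MU k m y - RU S k m y) (Function.update y k ((if j < k then om else om ^ 2) * u)) = 0
          rw [e1]
          refine zeros_right (c := om) hsy (by linear_combination om_cube) (fun z hz hzk => ?_) hy
            (by omega) hj.2 hu
          obtain ⟨b, rfl⟩ : ∃ b, m = b + 1 := ⟨m - 1, by omega⟩
          have hb : Even b := by
            obtain ⟨p, hp⟩ := hm
            exact ⟨p, by omega⟩
          have h1 := (ih (k + b) (by omega) k b rfl).2.2 hk hb (rv k z) (GT_rv_right hz)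
          show MU k (b + 1) z - RU S k (b + 1) z = 0
          rw [H.MU_right k b z hk hb hz.1 hzk, RU_right hS.sc hk hb hz hzk, ← h1]
          ring
    · -- tip in the lower left strip
      rcases Nat.eq_zero_or_pos k with h0 | h0
      · subst h0
        exact base_LL H hS hm hy
      · have hsy : Sy k (k + m + 1) (fun y => -om ^ 2 * MLL k m y - RLL S k m y) :=
          ((H.MLL_sy k m hk hm).cmul _).sub (RLL_sy S k m)
        refine sub_eq_zero.mp (vanish (F := fun y => -om ^ 2 * MLL k m y - RLL S k m y) hy (by omega)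
          (range k) (fun j hj => ?_) (fun _ => om ^ 2) (fun _ => om2_cube) (a := k / 2) ?_
          (((H.MLL_deg k m y hk hm hy.1).cmul _).sub (RLL_deg hS.sc m hk y)) (fun j hj u hu => ?_))
        · rw [mem_range] at hj
          exact ⟨by omega, by omega⟩
        · rw [card_range]
          omega
        · rw [mem_range] at hj
          refine zeros_left hsy (by omega) om2_ne (fun z hz hzk => ?_) hy hj hu
          obtain ⟨a, rfl⟩ : ∃ a, k = a + 1 := ⟨k - 1, by omega⟩
          have ha : Odd a := by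
            obtain ⟨p, hp⟩ := hk
            exact ⟨p - 1, by omega⟩
          have hzk' : z (a + 1) = om ^ 2 * z a := hzk
          have h1 := (ih (a + m) (by omega) a m rfl).1 ha hm (rv (a + 1) z) (GT_rv_left hz)
          show -om ^ 2 * MLL (a + 1) m z - RLL S (a + 1) m z = 0
          rw [H.MLL_fus a m z ha hm hz.1 hzk', RLL_fus hS.sc ha hm hz hzk', ← h1]
          ring
    · -- tip in the lower right strip
      rcases Nat.eq_zero_or_pos m with h0 | h0
      · subst h0
        exact base_LR H hS hk hy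
      · have hsy : Sy k (k + m + 1) (fun y => MLR k m y - RLR S k m y) :=
          (H.MLR_sy k m hk hm).sub (RLR_sy S k m)
        refine sub_eq_zero.mp (vanish (F := fun y => MLR k m y - RLR S k m y) hy (by omega)
          ((range m).map (addRightEmbedding (k + 1))) (fun j hj => ?_) (fun _ => om) (fun _ => om_cube)
          (a := m / 2) ?_ ((H.MLR_deg k m y hk hm hy.1).sub (RLR_deg hS.sc k hm y)) (fun j hj u hu => ?_))
        · rw [Finset.mem_map] at hj
          obtain ⟨i, hi, rfl⟩ := hj
          rw [mem_range] at hi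
          exact ⟨by rw [addRightEmbedding_apply]; omega, by rw [addRightEmbedding_apply]; omega⟩
        · rw [card_map, card_range]
          omega
        · rw [Finset.mem_map] at hj
          obtain ⟨i, hi, rfl⟩ := hj
          rw [mem_range] at hi
          rw [addRightEmbedding_apply] at hu
          refine zeros_right (c := om ^ 2) (d := om) hsy (by linear_combination om_cube) (fun z hz hzk => ?_) hy
            (j := i + (k + 1)) (by omega) (by omega) hu
          obtain ⟨b, rfl⟩ : ∃ b, m = b + 1 := ⟨m - 1, by omega⟩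
          have hb : Odd b := by
            obtain ⟨p, hp⟩ := hm
            exact ⟨p - 1, by omega⟩
          have h1 := (ih (k + b) (by omega) k b rfl).1 hk hb (rv k z) (GT_rv_right hz)
          show MLR k (b + 1) z - RLR S k (b + 1) z = 0
          rw [H.MLR_fus k b z hk hb hz.1 hzk, RLR_fus hS.sc hk hb hz hzk, ← h1]
          ring

theorem main_U (H : Facts) {S : Multiset ℂ → ℂ} (hS : SFacts S) {k m : ℕ} (hk : Odd k) (hm : Odd m)
    {y : ℕ → ℂ} (hy : GT k (k + m + 1) y) : MU k m y = RU S k m y :=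
  (main_all H hS (k + m) k m rfl).1 hk hm y hy

end CF
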