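import Pool.Agent.Lib.MP_216314_pr.CF.Main
import Pool.Agent.Lib.MP_216314_pr.CF.Lem
import Pool.Agent.Lib.MP_216314_pr.CZ.Inst
import Pool.Agent.Lib.MP_216314_pr.X.AB

/-!
# The norm of the open strip in terms of the characters
-/

set_option autoImplicit false

noncomputable section

namespace CF

open Finset PX

theorem SS_dd (n : ℕ) (y : ℕ → ℂ) (hy : Gen n y) :
    DD n y = (-om ^ 2) ^ (n / 2) * CZ.SS ((range n).val.map fun i => XX (y i)) ^ 2 := by
  have h1 := hy.dist
  rw [DD_chr n y hy.genT (fun j hj hjn => h1 0 j (by omega) hjn (by omega)), CZ.chr_eq_SS h1]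
  rfl

/-- the facts on the characters -/
theorem sfacts : SFacts CZ.SS where
  sc := CZ.SS_SC
  dd := fun n y _ hy => SS_dd n y hy
  lem := fun A hA => lemma31 CZ.SS_SC A hA

end CF
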