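import Pool.Agent.Lib.MP_216314_pr.CF.Cont

/-!
# The pairing at the homogeneous point
-/

set_option autoImplicit false

noncomputable section

namespace CF

open Finset PX Filter Topology

/-- the limit of the right hand side along some sequence of generic points -/
def LimH (k m : ℕ) (F : ℂ) : Prop := ∃ y : ℕ → ℕ → ℂ, (∀ n, GT k (k + m + 1) (y n)) ∧ (∀ n, y n k = 1) ∧
  (∀ i, Tendsto (fun n => y n i) atTop (𝓝 1)) ∧
  Tendsto (fun n => FU CZ.SS (Al k (y n)) (Br k m (y n)) 2 (-1)) atTop
    (𝓝 (F * CS k * CS m * CS (k + m + 1)))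

/-- removal of the entry `k` of a range -/
theorem range_rem (k m : ℕ) (f : ℕ → ℂ) : (range (k + m + 1)).val.map f =
    f k ::ₘ ((range k).val.map f + (range m).val.map fun i => f (i + (k + 1))) := by
  induction m with
  | zero =>
    have h : (range 0).val.map (fun i => f (i + (k + 1))) = 0 := rfl
    rw [h, add_zero, add_zero, Finset.range_val, Finset.range_val, Multiset.range_succ, Multiset.map_cons]
  | succ m ih =>
    have h2 : k + (m + 1) + 1 = (k + m + 1) + 1 := by ring
    have h3 : (range (m + 1)).val.map (fun i => f (i + (k + 1))) =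
        f (m + (k + 1)) ::ₘ (range m).val.map fun i => f (i + (k + 1)) := by
      rw [Finset.range_val, Finset.range_val, Multiset.range_succ, Multiset.map_cons]
    have h4 : (range (k + m + 1 + 1)).val.map f = f (k + m + 1) ::ₘ (range (k + m + 1)).val.map f := by
      rw [Finset.range_val, Finset.range_val, Multiset.range_succ, Multiset.map_cons]
    have h5 : m + (k + 1) = k + m + 1 := by ring
    rw [h2, h4, ih, h3, h5, Multiset.add_cons, Multiset.cons_swap]

theorem MU_one_of (H : Facts) (hS : SFacts CZ.SS) {k m : ℕ} (hk : Odd k) (hm : Odd m) {F : ℂ}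
    (hF : LimH k m F)
    (hc : ∀ y : ℕ → ℕ → ℂ, (∀ j, Tendsto (fun i => y i j) atTop (𝓝 1)) →
      Tendsto (fun i => MU k m (y i)) atTop (𝓝 (MU k m (fun _ => 1)))) :
    MU k m (fun _ => 1) = (-om ^ 2) ^ ((k + m) / 2 - 1) * (om ^ 2 + om * F) *
      (CS k * CS m * CS (k + m + 1)) := by
  obtain ⟨y, hg, hk1, ht, hl⟩ := hF
  have h1 := hc y ht
  have hX : ∀ j, Tendsto (fun i => XX (y i j)) atTop (𝓝 2) := fun j => XX_tendsto (ht j)
  have hTU : Tendsto (fun i => TU CZ.SS (Al k (y i)) (Br k m (y i)) (XX (y i k))) atTop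
      (𝓝 (CS (k + m + 1) * CS k * CS m)) := by
    have e1 : ∀ i, TU CZ.SS (Al k (y i)) (Br k m (y i)) (XX (y i k)) =
        CZ.SS ((range (k + m + 1)).val.map fun j => XX (y i j)) *
          CZ.SS ((range k).val.map fun j => XX (y i j)) *
          CZ.SS ((range m).val.map fun j => XX (y i (j + (k + 1)))) := by
      intro i
      unfold TU
      rw [range_rem k m (fun j => XX (y i j)), Al_val (hg i) le_rfl (by omega)]
      rfl
    simp only [e1]
    exact ((SS_tendsto hX _).mul (SS_tendsto hX _)).mul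
      (SS_tendsto (x := fun i j => XX (y i (j + (k + 1)))) (fun j => hX (j + (k + 1))) _)
  have h2 : Tendsto (fun i => (-om ^ 2) ^ ((k + m) / 2 - 1) *
      (om ^ 2 * TU CZ.SS (Al k (y i)) (Br k m (y i)) (XX (y i k)) +
        om * FU CZ.SS (Al k (y i)) (Br k m (y i)) 2 (-1))) atTop
      (𝓝 ((-om ^ 2) ^ ((k + m) / 2 - 1) * (om ^ 2 * (CS (k + m + 1) * CS k * CS m) +
        om * (F * CS k * CS m * CS (k + m + 1))))) :=
    tendsto_const_nhds.mul ((tendsto_const_nhds.mul hTU).add (tendsto_const_nhds.mul hl))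
  have e3 : ∀ i, (-om ^ 2) ^ ((k + m) / 2 - 1) *
      (om ^ 2 * TU CZ.SS (Al k (y i)) (Br k m (y i)) (XX (y i k)) +
        om * FU CZ.SS (Al k (y i)) (Br k m (y i)) 2 (-1)) = MU k m (y i) := by
    intro i
    rw [main_U H hS hk hm (hg i)]
    unfold RU
    have e4 : XX (om ^ 2 * 1) = -1 := by
      rw [XX_om2 one_ne_zero, inv_one]
      linear_combination om_eq
    rw [hk1 i, e4, XX_one]
  have h3 := tendsto_nhds_unique h1 (h2.congr e3)
  rw [h3]
  ring

end CF
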