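import Pool.Agent.Lib.MP_216314_pr.CF.Def

/-!
# Slices of spin vectors and exchange relations

`PG`: general pairing of a vector with a left vector and a right vector; `R` is a fixed set of ups.
`sl_left`: for `R` without `i`, `i+1`: `ee i v (s ∪ R) = ee i (fun s => v (s ∪ R)) s` (`PairA_ee`: the membership of `i`, `i+1` in `s ∪ R` is the membership in `s`; `sg i (s ∪ R) = sg i s ∪ R`).
`sl_right`: for `S` without `i+c`, `i+1+c`: `ee (i + c) v (S ∪ su c t) = ee i (fun t => v (S ∪ su c t)) t` (`sg (i+c) (su c t) = su c (sg i t)`).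
`exL`: exchange in the left group: write the double sum as `∑ t, b t * BF k p (fun _ => 1) a (slice)`, and use `BF_exch` with the exchange relations of the slices (`sl_left`). `exR`: exchange in the right group.
-/

set_option autoImplicit false

noncomputable section

namespace CF

open Finset PX

theorem mem_su {a x : ℕ} {s : Finset ℕ} : x ∈ su a s ↔ ∃ z ∈ s, z + a = x := by
  unfold su
  rw [Finset.mem_map]
  exact Iff.rfl

theorem mem_su' {a x : ℕ} {s : Finset ℕ} : x ∈ su a s ↔ a ≤ x ∧ x - a ∈ s := by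
  rw [mem_su]
  constructor
  · rintro ⟨z, hz, rfl⟩
    refine ⟨by omega, ?_⟩
    rw [Nat.add_sub_cancel]
    exact hz
  · rintro ⟨h1, h2⟩
    exact ⟨x - a, h2, by omega⟩

theorem add_mem_su {a x : ℕ} {s : Finset ℕ} : x + a ∈ su a s ↔ x ∈ s := by
  rw [mem_su', Nat.add_sub_cancel]
  exact ⟨fun h => h.2, fun h => ⟨by omega, h⟩⟩

theorem su_empty (a : ℕ) : su a ∅ = ∅ := by
  unfold su
  exact Finset.map_empty _

theorem su_zero (s : Finset ℕ) : su 0 s = s := by
  ext x
  rw [mem_su', Nat.sub_zero]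
  exact ⟨fun h => h.2, fun h => ⟨Nat.zero_le _, h⟩⟩

theorem su_su (a b : ℕ) (s : Finset ℕ) : su a (su b s) = su (b + a) s := by
  ext x
  rw [mem_su', mem_su', mem_su']
  have e : x - a - b = x - (b + a) := by omega
  rw [e]
  constructor
  · rintro ⟨h1, h2, h3⟩
    exact ⟨by omega, h3⟩
  · rintro ⟨h1, h2⟩
    exact ⟨by omega, by omega, h2⟩

theorem su_insert (a b : ℕ) (s : Finset ℕ) : su a (insert b s) = insert (b + a) (su a s) := by
  unfold su
  rw [Finset.map_insert]
  rfl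

theorem card_su (a : ℕ) (s : Finset ℕ) : (su a s).card = s.card := by
  unfold su
  exact Finset.card_map _

theorem SpA_mem_sg {i x : ℕ} {s : Finset ℕ} : x ∈ sg i s ↔ Equiv.swap i (i + 1) x ∈ s := by
  unfold sg
  rw [Finset.mem_map_equiv]
  rw [Equiv.symm_swap]

theorem SpA_sg_union {i : ℕ} {R : Finset ℕ} (h0 : i ∉ R) (h1 : i + 1 ∉ R) (s : Finset ℕ) :
    sg i (s ∪ R) = sg i s ∪ R := by
  ext x
  rw [Finset.mem_union, SpA_mem_sg, SpA_mem_sg, Finset.mem_union]
  have h2 : Equiv.swap i (i + 1) x ∈ R ↔ x ∈ R := by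
    rcases eq_or_ne x i with rfl | hx
    · rw [Equiv.swap_apply_left]
      exact ⟨fun h => absurd h h1, fun h => absurd h h0⟩
    · rcases eq_or_ne x (i + 1) with rfl | hx'
      · rw [Equiv.swap_apply_right]
        exact ⟨fun h => absurd h h0, fun h => absurd h h1⟩
      · rw [Equiv.swap_apply_of_ne_of_ne hx hx']
  rw [h2]

theorem SpA_sg_su (i c : ℕ) (t : Finset ℕ) : sg (i + c) (su c t) = su c (sg i t) := by
  ext x
  rw [SpA_mem_sg, mem_su' (a := c) (x := x), SpA_mem_sg]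
  rcases eq_or_ne x (i + c) with rfl | hx
  · rw [Equiv.swap_apply_left, Nat.add_sub_cancel, Equiv.swap_apply_left]
    have e : i + c + 1 = i + 1 + c := by omega
    rw [e, add_mem_su]
    exact ⟨fun h => ⟨by omega, h⟩, fun h => h.2⟩
  · rcases eq_or_ne x (i + c + 1) with rfl | hx'
    · rw [Equiv.swap_apply_right, add_mem_su]
      have e : i + c + 1 - c = i + 1 := by omega
      rw [e, Equiv.swap_apply_right]
      exact ⟨fun h => ⟨by omega, h⟩, fun h => h.2⟩
    · rw [Equiv.swap_apply_of_ne_of_ne hx hx', mem_su']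
      by_cases hc : c ≤ x
      · rw [Equiv.swap_apply_of_ne_of_ne (by omega) (by omega)]
      · exact ⟨fun h => absurd h.1 hc, fun h => absurd h.1 hc⟩

theorem sl_left {i : ℕ} {R : Finset ℕ} (h0 : i ∉ R) (h1 : i + 1 ∉ R) (v : Vec) (s : Finset ℕ) :
    ee i v (s ∪ R) = ee i (fun s => v (s ∪ R)) s := by
  have e0 : i ∈ s ∪ R ↔ i ∈ s := by
    rw [Finset.mem_union]
    exact ⟨fun h => h.resolve_right h0, Or.inl⟩
  have e1 : i + 1 ∈ s ∪ R ↔ i + 1 ∈ s := by
    rw [Finset.mem_union]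
    exact ⟨fun h => h.resolve_right h1, Or.inl⟩
  rw [PairA_ee i v (s ∪ R), PairA_ee i (fun s => v (s ∪ R)) s, SpA_sg_union h0 h1]
  simp only [e0, e1]

theorem sl_right {i c : ℕ} {S : Finset ℕ} (h0 : i + c ∉ S) (h1 : i + 1 + c ∉ S) (v : Vec) (t : Finset ℕ) :
    ee (i + c) v (S ∪ su c t) = ee i (fun t => v (S ∪ su c t)) t := by
  have ec : i + c + 1 = i + 1 + c := by omega
  have e0 : i + c ∈ S ∪ su c t ↔ i ∈ t := by
    rw [Finset.mem_union, add_mem_su]
    exact ⟨fun h => h.resolve_left h0, Or.inr⟩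
  have e1 : i + c + 1 ∈ S ∪ su c t ↔ i + 1 ∈ t := by
    rw [ec, Finset.mem_union, add_mem_su]
    exact ⟨fun h => h.resolve_left h1, Or.inr⟩
  have e2 : sg (i + c) (S ∪ su c t) = S ∪ su c (sg i t) := by
    rw [Finset.union_comm S, SpA_sg_union h0 (by rw [ec]; exact h1), SpA_sg_su, Finset.union_comm]
  rw [PairA_ee (i + c) v (S ∪ su c t), PairA_ee i (fun t => v (S ∪ su c t)) t, e2]
  simp only [e0, e1]

/-- general pairing: `R` fixed ups, `s` on the left, `t` shifted by `c` on the right -/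
def PG (k m p q c : ℕ) (R : Finset ℕ) (v a b : Vec) : ℂ :=
  ∑ s ∈ cfn k p, ∑ t ∈ cfn m q, v (s ∪ (R ∪ su c t)) * a s * b t

theorem SpA_PG_left (k m p q c : ℕ) (R : Finset ℕ) (v a b : Vec) :
    PG k m p q c R v a b =
      ∑ t ∈ cfn m q, b t * BF k p (fun _ => 1) a (fun s => v (s ∪ (R ∪ su c t))) := by
  unfold PG BF
  rw [Finset.sum_comm]
  refine Finset.sum_congr rfl fun t _ => ?_
  rw [Finset.mul_sum]
  refine Finset.sum_congr rfl fun s _ => ?_
  ring

theorem SpA_PG_right (k m p q c : ℕ) (R : Finset ℕ) (v a b : Vec) :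
    PG k m p q c R v a b =
      ∑ s ∈ cfn k p, a s * BF m q (fun _ => 1) b (fun t => v (s ∪ R ∪ su c t)) := by
  unfold PG BF
  refine Finset.sum_congr rfl fun s _ => ?_
  rw [Finset.mul_sum]
  refine Finset.sum_congr rfl fun t _ => ?_
  rw [← Finset.union_assoc]
  ring

theorem exL {k m p q c i : ℕ} (hi : i + 1 < k) (hc : k ≤ c) {R : Finset ℕ} (hR : ∀ x ∈ R, k ≤ x) (x y : ℂ)
    (hxy : om * x ≠ y) (hyx : om * y ≠ x) (g gs g' gs' b : Vec)
    (h : ∀ s, (om * x - y) * gs s = (om * y - x) * g s + om ^ 2 * (y - x) * ee i g s)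
    (h' : ∀ s, (om * y - x) * gs' s = (om * x - y) * g' s + om ^ 2 * (x - y) * ee i g' s) :
    PG k m p q c R gs gs' b = PG k m p q c R g g' b := by
  rw [SpA_PG_left, SpA_PG_left]
  refine Finset.sum_congr rfl fun t _ => ?_
  have hR' : ∀ z : ℕ, z < k → z ∉ R ∪ su c t := by
    intro z hz hz2
    rw [Finset.mem_union, mem_su'] at hz2
    rcases hz2 with hz2 | hz2
    · have h1 := hR z hz2
      omega
    · omega
  have key := BF_exch (L := k) (n := p) hi (fun _ => 1) (fun _ => rfl) x y hxy hyx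
    (fun s => g (s ∪ (R ∪ su c t))) (fun s => gs (s ∪ (R ∪ su c t))) g' gs' (fun s => by
      have h1 := h (s ∪ (R ∪ su c t))
      rw [sl_left (hR' i (by omega)) (hR' (i + 1) hi)] at h1
      exact h1) h'
  rw [key]

theorem exR {k m p q c i : ℕ} (hi : i + 1 < m) (hc : k ≤ c) {R : Finset ℕ} (hR : ∀ x ∈ R, x < c) (x y : ℂ)
    (hxy : om * x ≠ y) (hyx : om * y ≠ x) (g gs g' gs' a : Vec)
    (h : ∀ s, (om * x - y) * gs s = (om * y - x) * g s + om ^ 2 * (y - x) * ee (i + c) g s)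
    (h' : ∀ s, (om * y - x) * gs' s = (om * x - y) * g' s + om ^ 2 * (x - y) * ee i g' s) :
    PG k m p q c R gs a gs' = PG k m p q c R g a g' := by
  rw [SpA_PG_right, SpA_PG_right]
  refine Finset.sum_congr rfl fun s hs => ?_
  have hs1 : ∀ z ∈ s, z < k := by
    intro z hz
    exact Finset.mem_range.1 ((mem_cfn.1 hs).1 hz)
  have hR' : ∀ z : ℕ, c ≤ z → z ∉ s ∪ R := by
    intro z hz hz2
    rw [Finset.mem_union] at hz2
    rcases hz2 with hz2 | hz2
    · have h1 := hs1 z hz2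
      omega
    · have h1 := hR z hz2
      omega
  have key := BF_exch (L := m) (n := q) hi (fun _ => 1) (fun _ => rfl) x y hxy hyx
    (fun t => g (s ∪ R ∪ su c t)) (fun t => gs (s ∪ R ∪ su c t)) g' gs' (fun t => by
      have h1 := h (s ∪ R ∪ su c t)
      rw [sl_right (hR' (i + c) (by omega)) (hR' (i + 1 + c) (by omega))] at h1
      exact h1) h'
  rw [key]

end CF
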