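import Pool.Agent.Lib.MP_216314_pr.CF.Def
import Pool.Agent.Lib.MP_216314_pr.X.Cty

/-!
# The three pairings: dependence on the arguments, Laurent polynomials, continuity

`loc`: `gv_congr`. `lau`: `Lau.sum`, `Lau.mul`, `Lau.const`; each factor `gv L (φ y) s` is a Laurent polynomial in the first `k + m + 1` arguments: `Lau.comp (gv_lau L s)` with `φ` one of `rv k y`, `ivs y`, `ivs (sh (k+1) y)`, `ivs (sh k y)` (see `pairB_loc_inv` in `X/PairB.lean` for the truncation of the inverses: for `k ≥ L` the value of the substitution does not matter, use `gv_congr`).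
`tendsto`: `gv_tendsto` in `X/Cty.lean`, see `DD_tendsto`.
-/

set_option autoImplicit false

noncomputable section

namespace CF

open Finset PX MvPolynomial Filter Topology

private theorem SpL_rv (k : ℕ) (y : ℕ → ℂ) : rv k y = fun i => y (if i < k then i else i + 1) := by
  funext i
  unfold rv
  split_ifs
  · rfl
  · rfl

private theorem SpL_lau {M L : ℕ} (s : Finset ℕ) (φ : ℕ → ℕ) (hφ : ∀ i, i < L → φ i < M) :
    Lau M (fun y => gv L (fun i => y (φ i)) s) := by
  refine Lau.comp (gv_lau L s) (fun i y => y (φ i)) ?_ ?_ ?_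
  · intro i
    exact Lau.coord _ _
  · intro i hi
    exact Lau.coord_inv (hφ i hi)
  · intro i hi y hy
    exact hy _ (hφ i hi)

private theorem SpL_laui {M L : ℕ} (s : Finset ℕ) (φ : ℕ → ℕ) (hφ : ∀ i, i < L → φ i < M) :
    Lau M (fun y => gv L (fun i => (y (φ i))⁻¹) s) := by
  have h1 : Lau M (fun y => gv L (fun i => if i < L then (y (φ i))⁻¹ else y i) s) := by
    refine Lau.comp (gv_lau L s) (fun i y => if i < L then (y (φ i))⁻¹ else y i) ?_ ?_ ?_
    · intro i
      by_cases hi : i < L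
      · simp only [if_pos hi]
        exact Lau.coord_inv (hφ i hi)
      · simp only [if_neg hi]
        exact Lau.coord _ _
    · intro i hi
      simp only [if_pos hi, inv_inv]
      exact Lau.coord _ _
    · intro i hi y hy
      simp only [if_pos hi]
      exact inv_ne_zero (hy _ (hφ i hi))
  refine h1.congr fun y _ => ?_
  have h2 : gv L (fun i => if i < L then (y (φ i))⁻¹ else y i) = gv L (fun i => (y (φ i))⁻¹) :=
    gv_congr fun i hi => if_pos hi
  rw [h2]

theorem MU_loc (k m : ℕ) {y y' : ℕ → ℂ} (h : ∀ i, i < k + m + 1 → y i = y' i) : MU k m y = MU k m y' := by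
  unfold MU
  have h1 : gv (k + m + 1) y = gv (k + m + 1) y' := gv_congr h
  have h2 : gv k (ivs y) = gv k (ivs y') := gv_congr fun i hi => by
    unfold ivs
    rw [h i (by omega)]
  have h3 : gv m (ivs (sh (k + 1) y)) = gv m (ivs (sh (k + 1) y')) := gv_congr fun i hi => by
    unfold ivs sh
    rw [h (i + (k + 1)) (by omega)]
  rw [h1, h2, h3]

theorem MLL_loc (k m : ℕ) {y y' : ℕ → ℂ} (h : ∀ i, i < k + m + 1 → y i = y' i) : MLL k m y = MLL k m y' := by
  unfold MLL
  have h1 : gv (k + m) (rv k y) = gv (k + m) (rv k y') := gv_congr fun i hi => by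
    unfold rv
    split_ifs
    · exact h i (by omega)
    · exact h (i + 1) (by omega)
  have h2 : gv (k + 1) (ivs y) = gv (k + 1) (ivs y') := gv_congr fun i hi => by
    unfold ivs
    rw [h i (by omega)]
  have h3 : gv m (ivs (sh (k + 1) y)) = gv m (ivs (sh (k + 1) y')) := gv_congr fun i hi => by
    unfold ivs sh
    rw [h (i + (k + 1)) (by omega)]
  rw [h1, h2, h3]

theorem MLR_loc (k m : ℕ) {y y' : ℕ → ℂ} (h : ∀ i, i < k + m + 1 → y i = y' i) : MLR k m y = MLR k m y' := by
  unfold MLR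
  have h1 : gv (k + m) (rv k y) = gv (k + m) (rv k y') := gv_congr fun i hi => by
    unfold rv
    split_ifs
    · exact h i (by omega)
    · exact h (i + 1) (by omega)
  have h2 : gv k (ivs y) = gv k (ivs y') := gv_congr fun i hi => by
    unfold ivs
    rw [h i (by omega)]
  have h3 : gv (m + 1) (ivs (sh k y)) = gv (m + 1) (ivs (sh k y')) := gv_congr fun i hi => by
    unfold ivs sh
    rw [h (i + k) (by omega)]
  rw [h1, h2, h3]

theorem MU_lau (k m : ℕ) : Lau (k + m + 1) (MU k m) := by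
  unfold MU
  refine Lau.sum _ fun s _ => Lau.sum _ fun t _ => ((gv_lau (k + m + 1) _).mul ?_).mul ?_
  · exact SpL_laui s (fun i => i) (fun i hi => by show i < k + m + 1; omega)
  · exact SpL_laui t (fun i => i + (k + 1)) (fun i hi => by show i + (k + 1) < k + m + 1; omega)

theorem MLL_lau (k m : ℕ) : Lau (k + m + 1) (MLL k m) := by
  unfold MLL
  refine Lau.sum _ fun s _ => Lau.sum _ fun t _ => (Lau.mul ?_ ?_).mul ?_
  · simp only [SpL_rv]
    exact SpL_lau _ (fun i => if i < k then i else i + 1) (fun i hi => by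
      show (if i < k then i else i + 1) < k + m + 1
      split_ifs <;> omega)
  · exact SpL_laui s (fun i => i) (fun i hi => by show i < k + m + 1; omega)
  · exact SpL_laui t (fun i => i + (k + 1)) (fun i hi => by show i + (k + 1) < k + m + 1; omega)

theorem MLR_lau (k m : ℕ) : Lau (k + m + 1) (MLR k m) := by
  unfold MLR
  refine Lau.sum _ fun s _ => Lau.sum _ fun t _ => (Lau.mul ?_ ?_).mul ?_
  · simp only [SpL_rv]
    exact SpL_lau _ (fun i => if i < k then i else i + 1) (fun i hi => by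
      show (if i < k then i else i + 1) < k + m + 1
      split_ifs <;> omega)
  · exact SpL_laui s (fun i => i) (fun i hi => by show i < k + m + 1; omega)
  · exact SpL_laui (su 1 t) (fun i => i + k) (fun i hi => by show i + k < k + m + 1; omega)

theorem MU_tendsto {ι : Type*} {l : Filter ι} (k m : ℕ) {y : ι → ℕ → ℂ} {y0 : ℕ → ℂ}
    (h : ∀ j, Tendsto (fun i => y i j) l (𝓝 (y0 j))) (h0 : ∀ j, y0 j ≠ 0) :
    Tendsto (fun i => MU k m (y i)) l (𝓝 (MU k m y0)) := by
  unfold MU
  refine tendsto_finsetSum _ (fun s _ => tendsto_finsetSum _ (fun t _ => ?_))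
  refine Tendsto.mul (Tendsto.mul ?_ ?_) ?_
  · exact gv_tendsto _ _ h (fun j _ => h0 j)
  · exact gv_tendsto _ _ (fun j => (h j).inv₀ (h0 j)) (fun j _ => inv_ne_zero (h0 j))
  · exact gv_tendsto _ _ (fun j => (h (j + (k + 1))).inv₀ (h0 (j + (k + 1))))
      (fun j _ => inv_ne_zero (h0 (j + (k + 1))))

theorem MLL_tendsto {ι : Type*} {l : Filter ι} (k m : ℕ) {y : ι → ℕ → ℂ} {y0 : ℕ → ℂ}
    (h : ∀ j, Tendsto (fun i => y i j) l (𝓝 (y0 j))) (h0 : ∀ j, y0 j ≠ 0) :
    Tendsto (fun i => MLL k m (y i)) l (𝓝 (MLL k m y0)) := by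
  unfold MLL
  refine tendsto_finsetSum _ (fun s _ => tendsto_finsetSum _ (fun t _ => ?_))
  refine Tendsto.mul (Tendsto.mul ?_ ?_) ?_
  · refine gv_tendsto _ _ (fun j => ?_) (fun j _ => ?_)
    · unfold rv
      split_ifs
      · exact h j
      · exact h (j + 1)
    · unfold rv
      split_ifs
      · exact h0 j
      · exact h0 (j + 1)
  · exact gv_tendsto _ _ (fun j => (h j).inv₀ (h0 j)) (fun j _ => inv_ne_zero (h0 j))
  · exact gv_tendsto _ _ (fun j => (h (j + (k + 1))).inv₀ (h0 (j + (k + 1))))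
      (fun j _ => inv_ne_zero (h0 (j + (k + 1))))

theorem MLR_tendsto {ι : Type*} {l : Filter ι} (k m : ℕ) {y : ι → ℕ → ℂ} {y0 : ℕ → ℂ}
    (h : ∀ j, Tendsto (fun i => y i j) l (𝓝 (y0 j))) (h0 : ∀ j, y0 j ≠ 0) :
    Tendsto (fun i => MLR k m (y i)) l (𝓝 (MLR k m y0)) := by
  unfold MLR
  refine tendsto_finsetSum _ (fun s _ => tendsto_finsetSum _ (fun t _ => ?_))
  refine Tendsto.mul (Tendsto.mul ?_ ?_) ?_
  · refine gv_tendsto _ _ (fun j => ?_) (fun j _ => ?_)
    · unfold rv
      split_ifs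
      · exact h j
      · exact h (j + 1)
    · unfold rv
      split_ifs
      · exact h0 j
      · exact h0 (j + 1)
  · exact gv_tendsto _ _ (fun j => (h j).inv₀ (h0 j)) (fun j _ => inv_ne_zero (h0 j))
  · exact gv_tendsto _ _ (fun j => (h (j + k)).inv₀ (h0 (j + k)))
      (fun j _ => inv_ne_zero (h0 (j + k)))

end CF
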