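import Pool.Agent.Lib.MP_216314_pr.CF.SpA
import Pool.Agent.Lib.MP_216314_pr.CF.SpL

/-!
# Exchange inside the two groups

`*_PG`: `insert k X = {k} ∪ X` (`Finset.insert_eq`), `∅ ∪ X = X`.
`*_sw` : as `DD_sw` in `X/PairB.lean`: first at a generic point (`Gen (k+m+1) y`) and then `Lau.ext_gen`. Exchange relations: `gv_exch L Set.univ` at `y` and at `ivs y` (multiply by `y i * y (i+1)`): `exch_ivs`. `ivs (sw i y) = sw i (ivs y)`; `rv k (sw i y) = sw i (rv k y)` for `i + 1 < k`, `rv k (sw (i+1) y) = sw i (rv k y)` for `k ≤ i`; `sh c (sw (i + c) y) = sw i (sh c y)`; `gv_congr` for the parts which do not see the exchanged arguments.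
In the right group of `MLR` the position in the vector of width `m + 1` is shifted by one: `ee (i+1) v (su 1 t) = ee i (fun t => v (su 1 t)) t` (`sl_right` with `c = 1`, `S = ∅`).
The hypotheses `om * y i ≠ y (i+1)`, ... are in `Gen.ne_mul`.
-/

set_option autoImplicit false

noncomputable section

namespace CF

open Finset PX

theorem MU_PG (k m : ℕ) (y : ℕ → ℂ) : MU k m y =
    PG k m (k / 2) (m / 2) (k + 1) {k} (gv (k + m + 1) y) (gv k (ivs y)) (gv m (ivs (sh (k + 1) y))) := by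
  unfold MU PG
  refine Finset.sum_congr rfl fun s _ => Finset.sum_congr rfl fun t _ => ?_
  rw [Finset.insert_eq]

theorem MLL_PG (k m : ℕ) (y : ℕ → ℂ) : MLL k m y =
    PG k m (k / 2) (m / 2) k ∅ (gv (k + m) (rv k y)) (gv (k + 1) (ivs y)) (gv m (ivs (sh (k + 1) y))) := by
  unfold MLL PG
  refine Finset.sum_congr rfl fun s _ => Finset.sum_congr rfl fun t _ => ?_
  rw [Finset.empty_union]

theorem MLR_PG (k m : ℕ) (y : ℕ → ℂ) : MLR k m y =
    PG k m (k / 2) (m / 2) k ∅ (gv (k + m) (rv k y)) (gv k (ivs y)) (fun t => gv (m + 1) (ivs (sh k y)) (su 1 t)) := by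
  unfold MLR PG
  refine Finset.sum_congr rfl fun s _ => Finset.sum_congr rfl fun t _ => ?_
  rw [Finset.empty_union]

theorem exch_ivs {L i : ℕ} (hi : i + 1 < L) {z : ℕ → ℂ} (h0 : z i ≠ 0) (h1 : z (i + 1) ≠ 0) (s : Finset ℕ) :
    (om * z (i + 1) - z i) * gv L (sw i (ivs z)) s =
      (om * z i - z (i + 1)) * gv L (ivs z) s + om ^ 2 * (z i - z (i + 1)) * ee i (gv L (ivs z)) s := by
  have h3 := gv_exch L Set.univ i (Nat.zero_le _) hi (ivs z) (Set.mem_univ _) s
  have e1 : ivs z i = (z i)⁻¹ := rfl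
  have e2 : ivs z (i + 1) = (z (i + 1))⁻¹ := rfl
  rw [e1, e2] at h3
  have h4 : z i * z (i + 1) * ((om * (z i)⁻¹ - (z (i + 1))⁻¹) * gv L (sw i (ivs z)) s) =
      z i * z (i + 1) * ((om * (z (i + 1))⁻¹ - (z i)⁻¹) * gv L (ivs z) s +
        om ^ 2 * ((z (i + 1))⁻¹ - (z i)⁻¹) * ee i (gv L (ivs z)) s) := by rw [h3]
  field_simp at h4
  linear_combination h4

theorem rv_sw_lt {i k : ℕ} (h : i + 1 < k) (y : ℕ → ℂ) : rv k (sw i y) = sw i (rv k y) := by
  funext j
  rcases eq_or_ne j i with h1 | h1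
  · subst h1
    rw [sw_left]
    unfold rv
    rw [if_pos (by omega), if_pos h, sw_left]
  · rcases eq_or_ne j (i + 1) with h2 | h2
    · subst h2
      rw [sw_right]
      unfold rv
      rw [if_pos h, if_pos (by omega), sw_right]
    · rw [sw_of_ne _ _ h1 h2]
      unfold rv
      by_cases h3 : j < k
      · rw [if_pos h3, if_pos h3, sw_of_ne _ _ h1 h2]
      · rw [if_neg h3, if_neg h3, sw_of_ne _ _ (by omega) (by omega)]

theorem rv_sw_ge {i k : ℕ} (h : k ≤ i) (y : ℕ → ℂ) : rv k (sw (i + 1) y) = sw i (rv k y) := by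
  funext j
  rcases eq_or_ne j i with h1 | h1
  · subst h1
    rw [sw_left]
    unfold rv
    rw [if_neg (by omega), if_neg (by omega), sw_left]
  · rcases eq_or_ne j (i + 1) with h2 | h2
    · subst h2
      rw [sw_right]
      unfold rv
      rw [if_neg (by omega), if_neg (by omega), sw_right]
    · rw [sw_of_ne _ _ h1 h2]
      unfold rv
      by_cases h3 : j < k
      · rw [if_pos h3, if_pos h3, sw_of_ne _ _ (by omega) (by omega)]
      · rw [if_neg h3, if_neg h3, sw_of_ne _ _ (by omega) (by omega)]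

theorem sh_sw (i c : ℕ) (y : ℕ → ℂ) : sh c (sw (i + c) y) = sw i (sh c y) := by
  funext j
  rcases eq_or_ne j i with h1 | h1
  · subst h1
    rw [sw_left]
    unfold sh
    rw [sw_left, show j + 1 + c = j + c + 1 by omega]
  · rcases eq_or_ne j (i + 1) with h2 | h2
    · subst h2
      rw [sw_right]
      unfold sh
      rw [show i + 1 + c = i + c + 1 by omega, sw_right]
    · rw [sw_of_ne _ _ h1 h2]
      unfold sh
      rw [sw_of_ne _ _ (by omega) (by omega)]

theorem SpB_ivs_sw (i : ℕ) (y : ℕ → ℂ) : ivs (sw i y) = sw i (ivs y) := rfl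

/-- the exchange at a shifted position -/
theorem SpB_ex_inv {L i : ℕ} (hi : i + 1 < L) {z : ℕ → ℂ} {x y : ℂ} (hx : z i = x) (hy : z (i + 1) = y)
    (h0 : x ≠ 0) (h1 : y ≠ 0) (s : Finset ℕ) : (om * y - x) * gv L (ivs (sw i z)) s =
      (om * x - y) * gv L (ivs z) s + om ^ 2 * (x - y) * ee i (gv L (ivs z)) s := by
  subst hx hy
  exact exch_ivs hi h0 h1 s

theorem SpB_ex {L i : ℕ} (hi : i + 1 < L) {z : ℕ → ℂ} {x y : ℂ} (hx : z i = x) (hy : z (i + 1) = y)
    (s : Finset ℕ) : (om * x - y) * gv L (sw i z) s =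
      (om * y - x) * gv L z s + om ^ 2 * (y - x) * ee i (gv L z) s := by
  subst hx hy
  exact gv_exch L Set.univ i (Nat.zero_le _) hi z (Set.mem_univ _) s

/-- the arguments beyond the exchanged ones -/
theorem SpB_ivs_congr {L i : ℕ} (h : L ≤ i) (y : ℕ → ℂ) : gv L (ivs (sw i y)) = gv L (ivs y) :=
  gv_congr fun j hj => by
    unfold ivs
    rw [sw_of_ne _ _ (by omega) (by omega)]

theorem SpB_sh_congr {i c : ℕ} (h : i + 1 < c) (y : ℕ → ℂ) : sh c (sw i y) = sh c y := by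
  funext j
  unfold sh
  rw [sw_of_ne _ _ (by omega) (by omega)]

theorem SpB_ext {L i : ℕ} (hi : i + 1 < L) {f : (ℕ → ℂ) → ℂ} (hf : Lau L f)
    (hg : ∀ z, Gen L z → f (sw i z) = f z) {y : ℕ → ℂ} (hy : NZ L y) : f (sw i y) = f y := by
  have hL1 : Lau L (fun z => f (sw i z) - f z) := by
    refine Lau.sub ?_ hf
    have hlt : ∀ k, k < L → Equiv.swap i (i + 1) k < L := by
      intro k hk
      rw [Equiv.swap_apply_def]
      split_ifs <;> omega
    refine Lau.comp hf (fun k y => sw i y k) ?_ ?_ ?_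
    · intro k
      exact Lau.coord L _
    · intro k hk
      exact Lau.coord_inv (hlt k hk)
    · intro k hk y hy
      exact hy _ (hlt k hk)
  have h2 : ∀ z, Gen L z → (fun z => f (sw i z) - f z) z = 0 := fun z hz => sub_eq_zero.mpr (hg z hz)
  exact sub_eq_zero.mp (Lau.ext_gen hL1 h2 y hy)

theorem MU_sw {k m i : ℕ} {y : ℕ → ℂ} (hy : NZ (k + m + 1) y) (h : i + 1 < k ∨ (k < i ∧ i + 1 < k + m + 1)) :
    MU k m (sw i y) = MU k m y := by
  refine SpB_ext (by omega) (MU_lau k m) (fun z hz => ?_) hy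
  have hi0 : i < k + m + 1 := by omega
  have hi1 : i + 1 < k + m + 1 := by omega
  have n0 : z i ≠ 0 := hz.1 i hi0
  have n1 : z (i + 1) ≠ 0 := hz.1 (i + 1) hi1
  obtain ⟨-, g2, -⟩ := Gen.ne_mul hz hi0 hi1 (by omega)
  obtain ⟨-, g4, -⟩ := Gen.ne_mul hz hi1 hi0 (by omega)
  rw [MU_PG, MU_PG]
  rcases h with h | ⟨h, h'⟩
  · rw [SpB_sh_congr (show i + 1 < k + 1 by omega)]
    refine exL h (by omega) (fun x hx => ?_) (z i) (z (i + 1)) g2 g4 _ _ _ _ _
      (SpB_ex hi1 rfl rfl) (SpB_ex_inv h rfl rfl n0 n1)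
    rw [Finset.mem_singleton] at hx
    omega
  · obtain ⟨j, rfl⟩ : ∃ j, i = j + (k + 1) := ⟨i - (k + 1), by omega⟩
    rw [SpB_ivs_congr (show k ≤ j + (k + 1) by omega), sh_sw]
    refine exR (show j + 1 < m by omega) (by omega) (fun x hx => ?_) (z (j + (k + 1))) (z (j + (k + 1) + 1))
      g2 g4 _ _ _ _ _ (SpB_ex hi1 rfl rfl) (SpB_ex_inv (by omega) rfl ?_ n0 n1)
    · rw [Finset.mem_singleton] at hx
      omega
    · show z (j + 1 + (k + 1)) = z (j + (k + 1) + 1)
      rw [show j + 1 + (k + 1) = j + (k + 1) + 1 by omega]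

theorem MLL_sw {k m i : ℕ} {y : ℕ → ℂ} (hy : NZ (k + m + 1) y) (h : i + 1 < k ∨ (k < i ∧ i + 1 < k + m + 1)) :
    MLL k m (sw i y) = MLL k m y := by
  refine SpB_ext (by omega) (MLL_lau k m) (fun z hz => ?_) hy
  have hi0 : i < k + m + 1 := by omega
  have hi1 : i + 1 < k + m + 1 := by omega
  have n0 : z i ≠ 0 := hz.1 i hi0
  have n1 : z (i + 1) ≠ 0 := hz.1 (i + 1) hi1
  obtain ⟨-, g2, -⟩ := Gen.ne_mul hz hi0 hi1 (by omega)
  obtain ⟨-, g4, -⟩ := Gen.ne_mul hz hi1 hi0 (by omega)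
  rw [MLL_PG, MLL_PG]
  rcases h with h | ⟨h, h'⟩
  · rw [SpB_sh_congr (show i + 1 < k + 1 by omega), rv_sw_lt h]
    refine exL h le_rfl (fun x hx => ?_) (z i) (z (i + 1)) g2 g4 _ _ _ _ _
      (SpB_ex (by omega) ?_ ?_) (SpB_ex_inv (by omega) rfl rfl n0 n1)
    · exact absurd hx (Finset.notMem_empty x)
    · unfold rv
      rw [if_pos (by omega)]
    · unfold rv
      rw [if_pos h]
  · obtain ⟨j, rfl⟩ : ∃ j, i = j + (k + 1) := ⟨i - (k + 1), by omega⟩
    rw [SpB_ivs_congr (show k + 1 ≤ j + (k + 1) by omega), sh_sw, ← add_assoc j k 1,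
      rv_sw_ge (show k ≤ j + k by omega)]
    refine exR (show j + 1 < m by omega) le_rfl (fun x hx => ?_) (z (j + (k + 1))) (z (j + (k + 1) + 1))
      g2 g4 _ _ _ _ _ (SpB_ex (by omega) ?_ ?_) (SpB_ex_inv (by omega) rfl ?_ n0 n1)
    · exact absurd hx (Finset.notMem_empty x)
    · unfold rv
      rw [if_neg (by omega), add_assoc]
    · unfold rv
      rw [if_neg (by omega), show j + k + 1 + 1 = j + (k + 1) + 1 by omega]
    · show z (j + 1 + (k + 1)) = z (j + (k + 1) + 1)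
      rw [show j + 1 + (k + 1) = j + (k + 1) + 1 by omega]

theorem MLR_sw {k m i : ℕ} {y : ℕ → ℂ} (hy : NZ (k + m + 1) y) (h : i + 1 < k ∨ (k < i ∧ i + 1 < k + m + 1)) :
    MLR k m (sw i y) = MLR k m y := by
  refine SpB_ext (by omega) (MLR_lau k m) (fun z hz => ?_) hy
  have hi0 : i < k + m + 1 := by omega
  have hi1 : i + 1 < k + m + 1 := by omega
  have n0 : z i ≠ 0 := hz.1 i hi0
  have n1 : z (i + 1) ≠ 0 := hz.1 (i + 1) hi1
  obtain ⟨-, g2, -⟩ := Gen.ne_mul hz hi0 hi1 (by omega)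
  obtain ⟨-, g4, -⟩ := Gen.ne_mul hz hi1 hi0 (by omega)
  rw [MLR_PG, MLR_PG]
  rcases h with h | ⟨h, h'⟩
  · rw [SpB_sh_congr h, rv_sw_lt h]
    refine exL h le_rfl (fun x hx => ?_) (z i) (z (i + 1)) g2 g4 _ _ _ _ _
      (SpB_ex (by omega) ?_ ?_) (SpB_ex_inv h rfl rfl n0 n1)
    · exact absurd hx (Finset.notMem_empty x)
    · unfold rv
      rw [if_pos (by omega)]
    · unfold rv
      rw [if_pos h]
  · obtain ⟨j, rfl⟩ : ∃ j, i = j + (k + 1) := ⟨i - (k + 1), by omega⟩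
    have e1 : sh k (sw (j + (k + 1)) z) = sw (j + 1) (sh k z) := by
      rw [← sh_sw, show j + 1 + k = j + (k + 1) by omega]
    rw [SpB_ivs_congr (show k ≤ j + (k + 1) by omega), e1, ← add_assoc j k 1,
      rv_sw_ge (show k ≤ j + k by omega)]
    refine exR (show j + 1 < m by omega) le_rfl (fun x hx => ?_) (z (j + (k + 1))) (z (j + (k + 1) + 1))
      g2 g4 _ _ _ _ _ (SpB_ex (by omega) ?_ ?_) (fun t => ?_)
    · exact absurd hx (Finset.notMem_empty x)
    · unfold rv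
      rw [if_neg (by omega), add_assoc]
    · unfold rv
      rw [if_neg (by omega), show j + k + 1 + 1 = j + (k + 1) + 1 by omega]
    · have h5 := sl_right (i := j) (c := 1) (S := ∅) (Finset.notMem_empty _) (Finset.notMem_empty _)
        (gv (m + 1) (ivs (sh k z))) t
      simp only [Finset.empty_union] at h5
      rw [← h5]
      refine SpB_ex_inv (z := sh k z) (by omega) ?_ ?_ n0 n1 (su 1 t)
      · show z (j + 1 + k) = z (j + (k + 1))
        rw [show j + 1 + k = j + (k + 1) by omega]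
      · show z (j + 1 + 1 + k) = z (j + (k + 1) + 1)
        rw [show j + 1 + 1 + k = j + (k + 1) + 1 by omega]

end CF
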