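import Pool.Agent.Lib.MP_216314_pr.CF.SpA

/-!
# Configurations

Sums over the configurations where the last or the first position is fixed, and the removal of two positions.
-/

set_option autoImplicit false

noncomputable section

namespace CF

open Finset PX

theorem sum_last0 (a n : ℕ) (F : Finset ℕ → ℂ) (h : ∀ s, s ⊆ range (a + 1) → a ∈ s → F s = 0) :
    ∑ s ∈ cfn (a + 1) n, F s = ∑ s ∈ cfn a n, F s := by
  symm
  refine sum_subset ?_ ?_
  · intro s hs
    rw [mem_cfn] at hs ⊢
    exact ⟨hs.1.trans (range_subset_range.2 (Nat.le_succ a)), hs.2⟩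
  · intro s hs hn
    rw [mem_cfn] at hs hn
    refine h s hs.1 ?_
    by_contra ha
    refine hn ⟨?_, hs.2⟩
    intro x hx
    have h1 := mem_range.1 (hs.1 hx)
    have h2 : x ≠ a := fun e => ha (e ▸ hx)
    exact mem_range.2 (by omega)

theorem sum_last1 (a n : ℕ) (F : Finset ℕ → ℂ) (h : ∀ s, s ⊆ range (a + 1) → a ∉ s → F s = 0) :
    ∑ s ∈ cfn (a + 1) (n + 1), F s = ∑ s ∈ cfn a n, F (insert a s) := by
  have hinj : Set.InjOn (fun s : Finset ℕ => insert a s) (cfn a n : Set (Finset ℕ)) := by
    intro s hs t ht hst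
    have h1 : a ∉ s := fun ha => by
      have := mem_range.1 ((mem_cfn.1 (mem_coe.1 hs)).1 ha)
      omega
    have h2 : a ∉ t := fun ha => by
      have := mem_range.1 ((mem_cfn.1 (mem_coe.1 ht)).1 ha)
      omega
    have h3 : (insert a s).erase a = (insert a t).erase a := congrArg (fun u : Finset ℕ => u.erase a) hst
    rwa [erase_insert h1, erase_insert h2] at h3
  rw [← sum_image (f := F) hinj]
  symm
  refine sum_subset ?_ ?_
  · intro u hu
    obtain ⟨s, hs, rfl⟩ := mem_image.1 hu
    rw [mem_cfn] at hs ⊢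
    have h1 : a ∉ s := fun ha => by
      have := mem_range.1 (hs.1 ha)
      omega
    refine ⟨?_, by rw [card_insert_of_notMem h1, hs.2]⟩
    intro x hx
    rcases mem_insert.1 hx with rfl | hx
    · exact mem_range.2 (by omega)
    · have := mem_range.1 (hs.1 hx)
      exact mem_range.2 (by omega)
  · intro s hs hn
    rw [mem_cfn] at hs
    refine h s hs.1 ?_
    intro ha
    refine hn (mem_image.2 ⟨s.erase a, ?_, insert_erase ha⟩)
    rw [mem_cfn]
    refine ⟨?_, by rw [card_erase_of_mem ha, hs.2]; rfl⟩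
    intro x hx
    rw [mem_erase] at hx
    have := mem_range.1 (hs.1 hx.2)
    exact mem_range.2 (by omega)

private theorem SpG_inj {s t : Finset ℕ} (h : su 1 s = su 1 t) : s = t := by
  ext x
  rw [← add_mem_su (a := 1) (x := x) (s := s), h, add_mem_su]

private theorem SpG_sub {b : ℕ} {s : Finset ℕ} (h : s ⊆ range b) : su 1 s ⊆ range (b + 1) := by
  intro x hx
  rw [mem_su'] at hx
  have := mem_range.1 (h hx.2)
  exact mem_range.2 (by omega)

private theorem SpG_dn {s : Finset ℕ} (h : 0 ∉ s) : su 1 (s.image (fun x => x - 1)) = s := by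
  ext x
  rw [mem_su', mem_image]
  constructor
  · rintro ⟨h1, z, hz, hzx⟩
    have h2 : z ≠ 0 := fun e => h (e ▸ hz)
    have h3 : z = x := by omega
    rwa [h3] at hz
  · intro hx
    have h2 : x ≠ 0 := fun e => h (e ▸ hx)
    exact ⟨by omega, x, hx, rfl⟩

private theorem SpG_dn_sub {b : ℕ} {s : Finset ℕ} (h : 0 ∉ s) (hs : s ⊆ range (b + 1)) :
    s.image (fun x => x - 1) ⊆ range b := by
  intro x hx
  obtain ⟨z, hz, rfl⟩ := mem_image.1 hx
  have h1 := mem_range.1 (hs hz)
  have h2 : z ≠ 0 := fun e => h (e ▸ hz)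
  exact mem_range.2 (by omega)

private theorem SpG_zero (s : Finset ℕ) : 0 ∉ su 1 s := by
  intro h
  rw [mem_su'] at h
  omega

theorem sum_first0 (b n : ℕ) (F : Finset ℕ → ℂ) (h : ∀ s, s ⊆ range (b + 1) → 0 ∈ s → F s = 0) :
    ∑ s ∈ cfn (b + 1) n, F s = ∑ s ∈ cfn b n, F (su 1 s) := by
  have hinj : Set.InjOn (fun s : Finset ℕ => su 1 s) (cfn b n : Set (Finset ℕ)) :=
    fun s _ t _ hst => SpG_inj hst
  rw [← sum_image (f := F) hinj]
  symm
  refine sum_subset ?_ ?_
  · intro u hu
    obtain ⟨s, hs, rfl⟩ := mem_image.1 hu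
    rw [mem_cfn] at hs ⊢
    exact ⟨SpG_sub hs.1, by rw [card_su, hs.2]⟩
  · intro s hs hn
    rw [mem_cfn] at hs
    refine h s hs.1 ?_
    by_contra h0
    have e := SpG_dn h0
    refine hn (mem_image.2 ⟨s.image (fun x => x - 1), ?_, e⟩)
    rw [mem_cfn]
    refine ⟨SpG_dn_sub h0 hs.1, ?_⟩
    rw [← card_su 1, e, hs.2]

theorem sum_first1 (b n : ℕ) (F : Finset ℕ → ℂ) (h : ∀ s, s ⊆ range (b + 1) → 0 ∉ s → F s = 0) :
    ∑ s ∈ cfn (b + 1) (n + 1), F s = ∑ s ∈ cfn b n, F (insert 0 (su 1 s)) := by
  have hinj : Set.InjOn (fun s : Finset ℕ => insert 0 (su 1 s)) (cfn b n : Set (Finset ℕ)) := by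
    intro s _ t _ hst
    have h3 : (insert 0 (su 1 s)).erase 0 = (insert 0 (su 1 t)).erase 0 := congrArg (fun u : Finset ℕ => u.erase 0) hst
    rw [erase_insert (SpG_zero s), erase_insert (SpG_zero t)] at h3
    exact SpG_inj h3
  rw [← sum_image (f := F) hinj]
  symm
  refine sum_subset ?_ ?_
  · intro u hu
    obtain ⟨s, hs, rfl⟩ := mem_image.1 hu
    rw [mem_cfn] at hs ⊢
    refine ⟨?_, by rw [card_insert_of_notMem (SpG_zero s), card_su, hs.2]⟩
    intro x hx
    rcases mem_insert.1 hx with rfl | hx
    · exact mem_range.2 (by omega)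
    · exact SpG_sub hs.1 hx
  · intro s hs hn
    rw [mem_cfn] at hs
    refine h s hs.1 ?_
    intro h0
    have h1 : 0 ∉ s.erase 0 := notMem_erase 0 s
    have e := SpG_dn h1
    refine hn (mem_image.2 ⟨(s.erase 0).image (fun x => x - 1), ?_, ?_⟩)
    · rw [mem_cfn]
      refine ⟨SpG_dn_sub h1 ((erase_subset 0 s).trans hs.1), ?_⟩
      rw [← card_su 1, e, card_erase_of_mem h0, hs.2]
      rfl
    · show insert 0 (su 1 ((s.erase 0).image (fun x => x - 1))) = s
      rw [e, insert_erase h0]

theorem rm_left {a : ℕ} {s : Finset ℕ} (hs : s ⊆ range a) (t : Finset ℕ) :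
    rm a (s ∪ insert (a + 1) (su (a + 1 + 1) t)) = s ∪ su a t := by
  have hb : ∀ x ∈ s, x < a := fun x hx => mem_range.1 (hs hx)
  ext x
  rw [mem_rm]
  unfold up
  split_ifs with hx
  · simp only [mem_union, mem_insert, mem_su']
    constructor
    · rintro (h | h | h)
      · exact Or.inl h
      · omega
      · omega
    · rintro (h | h)
      · exact Or.inl h
      · omega
  · simp only [mem_union, mem_insert, mem_su']
    constructor
    · rintro (h | h | h)
      · have := hb _ h
        omega
      · omega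
      · refine Or.inr ⟨by omega, ?_⟩
        have e : x + 2 - (a + 1 + 1) = x - a := by omega
        rw [e] at h
        exact h.2
    · rintro (h | h)
      · have := hb _ h
        omega
      · refine Or.inr (Or.inr ⟨by omega, ?_⟩)
        have e : x + 2 - (a + 1 + 1) = x - a := by omega
        rw [e]
        exact h.2

theorem rm_right {k : ℕ} {s : Finset ℕ} (hs : s ⊆ range k) (t : Finset ℕ) :
    rm k (s ∪ insert k (su (k + 1) (su 1 t))) = s ∪ su k t := by
  have hb : ∀ x ∈ s, x < k := fun x hx => mem_range.1 (hs hx)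
  rw [su_su]
  ext x
  rw [mem_rm]
  unfold up
  split_ifs with hx
  · simp only [mem_union, mem_insert, mem_su']
    constructor
    · rintro (h | h | h)
      · exact Or.inl h
      · omega
      · omega
    · rintro (h | h)
      · exact Or.inl h
      · omega
  · simp only [mem_union, mem_insert, mem_su']
    constructor
    · rintro (h | h | h)
      · have := hb _ h
        omega
      · omega
      · refine Or.inr ⟨by omega, ?_⟩
        have e : x + 2 - (1 + (k + 1)) = x - k := by omega
        rw [e] at h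
        exact h.2
    · rintro (h | h)
      · have := hb _ h
        omega
      · refine Or.inr (Or.inr ⟨by omega, ?_⟩)
        have e : x + 2 - (1 + (k + 1)) = x - k := by omega
        rw [e]
        exact h.2

theorem rm_last {a : ℕ} {s : Finset ℕ} (hs : s ⊆ range a) : rm a (insert a s) = s := by
  have hb : ∀ x ∈ s, x < a := fun x hx => mem_range.1 (hs hx)
  ext x
  rw [mem_rm]
  unfold up
  split_ifs with hx
  · rw [mem_insert]
    constructor
    · rintro (h | h)
      · omega
      · exact h
    · intro h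
      exact Or.inr h
  · rw [mem_insert]
    constructor
    · rintro (h | h)
      · omega
      · have := hb _ h
        omega
    · intro h
      have := hb _ h
      omega

theorem rm_first (t : Finset ℕ) : rm 0 (su 1 (insert 0 (su 1 t))) = t := by
  ext x
  rw [mem_rm]
  have e : up 0 x = x + 1 + 1 := by
    unfold up
    rw [if_neg (by omega)]
  rw [e, add_mem_su, mem_insert, add_mem_su]
  constructor
  · rintro (h | h)
    · omega
    · exact h
  · intro h
    exact Or.inr h

end CF
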