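import Pool.Agent.Lib.MP_216314_pr.CF.AlgB
import Pool.Agent.Lib.MP_216314_pr.CF.AlgC

/-!
# Functions with the symmetries of the slit strip vanish if they vanish at enough fused points
-/

set_option autoImplicit false

noncomputable section

namespace CF

open Finset PX

/-- symmetric in the variables of the left group and in those of the right group -/
structure Sy (k L : ℕ) (F : (ℕ → ℂ) → ℂ) : Prop where
  sw : ∀ i y, NZ L y → (i + 1 < k ∨ (k < i ∧ i + 1 < L)) → F (sw i y) = F y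
  inv : ∀ i y, NZ L y → i < L → i ≠ k → F (Function.update y i (y i)⁻¹) = F y

theorem Sy.sub {k L : ℕ} {F G : (ℕ → ℂ) → ℂ} (hF : Sy k L F) (hG : Sy k L G) :
    Sy k L (fun y => F y - G y) where
  sw := fun i y hy hi => by
    show F _ - G _ = F _ - G _
    rw [hF.sw i y hy hi, hG.sw i y hy hi]
  inv := fun i y hy hi hik => by
    show F _ - G _ = F _ - G _
    rw [hF.inv i y hy hi hik, hG.inv i y hy hi hik]

theorem Sy.swap_aux {k L : ℕ} {F : (ℕ → ℂ) → ℂ} (hF : Sy k L F) (hkL : k < L) (d : ℕ) :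
    ∀ (y : ℕ → ℂ) (i : ℕ), NZ L y → ((i + d + 1 < k) ∨ (k < i ∧ i + d + 1 < L)) →
      F (fun n => y (Equiv.swap i (i + d + 1) n)) = F y := by
  induction d with
  | zero =>
    intro y i hy hi
    exact hF.sw i y hy (by omega)
  | succ d ih =>
    intro y i hy hi
    have hz : NZ L (PX.sw (i + d + 1) y) := nz_sw hy (by omega)
    have hw : NZ L (fun n => PX.sw (i + d + 1) y (Equiv.swap i (i + d + 1) n)) :=
      BF_nz hz (by omega) (by omega)
    have h1 := hF.sw (i + d + 1) _ hw (by omega)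
    have h2 := ih (PX.sw (i + d + 1) y) i hz (by omega)
    have h3 := hF.sw (i + d + 1) y hy (by omega)
    have e : (fun n => y (Equiv.swap i (i + (d + 1) + 1) n)) =
        PX.sw (i + d + 1) (fun n => PX.sw (i + d + 1) y (Equiv.swap i (i + d + 1) n)) := by
      funext n
      have hperm : Equiv.swap i (i + (d + 1) + 1) =
          Equiv.swap (i + d + 1) (i + d + 1 + 1) * Equiv.swap i (i + d + 1) *
            Equiv.swap (i + d + 1) (i + d + 1 + 1) := by
        rw [Equiv.swap_mul_swap_mul_swap (by omega) (by omega), Equiv.swap_comm]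
        rfl
      rw [hperm]
      rfl
    rw [e, h1, h2, h3]

theorem Sy.swap {k L : ℕ} {F : (ℕ → ℂ) → ℂ} (hF : Sy k L F) (hkL : k < L) {y : ℕ → ℂ} (hy : NZ L y)
    {i j : ℕ} (h : (i < k ∧ j < k) ∨ (k < i ∧ k < j ∧ i < L ∧ j < L)) :
    F (fun n => y (Equiv.swap i j n)) = F y := by
  rcases lt_trichotomy i j with h1 | h1 | h1
  · obtain ⟨d, rfl⟩ := Nat.exists_eq_add_of_lt h1
    exact hF.swap_aux hkL d y i hy (by omega)
  · subst h1
    rw [Equiv.swap_self]
    rfl
  · obtain ⟨d, rfl⟩ := Nat.exists_eq_add_of_lt h1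
    rw [Equiv.swap_comm]
    exact hF.swap_aux hkL d y j hy (by omega)

/-! ### genericity -/

theorem swap_lt {L i j n : ℕ} (hi : i < L) (hj : j < L) (hn : n < L) : Equiv.swap i j n < L := by
  rw [Equiv.swap_apply_def]
  split_ifs
  · exact hj
  · exact hi
  · exact hn

theorem swap_ne {k i j n : ℕ} (hi : i ≠ k) (hj : j ≠ k) (hn : n ≠ k) : Equiv.swap i j n ≠ k := by
  rw [Equiv.swap_apply_def]
  split_ifs
  · exact hj
  · exact hi
  · exact hn

theorem GT.swap {k L : ℕ} {y : ℕ → ℂ} (h : GT k L y) {i j : ℕ} (hi : i < L) (hj : j < L) (hik : i ≠ k)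
    (hjk : j ≠ k) : GT k L (fun n => y (Equiv.swap i j n)) := by
  refine ⟨fun n hn => h.1 _ (swap_lt hi hj hn), fun n hnk hn => ?_, fun n n' hnk hn hnk' hn' hne => ?_⟩
  · exact h.2.1 _ (swap_ne hik hjk hnk) (swap_lt hi hj hn)
  · exact h.2.2 _ _ (swap_ne hik hjk hnk) (swap_lt hi hj hn) (swap_ne hik hjk hnk')
      (swap_lt hi hj hn') (fun h' => hne ((Equiv.swap i j).injective h'))

theorem GT.upd {k L : ℕ} {y : ℕ → ℂ} (h : GT k L y) {t : ℂ} (ht : t ≠ 0) :
    GT k L (Function.update y k t) := by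
  refine ⟨nz_upd h.1 k ht, fun n hnk hn => ?_, fun n n' hnk hn hnk' hn' hne => ?_⟩
  · rw [Function.update_of_ne hnk]
    exact h.2.1 n hnk hn
  · rw [Function.update_of_ne hnk, Function.update_of_ne hnk']
    exact h.2.2 n n' hnk hn hnk' hn' hne

theorem GT.inv {k L : ℕ} {y : ℕ → ℂ} (h : GT k L y) {i : ℕ} (hi : i < L) (hik : i ≠ k) :
    GT k L (Function.update y i (y i)⁻¹) := by
  have h0 : y i ≠ 0 := h.1 i hi
  refine ⟨nz_upd h.1 i (inv_ne_zero h0), fun n hnk hn => ?_, fun n n' hnk hn hnk' hn' hne => ?_⟩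
  · rcases eq_or_ne n i with e | e
    · rw [e, Function.update_self, inv_pow]
      intro h1
      exact h.2.1 i hik hi (inv_eq_one.mp h1)
    · rw [Function.update_of_ne e]
      exact h.2.1 n hnk hn
  · rcases eq_or_ne n i with e | e
    · subst e
      have e' : n' ≠ n := fun h' => hne h'.symm
      rw [Function.update_self, Function.update_of_ne e', inv_pow]
      obtain ⟨h1, h2⟩ := h.2.2 n n' hnk hn hnk' hn' hne
      have h3 : y n ^ 3 ≠ 0 := pow_ne_zero 3 h0
      constructor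
      · intro h4
        apply h2
        rw [← h4, mul_inv_cancel₀ h3]
      · intro h4
        apply h1
        field_simp at h4
        exact h4.symm
    · rcases eq_or_ne n' i with e' | e'
      · subst e'
        rw [Function.update_self, Function.update_of_ne e, inv_pow]
        obtain ⟨h1, h2⟩ := h.2.2 n n' hnk hn hnk' hn' hne
        have h3 : y n' ^ 3 ≠ 0 := pow_ne_zero 3 h0
        constructor
        · intro h4
          apply h2
          rw [h4, inv_mul_cancel₀ h3]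
        · intro h4
          apply h1
          field_simp at h4
          exact h4
      · rw [Function.update_of_ne e, Function.update_of_ne e']
        exact h.2.2 n n' hnk hn hnk' hn' hne

/-! ### vanishing at all fused points -/

theorem zeros_left {k L : ℕ} {F : (ℕ → ℂ) → ℂ} (hF : Sy k L F) (hkL : k < L) {c : ℂ} (hc : c ≠ 0)
    (hv : ∀ y, GT k L y → y k = c * y (k - 1) → F y = 0) {y : ℕ → ℂ} (hy : GT k L y) {j : ℕ} (hj : j < k)
    {u : ℂ} (hu : u = y j ∨ u = (y j)⁻¹) : F (Function.update y k (c * u)) = 0 := by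
  have hyj : y j ≠ 0 := hy.1 j (by omega)
  have hu0 : u ≠ 0 := by
    rcases hu with h | h
    · rw [h]
      exact hyj
    · rw [h]
      exact inv_ne_zero hyj
  have hkk : k - 1 ≠ k := by omega
  set y0 := Function.update y k (c * u) with hy0
  have g0 : GT k L y0 := hy.upd (mul_ne_zero hc hu0)
  set y1 : ℕ → ℂ := fun n => y0 (Equiv.swap j (k - 1) n) with hy1
  have g1 : GT k L y1 := g0.swap (by omega) (by omega) (by omega) (by omega)
  have e1 : F y1 = F y0 := hF.swap hkL g0.1 (Or.inl ⟨hj, by omega⟩)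
  have a1 : y1 (k - 1) = y j := by
    rw [hy1]
    show y0 (Equiv.swap j (k - 1) (k - 1)) = y j
    rw [Equiv.swap_apply_right, hy0, Function.update_of_ne (by omega)]
  have b1 : y1 k = c * u := by
    rw [hy1]
    show y0 (Equiv.swap j (k - 1) k) = c * u
    rw [Equiv.swap_apply_of_ne_of_ne (by omega) (by omega), hy0, Function.update_self]
  rcases hu with h | h
  · rw [← e1]
    exact hv y1 g1 (by rw [a1, b1, h])
  · have g2 := g1.inv (i := k - 1) (by omega) hkk
    have e2 := hF.inv (k - 1) y1 g1.1 (by omega) hkk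
    rw [← e1, ← e2]
    refine hv _ g2 ?_
    rw [Function.update_self, Function.update_of_ne (by omega), a1, b1, h]

theorem zeros_right {k L : ℕ} {F : (ℕ → ℂ) → ℂ} (hF : Sy k L F) {c d : ℂ} (hcd : c * d = 1)
    (hv : ∀ y, GT k L y → y (k + 1) = c * y k → F y = 0) {y : ℕ → ℂ} (hy : GT k L y) {j : ℕ} (hj : k < j)
    (hjL : j < L) {u : ℂ} (hu : u = y j ∨ u = (y j)⁻¹) : F (Function.update y k (d * u)) = 0 := by
  have hyj : y j ≠ 0 := hy.1 j hjL
  have hd : d ≠ 0 := right_ne_zero_of_mul (a := c) (by rw [hcd]; exact one_ne_zero)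
  have hu0 : u ≠ 0 := by
    rcases hu with h | h
    · rw [h]
      exact hyj
    · rw [h]
      exact inv_ne_zero hyj
  set y0 := Function.update y k (d * u) with hy0
  have g0 : GT k L y0 := hy.upd (mul_ne_zero hd hu0)
  set y1 : ℕ → ℂ := fun n => y0 (Equiv.swap j (k + 1) n) with hy1
  have g1 : GT k L y1 := g0.swap (by omega) (by omega) (by omega) (by omega)
  have e1 : F y1 = F y0 := hF.swap (by omega) g0.1 (Or.inr ⟨hj, by omega, hjL, by omega⟩)
  have a1 : y1 (k + 1) = y j := by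
    rw [hy1]
    show y0 (Equiv.swap j (k + 1) (k + 1)) = y j
    rw [Equiv.swap_apply_right, hy0, Function.update_of_ne (by omega)]
  have b1 : y1 k = d * u := by
    rw [hy1]
    show y0 (Equiv.swap j (k + 1) k) = d * u
    rw [Equiv.swap_apply_of_ne_of_ne (by omega) (by omega), hy0, Function.update_self]
  rcases hu with h | h
  · rw [← e1]
    refine hv y1 g1 ?_
    rw [a1, b1, ← mul_assoc, hcd, one_mul, h]
  · have g2 := g1.inv (i := k + 1) (by omega) (by omega)
    have e2 := hF.inv (k + 1) y1 g1.1 (by omega) (by omega)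
    rw [← e1, ← e2]
    refine hv _ g2 ?_
    rw [Function.update_self, Function.update_of_ne (by omega), a1, b1, ← mul_assoc, hcd, one_mul, h]

/-! ### many zeros -/

/-- `z` or its inverse -/
def bu (b : Bool) (z : ℂ) : ℂ := if b then z else z⁻¹

theorem bu_eq (b : Bool) (z : ℂ) : bu b z = z ∨ bu b z = z⁻¹ := by
  cases b
  · exact Or.inr rfl
  · exact Or.inl rfl

theorem bu_key {k L : ℕ} {y : ℕ → ℂ} (h : GT k L y) {i j : ℕ} (hi : i < L) (hik : i ≠ k) (hj : j < L)
    (hjk : j ≠ k) {b b' : Bool} (he : bu b (y i) ^ 3 = bu b' (y j) ^ 3) : i = j ∧ b = b' := by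
  have hyi : y i ^ 3 ≠ 0 := pow_ne_zero 3 (h.1 i hi)
  have hyj : y j ^ 3 ≠ 0 := pow_ne_zero 3 (h.1 j hj)
  by_cases hij : i = j
  · subst hij
    refine ⟨rfl, ?_⟩
    have h6 := h.2.1 i hik hi
    have h7 : y i ^ 6 = y i ^ 3 * y i ^ 3 := by ring
    cases b <;> cases b'
    · rfl
    · exfalso
      apply h6
      have h8 : ((y i)⁻¹) ^ 3 = y i ^ 3 := he
      rw [h7]
      nth_rewrite 1 [← h8]
      rw [inv_pow, inv_mul_cancel₀ hyi]
    · exfalso
      apply h6
      have h8 : y i ^ 3 = ((y i)⁻¹) ^ 3 := he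
      rw [h7]
      nth_rewrite 1 [h8]
      rw [inv_pow, inv_mul_cancel₀ hyi]
    · rfl
  · exfalso
    obtain ⟨h1, h2⟩ := h.2.2 i j hik hi hjk hj hij
    cases b <;> cases b'
    · have h8 : ((y i)⁻¹) ^ 3 = ((y j)⁻¹) ^ 3 := he
      rw [inv_pow, inv_pow] at h8
      exact h1 (inv_injective h8)
    · have h8 : ((y i)⁻¹) ^ 3 = y j ^ 3 := he
      rw [inv_pow] at h8
      exact h2 (by rw [← h8, mul_inv_cancel₀ hyi])
    · have h8 : y i ^ 3 = ((y j)⁻¹) ^ 3 := he
      rw [inv_pow] at h8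
      exact h2 (by rw [h8, inv_mul_cancel₀ hyj])
    · exact h1 he

theorem many {k L : ℕ} {y : ℕ → ℂ} (h : GT k L y) (J : Finset ℕ) (hJ : ∀ j ∈ J, j < L ∧ j ≠ k)
    (e : ℕ → ℂ) (he : ∀ j, e j ^ 3 = 1) : ∃ s : Finset ℂ, s.card = 2 * J.card ∧
      ∀ x ∈ s, ∃ j ∈ J, ∃ u, (u = y j ∨ u = (y j)⁻¹) ∧ x = e j * u := by
  refine ⟨(J ×ˢ (univ : Finset Bool)).image fun p => e p.1 * bu p.2 (y p.1), ?_, ?_⟩
  · rw [Finset.card_image_of_injOn, card_product, card_univ, Fintype.card_bool]
    · ring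
    · rintro ⟨i, b⟩ hi ⟨j, b'⟩ hj hij
      rw [mem_coe, mem_product] at hi hj
      obtain ⟨hi1, hi2⟩ := hJ i hi.1
      obtain ⟨hj1, hj2⟩ := hJ j hj.1
      have h1 : e i * bu b (y i) = e j * bu b' (y j) := hij
      have h2 : bu b (y i) ^ 3 = bu b' (y j) ^ 3 := by
        have h3 : (e i * bu b (y i)) ^ 3 = (e j * bu b' (y j)) ^ 3 := by rw [h1]
        rw [mul_pow, mul_pow, he, he, one_mul, one_mul] at h3
        exact h3
      obtain ⟨h3, h4⟩ := bu_key h hi1 hi2 hj1 hj2 h2
      rw [h3, h4]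
  · intro x hx
    obtain ⟨⟨j, b⟩, hj, rfl⟩ := mem_image.1 hx
    rw [mem_product] at hj
    exact ⟨j, hj.1, bu b (y j), bu_eq b (y j), rfl⟩

/-- a function with enough zeros vanishes -/
theorem vanish {k L a : ℕ} {F : (ℕ → ℂ) → ℂ} {y : ℕ → ℂ} (h : GT k L y) (hkL : k < L) (J : Finset ℕ)
    (hJ : ∀ j ∈ J, j < L ∧ j ≠ k) (e : ℕ → ℂ) (he : ∀ j, e j ^ 3 = 1) (hcard : a < J.card)
    (hdeg : Mir a (fun t => F (Function.update y k t)))
    (hz : ∀ j ∈ J, ∀ u, (u = y j ∨ u = (y j)⁻¹) → F (Function.update y k (e j * u)) = 0) : F y = 0 := by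
  obtain ⟨p, hp, hpe'⟩ := hdeg
  have hpe : ∀ t : ℂ, t ≠ 0 → t ^ a * F (Function.update y k t) = p.eval t := hpe'
  obtain ⟨s, hs, hsx⟩ := many h J hJ e he
  have hp0 : p = 0 := by
    refine zero_of_card hp s ?_ (by omega)
    intro x hx
    obtain ⟨j, hj, u, hu, rfl⟩ := hsx x hx
    obtain ⟨hj1, hj2⟩ := hJ j hj
    have hyj : y j ≠ 0 := h.1 j hj1
    have hu0 : u ≠ 0 := by
      rcases hu with h | h
      · rw [h]
        exact hyj
      · rw [h]
        exact inv_ne_zero hyj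
    have he0 : e j ≠ 0 := by
      intro h0
      have := he j
      rw [h0] at this
      norm_num at this
    rw [← hpe _ (mul_ne_zero he0 hu0), hz j hj u hu, mul_zero]
  have hk : y k ≠ 0 := h.1 k hkL
  have h1 := hpe (y k) hk
  rw [hp0, Polynomial.eval_zero, Function.update_eq_self] at h1
  exact (mul_eq_zero.mp h1).resolve_left (pow_ne_zero _ hk)

end CF
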